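import Pool.Agent.HCT.Defs

namespace Pool.Agent.HCT

open Pool.Agent.HCH Pool.Agent.HCF Pool.Agent.HCR MvPolynomial

theorem C1_ker {K : Type} [Field K] {m : ℕ} :
    RingHom.ker ((deh : MvPolynomial (Fin (m + 1)) K →ₐ[K] MvPolynomial (Fin m) K) :
      MvPolynomial (Fin (m + 1)) K →+* MvPolynomial (Fin m) K) = Ideal.span {X (Fin.last m) - 1} := by
  apply ker_of_vars deh (rename Fin.castSucc)
  · rw [map_sub, deh_last, map_one, sub_self]
  · intro k
    refine Fin.lastCases ?_ (fun i => ?_) k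
    · rw [deh_last, map_one]
      exact Ideal.mem_span_singleton_self _
    · rw [deh_castSucc, rename_X, sub_self]
      exact Ideal.zero_mem _

theorem C1_surj {K : Type} [Field K] {m : ℕ} :
    Function.Surjective (deh : MvPolynomial (Fin (m + 1)) K →ₐ[K] MvPolynomial (Fin m) K) :=
  fun f => ⟨rename Fin.castSucc f, c1_deh_rename f⟩

theorem C1_notMem {K : Type} [Field K] {m : ℕ} (p : PrimeSpectrum (MvPolynomial (Fin m) K)) :
    (X (Fin.last m) - 1 : MvPolynomial (Fin (m + 1)) K) ∉ (hm p).asIdeal := by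
  intro h
  have h1 := hm_homog p _ h 1
  have h2 : homogeneousComponent 1 (1 : MvPolynomial (Fin (m + 1)) K) = 0 := by
    rw [homogeneousComponent_of_mem (isHomogeneous_one (Fin (m + 1)) K), if_neg one_ne_zero]
  rw [map_sub, homogeneousComponent_eq_self (isHomogeneous_X K (Fin.last m)), h2, sub_zero] at h1
  exact last_notMem p h1

theorem C1_sup {K : Type} [Field K] {m : ℕ} (p : PrimeSpectrum (MvPolynomial (Fin m) K)) :
    (hm p).asIdeal ⊔ Ideal.span {(X (Fin.last m) - 1 : MvPolynomial (Fin (m + 1)) K)} =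
      (PrimeSpectrum.comap ((deh : MvPolynomial (Fin (m + 1)) K →ₐ[K] MvPolynomial (Fin m) K) :
      MvPolynomial (Fin (m + 1)) K →+* MvPolynomial (Fin m) K) p).asIdeal := by
  rw [PrimeSpectrum.comap_asIdeal, ← C1_ker]
  have h1 := Ideal.comap_map_of_surjective ((deh : MvPolynomial (Fin (m + 1)) K →ₐ[K] MvPolynomial (Fin m) K) :
      MvPolynomial (Fin (m + 1)) K →+* MvPolynomial (Fin m) K) C1_surj (hm p).asIdeal
  have h2 : (hm p).asIdeal.map ((deh : MvPolynomial (Fin (m + 1)) K →ₐ[K] MvPolynomial (Fin m) K) :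
      MvPolynomial (Fin (m + 1)) K →+* MvPolynomial (Fin m) K) = p.asIdeal := map_hm p
  rw [h2] at h1
  rw [h1]
  rfl

theorem C1_fdiv {K : Type} [Field K] {m : ℕ} (p : PrimeSpectrum (MvPolynomial (Fin m) K)) (e : ℕ)
    (hd : dm K p.asIdeal = e) : fdiv K (hm p).asIdeal (X (Fin.last m) - 1) e =
      Finsupp.single (PrimeSpectrum.comap ((deh : MvPolynomial (Fin (m + 1)) K →ₐ[K] MvPolynomial (Fin m) K) :
      MvPolynomial (Fin (m + 1)) K →+* MvPolynomial (Fin m) K) p) 1 := by
  classical
  have hP := (hm p).isPrime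
  have hdP : dm K (hm p).asIdeal = e + 1 := by rw [dm_hm, hd]
  obtain ⟨P', hP'⟩ : ∃ P', P' = (PrimeSpectrum.comap ((deh : MvPolynomial (Fin (m + 1)) K →ₐ[K] MvPolynomial (Fin m) K) :
      MvPolynomial (Fin (m + 1)) K →+* MvPolynomial (Fin m) K) p) := ⟨_, rfl⟩
  have hdP' : dm K P'.asIdeal = e := by
    rw [hP', ← hd]
    exact dm_comap deh C1_surj p.asIdeal
  have hP'p := P'.isPrime
  rw [← hP']
  ext Q
  have hQp := Q.isPrime
  rw [Finsupp.single_apply]
  by_cases h : dm K Q.asIdeal = e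
  · rw [fdiv_apply (K := K) (hm p).asIdeal _ (C1_notMem p) e hdP Q h, C1_sup, ← hP']
    by_cases hQ : P' = Q
    · rw [if_pos hQ, ← hQ]
      unfold od
      rw [mlt_self]
      rfl
    · rw [if_neg hQ]
      by_contra hne
      have h1 := le_of_od _ _ hne
      exact hQ (PrimeSpectrum.ext (eq_of_dm_le (K := K) _ _ h1 (by rw [hdP', h])))
  · have h1 : fdiv K (hm p).asIdeal (X (Fin.last m) - 1) e Q = 0 := by
      by_contra hne
      exact h (fdiv_supp _ _ _ _ hne).1
    rw [h1, if_neg]
    rintro rfl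
    exact h hdP'

/-
PROOF. AT_iff twice. Let p ∋ deh F, dm p = e; P = hm p: F ∈ P (mem_hm), dm P = e + 1 (dm_hm); N • single P 1 ∈ Rt K (span {F}) (e + 1).
l = X (last) - 1. l ∉ P: P is homogeneous (hm_homog), the homogeneous component 1 of l is X (last), which is not in P (last_notMem).
gys_Rt with h = l: gys K l e (N • single P 1) = N • fdiv K P l e (map_zsmul, gys_single) is in Rt K (span {F} ⊔ span {l}) e.
Let P' = comap deh p. ker deh = span {l} (e.g. deh_lift, or HCH.ker_of_vars-type argument: g - rename castSucc (deh g) ∈ span {l}, by induction on g)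
and deh is surjective, so P ⊔ span {l} = comap deh (map deh P) = comap deh p = P' (map_hm, Ideal.comap_map_of_surjective). fdiv K P l e = single P' 1:
fdiv_eq / fdiv_apply (dm P = e + 1): at a prime Q of dimension e the value is od P' Q; if it is ≠ 0 then P' ≤ Q (le_of_od), so Q = P' (eq_of_dm_le,
dm P' = dm p = e by dm_comap), and od P' P' = 1 (mlt_self); at the other primes it is 0 (fdiv_supp).
rs deh (restriction to the quotient, HCF/S0, rs_Rt, see its statement; the kernel of deh is in the ideal): rs (single P' 1) = single p 1 and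
Rt K (span {F} ⊔ span {l}) e goes to Rt K (map deh (..)) e = Rt K (span {deh F}) e (deh l = 0).
-/
/-- The affine charts of the base of a cone: `A_{e+1}` of the cone is torsion implies `A_e` of the chart is. -/
theorem cone_chart {K : Type} [Field K] {m d : ℕ} (F : MvPolynomial (Fin (m + 1)) K)
    (hF : F.IsHomogeneous d) (e : ℕ) (h : AT K F (e + 1)) : AT K (deh F) e := by
  classical
  rw [AT_iff] at h ⊢
  intro p hfp hdp
  obtain ⟨N, hN, hz⟩ := h (hm p) ((mem_hm p F d hF).2 hfp) (by rw [dm_hm, hdp])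
  refine ⟨N, hN, ?_⟩
  have h1 := gys_Rt (Ideal.span {F}) (X (Fin.last m) - 1) e _ hz
  rw [map_zsmul, gys_single, one_smul, if_neg (C1_notMem p), C1_fdiv p e hdp] at h1
  have h2 := rs_Rt (deh : MvPolynomial (Fin (m + 1)) K →ₐ[K] MvPolynomial (Fin m) K) C1_surj
    (Ideal.span {F} ⊔ Ideal.span {X (Fin.last m) - 1}) (by rw [C1_ker]; exact le_sup_right) e _ h1
  rw [map_zsmul, rs_single] at h2
  have h3 : (Ideal.span {F} ⊔ Ideal.span {X (Fin.last m) - 1}).map
      ((deh : MvPolynomial (Fin (m + 1)) K →ₐ[K] MvPolynomial (Fin m) K) :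
      MvPolynomial (Fin (m + 1)) K →+* MvPolynomial (Fin m) K) = Ideal.span {deh F} := by
    rw [Ideal.map_sup, Ideal.map_span, Ideal.map_span, Set.image_singleton, Set.image_singleton]
    have h4 : ((deh : MvPolynomial (Fin (m + 1)) K →ₐ[K] MvPolynomial (Fin m) K) :
      MvPolynomial (Fin (m + 1)) K →+* MvPolynomial (Fin m) K) (X (Fin.last m) - 1) = 0 := by
      rw [map_sub, map_one]
      exact sub_eq_zero.2 deh_last
    rw [h4, Ideal.span_singleton_eq_bot.2 rfl, sup_bot_eq]
    rfl
  rw [h3] at h2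
  exact h2

end Pool.Agent.HCT
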