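import Pool.Agent.HCT.Defs
import Pool.Agent.HCR.C3a
import Pool.Agent.HCR.E1f

namespace Pool.Agent.HCT

open Pool.Agent.HCH Pool.Agent.HCF Pool.Agent.HCR MvPolynomial

variable {K : Type} [Field K] {m : ℕ}

theorem L3_weight {n : ℕ} (w : Fin n → ℕ) (s : Fin n →₀ ℕ) :
    Finsupp.weight w s = s.sum fun k e => e * w k := by
  rw [Finsupp.weight_apply]
  simp [smul_eq_mul]

theorem L3_weight_one {n : ℕ} (s : Fin n →₀ ℕ) :
    Finsupp.weight (1 : Fin n → ℕ) s = s.degree := by
  rw [L3_weight]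
  have h1 : s.degree = s.sum fun _ e => e := rfl
  rw [h1]
  refine Finsupp.sum_congr fun k _ => ?_
  rw [Pi.one_apply, mul_one]

theorem L3_rename {m' : ℕ} (g : Fin m → Fin m') (w : Fin m → ℕ) (w' : Fin m' → ℕ) (c d : ℕ)
    (h : ∀ k, w' (g k) = c * w k) (f : MvPolynomial (Fin m) K)
    (hf : IsWeightedHomogeneous w f d) : IsWeightedHomogeneous w' (rename g f) (c * d) := by
  intro s hs
  obtain ⟨u, hu, hu0⟩ := coeff_rename_ne_zero g f s hs
  rw [← hf hu0, ← hu, L3_weight, L3_weight, Finsupp.sum_mapDomain_index (by simp) (by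
    intro b x y
    rw [add_mul]), Finsupp.mul_sum]
  refine Finsupp.sum_congr fun k _ => ?_
  rw [h]
  ring

theorem L3_degree {m' : ℕ} (g : Fin m → Fin m') (u : Fin m →₀ ℕ) :
    (u.mapDomain g).degree = u.degree := by
  have h1 : ∀ {n : ℕ} (s : Fin n →₀ ℕ), s.degree = s.sum fun _ e => e := fun s => rfl
  rw [h1, h1, Finsupp.sum_mapDomain_index (by simp) (by simp)]

theorem L3_low_rename {m' : ℕ} (g : Fin m → Fin m') (f : MvPolynomial (Fin m) K) (h : Low2 f) :
    Low2 (rename g f) := by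
  intro s hs
  rw [mem_support_iff] at hs
  obtain ⟨u, hu, hu0⟩ := coeff_rename_ne_zero g f s hs
  rw [← hu, L3_degree]
  exact h u (mem_support_iff.mpr hu0)

theorem L3_low_add {f g : MvPolynomial (Fin m) K} (hf : Low2 f) (hg : Low2 g) : Low2 (f + g) := by
  classical
  intro s hs
  rcases Finset.mem_union.mp (support_add hs) with h | h
  · exact hf s h
  · exact hg s h

theorem L3_low_pow (k : Fin m) : Low2 (X k ^ 3 : MvPolynomial (Fin m) K) := by
  classical
  intro s hs
  have h1 := isHomogeneous_X_pow (R := K) k 3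
  have h2 := h1 (mem_support_iff.mp hs)
  rw [L3_weight_one] at h2
  omega

/-- weights all equal to 1 -/
theorem qh_of_homog {d : ℕ} (hd : 1 ≤ d) (F : MvPolynomial (Fin m) K) (hF : F.IsHomogeneous d) :
    QH F :=
  ⟨1, d, fun _ => Nat.one_pos, hd, hF⟩

theorem low2_of_homog {d : ℕ} (hd : 2 ≤ d) (F : MvPolynomial (Fin m) K) (hF : F.IsHomogeneous d) :
    Low2 F := by
  intro s hs
  have h2 := hF (mem_support_iff.mp hs)
  rw [L3_weight_one] at h2
  omega

/-- weights cons d (3 w), degree 3 d -/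
theorem qh_cone (c : K) (f : MvPolynomial (Fin m) K) (h : QH f) :
    QH (rename Fin.succ f + C c * X 0 ^ 3) := by
  obtain ⟨w, d, hw, hd, hf⟩ := h
  refine ⟨Fin.cons d fun k => 3 * w k, 3 * d, ?_, by omega, ?_⟩
  · intro k
    refine Fin.cases ?_ (fun j => ?_) k
    · exact hd
    · rw [Fin.cons_succ]
      have := hw j
      omega
  · refine (L3_rename Fin.succ w _ 3 d (fun k => Fin.cons_succ _ _ _) f hf).add ?_
    intro s hs
    rw [coeff_C_mul] at hs
    have h1 := right_ne_zero_of_mul hs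
    rw [coeff_X_pow] at h1
    split_ifs at h1 with h2
    · rw [← h2, L3_weight, Finsupp.sum_single_index (by simp), Fin.cons_zero]
    · exact absurd rfl h1

theorem qh_sus (f : MvPolynomial (Fin m) K) (h : QH f) : QH (sus 3 f) := by
  have h1 := qh_cone (1 : K) f h
  rwa [C_1, one_mul] at h1

/-- suspA = sus of sus (HCR.sus_sus) -/
theorem qh_suspA (f : MvPolynomial (Fin m) K) (h : QH f) : QH (suspA 3 f) := by
  rw [← sus_sus]
  exact qh_sus _ (qh_sus _ h)

/-- HCR.insr_eq: insr is rename of sus under a permutation -/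
theorem qh_insr (f : MvPolynomial (Fin (m + 1)) K) (h : QH f) : QH (insr 3 f) := by
  rw [insr_eq]
  obtain ⟨w, d, hw, hd, hf⟩ := qh_sus f h
  refine ⟨fun k => w (Equiv.swap 0 1 k), 1 * d, fun k => hw _, by omega, ?_⟩
  refine L3_rename _ w _ 1 d (fun k => ?_) _ hf
  rw [Equiv.swap_apply_self, one_mul]

theorem low2_sus (f : MvPolynomial (Fin m) K) (h : Low2 f) : Low2 (sus 3 f) :=
  L3_low_add (L3_low_rename _ _ h) (L3_low_pow _)

theorem low2_suspA (f : MvPolynomial (Fin m) K) (h : Low2 f) : Low2 (suspA 3 f) := by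
  rw [← sus_sus]
  exact low2_sus _ (low2_sus _ h)

/-- injective or not, the coefficients of map f are the images of the coefficients of f -/
theorem qh_map {L : Type} [Field L] (σ : K →+* L) (f : MvPolynomial (Fin m) K) (h : QH f) :
    QH (MvPolynomial.map σ f) := by
  obtain ⟨w, d, hw, hd, hf⟩ := h
  refine ⟨w, d, hw, hd, ?_⟩
  intro s hs
  rw [coeff_map] at hs
  exact hf (fun h0 => hs (by rw [h0, map_zero]))

theorem low2_map {L : Type} [Field L] (σ : K →+* L) (f : MvPolynomial (Fin m) K) (h : Low2 f) :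
    Low2 (MvPolynomial.map σ f) := by
  intro s hs
  rw [mem_support_iff, coeff_map] at hs
  exact h s (mem_support_iff.mpr fun h0 => hs (by rw [h0, map_zero]))

end Pool.Agent.HCT
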