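import Pool.Agent.HCT.Defs

namespace Pool.Agent.HCT

open Pool.Agent.HCH Pool.Agent.HCF Pool.Agent.HCR MvPolynomial

variable {K : Type} [Field K] {m : ℕ}

attribute [local instance] MvPolynomial.gradedAlgebra

/-
PROOF. J = the ideal of the partials, homogeneous (e3_homog of HCH/E3). P prime containing J; let P₁ ≤ P be a minimal prime of J (Ideal.exists_minimalPrimes_le); P₁ is
homogeneous (HCH.min_homog), dm P₁ ≤ r by h, dm P ≤ dm P₁ (dm_le).
-/
theorem critle_of_sg {d : ℕ} (F : MvPolynomial (Fin m) K) (hF : F.IsHomogeneous d) (r : ℕ)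
    (h : SgLe F r) : CritLe F r := by
  intro P hP
  have hPp := P.isPrime
  have hJ : HgI (Ideal.span (Set.range fun k => pderiv k F)) := by
    rw [hgI_iff]
    apply Ideal.homogeneous_span
    rintro _ ⟨k, rfl⟩
    exact ⟨d - 1, (mem_homogeneousSubmodule _ _).mpr hF.pderiv⟩
  have hle : Ideal.span (Set.range fun k => pderiv k F) ≤ P.asIdeal := by
    rw [Ideal.span_le]
    rintro _ ⟨k, rfl⟩
    exact hP k
  obtain ⟨Q, hQ, hQP⟩ := Ideal.exists_minimalPrimes_le hle
  have hQp : Q.IsPrime := hQ.1.1
  have h1 := h ⟨Q, hQp⟩ (min_homog _ Q hJ hQ) (fun k => hQ.1.2 (Ideal.subset_span ⟨k, rfl⟩))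
  exact (dm_le (K := K) Q P.asIdeal hQP).trans h1

theorem L4_dm_zero (P : PrimeSpectrum (MvPolynomial (Fin m) K))
    (hX : ∀ k, (X k : MvPolynomial (Fin m) K) ∈ P.asIdeal) : dm K P.asIdeal = 0 := by
  have hP := P.isPrime
  have hmem : ∀ f : MvPolynomial (Fin m) K, f - C (constantCoeff f) ∈ P.asIdeal := by
    intro f
    induction f using MvPolynomial.induction_on with
    | C a => simp
    | add p q hp hq =>
      have e : p + q - C (constantCoeff (p + q)) = (p - C (constantCoeff p)) + (q - C (constantCoeff q)) := by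
        rw [map_add, C_add]
        ring
      rw [e]
      exact P.asIdeal.add_mem hp hq
    | mul_X p n hp =>
      have e : p * X n - C (constantCoeff (p * X n)) = p * X n := by
        rw [map_mul, constantCoeff_X, mul_zero, C_0, sub_zero]
      rw [e]
      exact P.asIdeal.mul_mem_left _ (hX n)
  have halg : Algebra.IsAlgebraic K (MvPolynomial (Fin m) K ⧸ P.asIdeal) := by
    refine ⟨fun b => ?_⟩
    obtain ⟨f, rfl⟩ := Ideal.Quotient.mk_surjective b
    have h1 : Ideal.Quotient.mk P.asIdeal f =
        algebraMap K (MvPolynomial (Fin m) K ⧸ P.asIdeal) (constantCoeff f) :=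
      Ideal.Quotient.eq.2 (hmem f)
    rw [h1]
    exact isAlgebraic_algebraMap _
  unfold dm
  rw [trdeg_eq_zero]
  simp

/-
PROOF. HCH.sg_of_smooth (J1.lean), whose proof does not use that P is homogeneous: copy it.
-/
theorem critle_of_iso [IsAlgClosed K] (f : MvPolynomial (Fin m) K) (h : Iso f) : CritLe f 0 := by
  intro P hd
  have hP := P.isPrime
  apply le_of_eq
  apply L4_dm_zero P
  intro k
  rw [← hP.isRadical.radical, ← vanishingIdeal_zeroLocus_eq_radical (K := K) P.asIdeal,
    mem_vanishingIdeal_iff]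
  intro x hx
  have h1 : x = 0 := h x fun j => by
    have := hx _ (hd j)
    rwa [aeval_eq_eval] at this
  rw [h1]
  simp

theorem L4_pderiv_same (i0 : Fin (m + 1)) (f : MvPolynomial (Fin m) K) :
    pderiv i0 (rename (Fin.succAbove i0) f + X i0 ^ 3) = C (3 : K) * X i0 ^ 2 := by
  rw [map_add, pderiv_pow, pderiv_X_self, mul_one]
  have h1 : pderiv i0 (rename (Fin.succAbove i0) f) = 0 := by
    apply pderiv_eq_zero_of_notMem_vars
    intro hmem
    have h2 := vars_rename (Fin.succAbove i0) f hmem
    rw [Finset.mem_image] at h2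
    obtain ⟨k, -, hk⟩ := h2
    exact Fin.succAbove_ne i0 k hk
  rw [h1, zero_add, map_ofNat]
  simp

theorem L4_pderiv_other (i0 : Fin (m + 1)) (f : MvPolynomial (Fin m) K) (k : Fin m) :
    pderiv (i0.succAbove k) (rename (Fin.succAbove i0) f + X i0 ^ 3) = rename (Fin.succAbove i0) (pderiv k f) := by
  rw [map_add, pderiv_rename Fin.succAbove_right_injective, pderiv_pow, pderiv_X_of_ne (Fin.succAbove_ne i0 k).symm,
    mul_zero, add_zero]

theorem L4_gen [CharZero K] (i0 : Fin (m + 1)) (f : MvPolynomial (Fin m) K) (r : ℕ) (h : CritLe f r) :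
    CritLe (rename (Fin.succAbove i0) f + X i0 ^ 3) r := by
  intro P hd
  have hPp := P.isPrime
  have hX : (X i0 : MvPolynomial (Fin (m + 1)) K) ∈ P.asIdeal := by
    have h1 := hd i0
    rw [L4_pderiv_same] at h1
    rcases hPp.mem_or_mem h1 with h2 | h2
    · exfalso
      apply hPp.ne_top
      exact Ideal.eq_top_of_isUnit_mem _ h2 ((isUnit_iff_ne_zero.2 (by norm_num : (3 : K) ≠ 0)).map C)
    · exact hPp.mem_of_pow_mem _ h2
  let P0 : PrimeSpectrum (MvPolynomial (Fin m) K) :=
    PrimeSpectrum.comap ((rename (Fin.succAbove i0) : MvPolynomial (Fin m) K →ₐ[K]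
      MvPolynomial (Fin (m + 1)) K) : MvPolynomial (Fin m) K →+* MvPolynomial (Fin (m + 1)) K) P
  have hd0 : ∀ k, pderiv k f ∈ P0.asIdeal := by
    intro k
    change rename (Fin.succAbove i0) (pderiv k f) ∈ P.asIdeal
    have h1 := hd (i0.succAbove k)
    rwa [L4_pderiv_other] at h1
  have h2 := h P0 hd0
  -- the map X i0 to 0
  let φ : MvPolynomial (Fin (m + 1)) K →ₐ[K] MvPolynomial (Fin m) K :=
    aeval (Fin.insertNth (α := fun _ => MvPolynomial (Fin m) K) i0 0 X)
  have hφX0 : φ (X i0) = 0 := by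
    change aeval _ (X i0) = 0
    rw [aeval_X, Fin.insertNth_apply_same]
  have hφXs : ∀ k : Fin m, φ (X (i0.succAbove k)) = X k := by
    intro k
    change aeval _ (X (i0.succAbove k)) = X k
    rw [aeval_X, Fin.insertNth_apply_succAbove]
  have hφr : ∀ f : MvPolynomial (Fin m) K, φ (rename (Fin.succAbove i0) f) = f := by
    intro f
    have h3 : φ.comp (rename (Fin.succAbove i0)) = AlgHom.id K _ := by
      apply algHom_ext
      intro i
      rw [AlgHom.comp_apply, rename_X, hφXs]
      rfl
    exact congrArg (fun g : MvPolynomial (Fin m) K →ₐ[K] MvPolynomial (Fin m) K => g f) h3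
  have hsurj : Function.Surjective φ := fun f => ⟨rename (Fin.succAbove i0) f, hφr f⟩
  have hmk : ∀ f : MvPolynomial (Fin (m + 1)) K,
      Ideal.Quotient.mk P.asIdeal f = Ideal.Quotient.mk P.asIdeal (rename (Fin.succAbove i0) (φ f)) := by
    intro f
    have h3 : (Ideal.Quotient.mkₐ K P.asIdeal) =
        ((Ideal.Quotient.mkₐ K P.asIdeal).comp (rename (Fin.succAbove i0))).comp φ := by
      apply algHom_ext
      intro i
      rcases Fin.eq_self_or_eq_succAbove i0 i with hi | ⟨k, hi⟩
      · rw [hi, AlgHom.comp_apply, hφX0, map_zero]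
        exact Ideal.Quotient.eq_zero_iff_mem.2 hX
      · rw [hi, AlgHom.comp_apply, hφXs, AlgHom.comp_apply, rename_X]
    exact congrArg (fun g : MvPolynomial (Fin (m + 1)) K →ₐ[K]
      (MvPolynomial (Fin (m + 1)) K ⧸ P.asIdeal) => g f) h3
  have hcomap : P0.asIdeal.comap (φ : MvPolynomial (Fin (m + 1)) K →+* MvPolynomial (Fin m) K) =
      P.asIdeal := by
    ext f
    change rename (Fin.succAbove i0) (φ f) ∈ P.asIdeal ↔ f ∈ P.asIdeal
    rw [← Ideal.Quotient.eq_zero_iff_mem, ← Ideal.Quotient.eq_zero_iff_mem, hmk f]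
  rw [← hcomap, dm_comap φ hsurj]
  exact h2

theorem L4_sus_eq (f : MvPolynomial (Fin m) K) : sus 3 f = rename (Fin.succAbove 0) f + X 0 ^ 3 := by
  rw [Fin.succAbove_zero]
  rfl

/-
PROOF. The partials of sus 3 f are rename succ (pderiv k f) and 3 X 0 ^ 2. P contains X 0 (CharZero), so P = comap of its contraction: dm P = dm (contraction under
rename succ). See HCR.sg_sus (E1d.lean): the same proof without homogeneity.
-/
theorem critle_sus [CharZero K] (f : MvPolynomial (Fin m) K) (r : ℕ) (h : CritLe f r) :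
    CritLe (sus 3 f) r := by
  rw [L4_sus_eq]
  exact L4_gen 0 f r h

theorem critle_suspA [CharZero K] (f : MvPolynomial (Fin m) K) (r : ℕ) (h : CritLe f r) :
    CritLe (suspA 3 f) r := by
  rw [← sus_sus]
  exact critle_sus _ r (critle_sus f r h)

theorem critle_insr [CharZero K] (f : MvPolynomial (Fin (m + 1)) K) (r : ℕ) (h : CritLe f r) :
    CritLe (insr 3 f) r :=
  L4_gen 1 f r h

/-
PROOF. HCR.sg_cone (E1c.lean), E1c_dm: the contraction of P under rename succ contains the partials of f, and dm P ≤ dm (contraction) + 1.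
-/
theorem critle_cone (c : K) (f : MvPolynomial (Fin m) K) (r : ℕ) (h : CritLe f r) :
    CritLe (rename Fin.succ f + C c * X 0 ^ 3) (r + 1) := by
  intro P hk
  have h1 := E1c_dm P
  have h3 := h (PrimeSpectrum.comap
      (rename Fin.succ : MvPolynomial (Fin m) K →ₐ[K] MvPolynomial (Fin (m + 1)) K).toRingHom P)
    (by
      intro k
      change rename Fin.succ (pderiv k f) ∈ P.asIdeal
      have h4 := hk k.succ
      rw [map_add, pderiv_rename (Fin.succ_injective m), Derivation.leibniz, pderiv_C, smul_zero,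
        add_zero, Derivation.leibniz_pow, pderiv_X_of_ne (Fin.succ_ne_zero k).symm, smul_zero,
        smul_zero, smul_zero, add_zero] at h4
      exact h4)
  omega

/-
PROOF. Contraction under map σ, σ = algebraMap: HCR.U1c_le: dm L P ≤ dm K (comap) (toNat of the inequality of the transcendence degrees, the right hand side is finite).
-/
theorem critle_ext {L : Type} [Field L] [Algebra K L] (f : MvPolynomial (Fin m) K) (r : ℕ)
    (h : CritLe f r) : CritLe (HCH.ext K L m f) r := by
  intro P hd
  have hPp := P.isPrime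
  have h1 := h (PrimeSpectrum.comap (HCH.ext K L m) P) (by
    intro k
    rw [PrimeSpectrum.comap_asIdeal, Ideal.mem_comap]
    have h2 := hd k
    unfold HCH.ext at h2 ⊢
    rwa [pderiv_map] at h2)
  have h2 := U1c_le (K := K) (L := L) P.asIdeal
  have hQp : (P.asIdeal.comap (HCH.ext K L m)).IsPrime := Ideal.comap_isPrime _ _
  have f1 : Algebra.trdeg K (MvPolynomial (Fin m) K ⧸ P.asIdeal.comap (HCH.ext K L m)) < Cardinal.aleph0 :=
    trdeg_lt_aleph0_of_finiteType
  exact (Cardinal.toNat_le_toNat h2 f1).trans h1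

theorem L4_iso_gen [CharZero K] (i0 : Fin (m + 1)) (f : MvPolynomial (Fin m) K) (h : Iso f) :
    Iso (rename (Fin.succAbove i0) f + X i0 ^ 3) := by
  intro y hy
  have h0 : y i0 = 0 := by
    have h1 := hy i0
    rw [L4_pderiv_same, map_mul, eval_C, map_pow, eval_X] at h1
    rcases mul_eq_zero.1 h1 with h2 | h2
    · exact absurd h2 (by norm_num)
    · exact pow_eq_zero_iff (by norm_num) |>.1 h2
  have h1 : (fun k => y (i0.succAbove k)) = 0 := by
    apply h
    intro k
    have h2 := hy (i0.succAbove k)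
    rw [L4_pderiv_other, eval_rename] at h2
    exact h2
  funext i
  rcases Fin.eq_self_or_eq_succAbove i0 i with hi | ⟨k, hi⟩
  · rw [hi, h0, Pi.zero_apply]
  · rw [hi, Pi.zero_apply]
    exact congrFun h1 k

/-
PROOF. y = a critical point of sus 3 f: 3 y 0 ^ 2 = 0, and y ∘ succ is a critical point of f.
-/
theorem iso_sus [CharZero K] (f : MvPolynomial (Fin m) K) (h : Iso f) : Iso (sus 3 f) := by
  rw [L4_sus_eq]
  exact L4_iso_gen 0 f h

theorem iso_suspA [CharZero K] (f : MvPolynomial (Fin m) K) (h : Iso f) : Iso (suspA 3 f) := by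
  rw [← sus_sus]
  exact iso_sus _ (iso_sus f h)

/-- for an isomorphism of fields: the critical points correspond -/
theorem iso_map {L : Type} [Field L] (ε : K ≃+* L) (f : MvPolynomial (Fin m) K) (h : Iso f) :
    Iso (MvPolynomial.map (ε : K →+* L) f) := by
  intro x hx
  have h1 : (fun k => ε.symm (x k)) = 0 := by
    apply h
    intro k
    have h2 := hx k
    rw [pderiv_map, eval_map] at h2
    have h3 : eval₂ (ε : K →+* L) x (pderiv k f) = ε (eval (fun k => ε.symm (x k)) (pderiv k f)) := by
      have h4 := eval₂_comp_left (ε : K →+* L) (RingHom.id K) (fun k => ε.symm (x k)) (pderiv k f)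
      have h5 : (fun k => ε.symm (x k)) = (fun k => ε.symm (x k)) := rfl
      rw [RingHom.comp_id] at h4
      have h6 : (⇑(ε : K →+* L)) ∘ (fun k => ε.symm (x k)) = x := by
        funext k
        exact ε.apply_symm_apply (x k)
      rw [h6] at h4
      exact h4.symm
    rw [h3] at h2
    exact (map_eq_zero_iff ε ε.injective).1 h2
  funext k
  have h2 := congrFun h1 k
  rw [Pi.zero_apply] at h2 ⊢
  rw [← ε.apply_symm_apply (x k), h2, map_zero]

end Pool.Agent.HCT
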