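import Pool.Agent.HCT.L2
import Pool.Agent.HCT.L3
import Pool.Agent.HCT.L4

namespace Pool.Agent.HCT

open Pool.Agent.HCH Pool.Agent.HCF Pool.Agent.HCR MvPolynomial

/-
PROOF. See HCR/E2c.lean (alpha_crit). n = 2 i + 1 (subst). K algebraically closed of characteristic 0 (algClosed_of_equiv, charZero_of_equiv). hcrit: Gen K (suspA 3 G) (i + 2) (MemP 0 1)
(2 (i + 2) = n + 3). Gen_false_iff, Gen.trans: q with C s * X 0 - C t * X 1 ∈ q: lq_mem s t (HCR/E1b): LQ (mem t s) tau (..); low_tors with V = suspA 3 G, n = 2 i + 2, r = 1: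
rho V = mem t s (suspA 3 G) = rename succ G + C (t ^ 3 + s ^ 3) * X 0 ^ 3 (mem_suspA), QH by qh_cone, CritLe .. 1 by critle_cone and critle_of_iso; V prime and dm = 2 i + 2 by prime_of_crit
(qh_suspA, critle_suspA); dm q = i + 2 = 2 i + 2 - i. Tor is exactly what is needed (AddSubgroup.mem_sup_left).
-/
/-- The critical case for suspensions. -/
theorem alpha_base (i : ℕ) (hi : 1 ≤ i) {K : Type} [Field K] (ε : Nonempty (K ≃+* ℂ))
    (hlow : 2 ≤ i → HCW K (i - 1)) (hcrit : GC K) (n : ℕ) (hn : n = 2 * i + 1)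
    (G : MvPolynomial (Fin n) K) (hq : QH G) (h2 : Low2 G) (hs : Iso G) :
    AT K (suspA 3 G) (i + 2) := by
  subst hn
  have c0 : CharZero K := charZero_of_equiv ε
  have ac : IsAlgClosed K := algClosed_of_equiv ε
  have hVq : QH (suspA 3 G) := qh_suspA G hq
  have hVc : CritLe (suspA 3 G) 0 := critle_suspA G 0 (critle_of_iso G hs)
  obtain ⟨hprime, hdm⟩ := prime_of_crit (suspA 3 G) hVq 0 hVc (by omega)
  rw [← Gen_false_iff]
  refine (hcrit (2 * i + 1) (i + 2) (by omega) (by omega) G hq h2 hs).trans ?_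
  rintro q hqV hd ⟨s, t, hst, hl⟩
  obtain ⟨tau, hq'⟩ := lq_mem (K := K) (m := 2 * i + 1) s t hst
  have e1 : 2 * i + 2 - i = i + 2 := by omega
  have hT := low_tors (n := 2 * i + 2) hq' (suspA 3 G) i 1 hi hlow (by omega) (by
    rw [mem_suspA]
    exact qh_cone _ G hq) (by
    rw [mem_suspA]
    exact critle_cone _ G 0 (critle_of_iso G hs)) hprime (by rw [hdm]; omega) q hqV hl
    (by rw [e1]; exact hd)
  rw [e1] at hT
  obtain ⟨N, hN, hz⟩ := hT
  exact ⟨N, hN, AddSubgroup.mem_sup_left hz⟩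

end Pool.Agent.HCT
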