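import Pool.Agent.HCT.Defs

namespace Pool.Agent.HCT

open Pool.Agent.HCH Pool.Agent.HCF Pool.Agent.HCR MvPolynomial

variable {K : Type} [Field K] {m : ℕ}

/-- HCF.AT_equiv for renameEquiv, in both directions -/
theorem AT_perm (σ : Equiv.Perm (Fin m)) (f : MvPolynomial (Fin m) K) (e : ℕ) :
    AT K (rename σ f) e ↔ AT K f e := by
  constructor
  · intro h
    exact AT_equiv (renameEquiv K σ) f e h
  · intro h
    refine AT_equiv (renameEquiv K σ.symm) (rename σ f) e ?_
    have h1 : renameEquiv K σ.symm (rename σ f) = f := by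
      rw [renameEquiv_apply, rename_rename, Equiv.symm_comp_self, rename_id_apply]
    rw [h1]
    exact h

theorem A1_swap (G : MvPolynomial (Fin (m + 1)) K) :
    rename (Equiv.swap (0 : Fin (m + 1 + 2)) 2) (insr 3 (insr 3 G)) = suspA 3 G := by
  have e1 : ((⇑(Equiv.swap (0 : Fin (m + 1 + 2)) 2) ∘ Fin.succAbove (n := m + 2) 1) ∘
      Fin.succAbove (n := m + 1) 1) = (Fin.succ ∘ Fin.succ : Fin (m + 1) → Fin (m + 1 + 2)) := by
    funext k
    refine Fin.cases ?_ (fun j => ?_) k
    · have h3 : Fin.succAbove (n := m + 1) 1 0 = 0 := rfl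
      have h4 : Fin.succAbove (n := m + 2) 1 0 = 0 := rfl
      rw [Function.comp_apply, Function.comp_apply, h3, h4, Equiv.swap_apply_left]
      rfl
    · have h3 : Fin.succAbove (n := m + 1) 1 j.succ = j.succ.succ := by
        rw [← Fin.succ_zero_eq_one, Fin.succ_succAbove_succ, Fin.succAbove_zero]
      have h4 : Fin.succAbove (n := m + 2) 1 j.succ.succ = j.succ.succ.succ := by
        rw [← Fin.succ_zero_eq_one, Fin.succ_succAbove_succ, Fin.succAbove_zero]
      rw [Function.comp_apply, Function.comp_apply, h3, h4, Equiv.swap_apply_of_ne_of_ne]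
      · rfl
      · exact Fin.succ_ne_zero _
      · intro h5
        have h6 := congrArg Fin.val h5
        simp only [Fin.val_succ] at h6
        have h7 : ((2 : Fin (m + 1 + 2)) : ℕ) = 2 := rfl
        omega
  have e2 : Equiv.swap (0 : Fin (m + 1 + 2)) 2 (Fin.succAbove (n := m + 2) 1 1) = 0 := by
    have h3 : Fin.succAbove (n := m + 2) 1 1 = 2 := rfl
    rw [h3, Equiv.swap_apply_right]
  have e3 : Equiv.swap (0 : Fin (m + 1 + 2)) 2 1 = 1 := by
    apply Equiv.swap_apply_of_ne_of_ne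
    · exact one_ne_zero
    · intro h5
      have h6 := congrArg Fin.val h5
      have h7 : ((2 : Fin (m + 1 + 2)) : ℕ) = 2 := rfl
      have h8 : ((1 : Fin (m + 1 + 2)) : ℕ) = 1 := rfl
      omega
  unfold insr suspA
  rw [map_add, map_add, map_add, rename_rename, rename_rename, map_pow, map_pow, map_pow,
    rename_X, rename_X, rename_X, e1, e2, e3]

/-- insr 3 (insr 3 G) is suspA 3 G up to a permutation of the variables: see HCR/E2b.lean (hart_insr) -/
theorem AT_insr2 (G : MvPolynomial (Fin (m + 1)) K) (e : ℕ) :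
    AT K (insr 3 (insr 3 G)) e ↔ AT K (suspA 3 G) e := by
  rw [← A1_swap, AT_perm]

/-- HCR.E2g_rename: rename (Fin.cycleRange 3) (suspA 3 (sus 3 G)) = insr 3 (insr 3 (insr 3 G)) -/
theorem AT_insr3 (G : MvPolynomial (Fin (m + 1)) K) (e : ℕ) :
    AT K (insr 3 (insr 3 (insr 3 G))) e ↔ AT K (suspA 3 (sus 3 G)) e := by
  rw [← E2g_rename]
  exact AT_perm (m := m + 4) (Fin.cycleRange (3 : Fin (m + 4))) (suspA 3 (sus 3 G)) e

theorem A1_phi (a : Fin m → K) (G : MvPolynomial (Fin (m + 1)) K) (e : ℕ)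
    (h : AT K (phi a G) e) : AT K G e := by
  have h2 : (phi a).comp (phi (-a)) = AlgHom.id K (MvPolynomial (Fin (m + 1)) K) := by
    apply AlgHom.ext
    intro G
    have := phi_neg (-a) G
    rwa [neg_neg] at this
  have h3 : (phi (-a)).comp (phi a) = AlgHom.id K (MvPolynomial (Fin (m + 1)) K) :=
    AlgHom.ext (phi_neg a)
  exact AT_equiv (AlgEquiv.ofAlgHom (phi a) (phi (-a)) h2 h3) G e h

/-- HCR/E2a.lean: phi (cons 0 a) (sus D G) = sus D (phi a G); phi a is an isomorphism with inverse phi (-a) (phi_neg) -/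
theorem AT_phi2 (a : Fin m → K) (G : MvPolynomial (Fin (m + 1)) K) (e : ℕ)
    (h : AT K (suspA 3 (phi a G)) e) : AT K (suspA 3 G) e := by
  apply A1_phi (Fin.cons (α := fun _ => K) 0 (Fin.cons (α := fun _ => K) 0 a))
  rw [← sus_sus, phi_sus, phi_sus, sus_sus]
  exact h

theorem AT_phi3 (a : Fin m → K) (G : MvPolynomial (Fin (m + 1)) K) (e : ℕ)
    (h : AT K (suspA 3 (sus 3 (phi a G))) e) : AT K (suspA 3 (sus 3 G)) e := by
  apply AT_phi2 (Fin.cons (α := fun _ => K) 0 a)
  rw [phi_sus]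
  exact h

theorem AT_phi (a : Fin m → K) (G : MvPolynomial (Fin (m + 1)) K) (e : ℕ)
    (h : AT K (phi a G) e) : AT K G e := A1_phi a G e h

end Pool.Agent.HCT
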