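import Pool.Agent.HCT.P2

namespace Pool.Agent.HCT

open Pool.Agent.HCH Pool.Agent.HCF Pool.Agent.HCR MvPolynomial

/-
PROOF. gen_of_psi, Gen.trans: for P with MemP 0 last P, with s, t: if s ≠ 0 then X 0 - C (t / s) * X last ∈ P (multiply by C s⁻¹), ht; if s = 0 then t ≠ 0 and X last ∈ P, hI; a Tor is in the left summand.
-/
theorem cone_gen {K : Type} [Field K] [IsAlgClosed K] {m : ℕ} (V : MvPolynomial (Fin (m + 2)) K)
    (e : ℕ) (S : PrimeSpectrum (MvPolynomial (Fin (m + 1)) (RatFunc K)) → Prop)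
    (hI : ∀ P : PrimeSpectrum (MvPolynomial (Fin (m + 2)) K), V ∈ P.asIdeal →
      dm K P.asIdeal = e + 1 → X (Fin.last (m + 1)) ∈ P.asIdeal → Tor V (e + 1) P)
    (ht : ∀ (t : K) (P : PrimeSpectrum (MvPolynomial (Fin (m + 2)) K)), V ∈ P.asIdeal →
      dm K P.asIdeal = e + 1 → X 0 - C t * X (Fin.last (m + 1)) ∈ P.asIdeal → Tor V (e + 1) P)
    (hg : Gen (RatFunc K) (psi V) e S) :
    Gen K V (e + 1) (fun P => ∃ q, PrimeSpectrum.comap (psiR K m) q = P ∧ S q) := by
  refine (gen_of_psi V e S hg).trans ?_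
  rintro P hV hd (⟨s, t, hst, hl⟩ | hq)
  · have hT : Tor V (e + 1) P := by
      by_cases hs : s = 0
      · have ht0 : t ≠ 0 := by
          rcases hst with h1 | h1
          · exact absurd hs h1
          · exact h1
        apply hI P hV hd
        have h1 := P.asIdeal.mul_mem_left (C (-t⁻¹)) hl
        have e1 : (C (-t⁻¹) * (C s * X 0 - C t * X (Fin.last (m + 1))) :
            MvPolynomial (Fin (m + 2)) K) = X (Fin.last (m + 1)) := by
          rw [hs, C_0, zero_mul, zero_sub, mul_neg, ← mul_assoc, ← C_mul, ← neg_mul, ← C_neg,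
            ← neg_mul, neg_neg, inv_mul_cancel₀ ht0, C_1, one_mul]
        rw [e1] at h1
        exact h1
      · apply ht (t / s) P hV hd
        have h1 := P.asIdeal.mul_mem_left (C s⁻¹) hl
        have e1 : (C s⁻¹ * (C s * X 0 - C t * X (Fin.last (m + 1))) :
            MvPolynomial (Fin (m + 2)) K) = X 0 - C (t / s) * X (Fin.last (m + 1)) := by
          rw [mul_sub, ← mul_assoc, ← mul_assoc, ← C_mul, ← C_mul, inv_mul_cancel₀ hs, C_1,
            one_mul, div_eq_inv_mul]
        rw [e1] at h1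
        exact h1
    obtain ⟨N, hN, hz⟩ := hT
    exact ⟨N, hN, AddSubgroup.mem_sup_left hz⟩
  · refine ⟨1, one_pos, ?_⟩
    rw [Nat.cast_one, one_smul]
    exact AddSubgroup.mem_sup_right (AddSubgroup.subset_closure ⟨P, hV, hd, hq, rfl⟩)

/-
PROOF. descend_AT (RatFunc K has characteristic 0), Gen_false_iff, cone_gen with S = False, Gen.mono, Gen_false_iff.
-/
theorem cone_AT {K : Type} [Field K] [IsAlgClosed K] [CharZero K] {m : ℕ}
    (V : MvPolynomial (Fin (m + 2)) K) (e : ℕ)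
    (hI : ∀ P : PrimeSpectrum (MvPolynomial (Fin (m + 2)) K), V ∈ P.asIdeal →
      dm K P.asIdeal = e + 1 → X (Fin.last (m + 1)) ∈ P.asIdeal → Tor V (e + 1) P)
    (ht : ∀ (t : K) (P : PrimeSpectrum (MvPolynomial (Fin (m + 2)) K)), V ∈ P.asIdeal →
      dm K P.asIdeal = e + 1 → X 0 - C t * X (Fin.last (m + 1)) ∈ P.asIdeal → Tor V (e + 1) P)
    (hg : AT (AlgebraicClosure (RatFunc K))
      (HCH.ext (RatFunc K) (AlgebraicClosure (RatFunc K)) (m + 1) (psi V)) e) :
    AT K V (e + 1) := by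
  have cR : CharZero (RatFunc K) := charZero_of_injective_algebraMap (algebraMap K _).injective
  have h1 := descend_AT (psi V) e hg
  rw [← Gen_false_iff] at h1 ⊢
  exact (cone_gen V e _ hI ht h1).mono fun P _ _ ⟨_, _, h2⟩ => h2

end Pool.Agent.HCT
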