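import Pool.Agent.HCT.A0
import Pool.Agent.HCT.A1
import Pool.Agent.HCT.P3

namespace Pool.Agent.HCT

open Pool.Agent.HCH Pool.Agent.HCF Pool.Agent.HCR MvPolynomial

/-
PROOF. As HCR/E2d.lean (alpha), on cones. Induction on N. N = 2 i + 1: r = 0, alpha_base (QH and Low2 by qh_of_homog, low2_of_homog; Iso G by HCH.smooth_of_sg).
Otherwise N = N₀ + 3 (N ≥ 2 i + 2 ≥ 4). prime_of_sg G (r + 3 ≤ N), good_coord G: a with SgLe (rhoI (phi a G)) (r - 1); AT_phi2 a; G' = phi a G
(phi_homog, sg_phi). AT_insr2: it is enough to prove AT K V (N + 1 - i) for V = insr 3 (insr 3 G') : Fin (N₀ + 5) (= N + 2 variables). cone_AT with e = N - i: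
- hg: psi V = sus 3 (sus 3 (psi G')) = suspA 3 (psi G') (psi_insr, sus_sus), HCH.ext of it = suspA 3 (ext (psi G')) (ext_suspA): induction hypothesis for N - 1, r - 1 over AlgebraicClosure (RatFunc K)
  (closure_equiv), (N - 1) + 1 - i = e; SgLe by sg_psi G' and sg_ext.
- ht: low_tors for lq_rhoT t, n = N + 1, r ↦ r + 1 (2 i + (r + 1) + 1 ≤ N + 1), rho V = insr 3 (insr 3 (rhoT t G')) (rhoT_insr gives sus 3 (rhoT t (insr 3 G')), = sus 3 (sus 3 (rhoT t G')) = suspA 3 (rhoT t G')): QH: qh_suspA, qh_of_homog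
  (rhoT_homog); CritLe: critle_suspA, critle_of_sg, sg_rhoT. V prime, dm = N + 1: prime_of_crit V (qh_insr, critle_insr, critle_of_sg), r + 3 ≤ N + 2. dm P = e + 1 = N + 1 - i = n - i.
- hI: the same with lq_rhoI: rhoI V = insr 3 (insr 3 (rhoI G')) (rhoI_insr), SgLe (rhoI G') (r + 1) by sg_rhoI.
-/
theorem alpha2 (i : ℕ) (hi : 1 ≤ i)
    (hlow : 2 ≤ i → ∀ (K : Type) [Field K], Nonempty (K ≃+* ℂ) → HCW K (i - 1))
    (hcrit : ∀ (K : Type) [Field K], Nonempty (K ≃+* ℂ) → GC K) (d : ℕ) (hd : 2 ≤ d) :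
    ∀ N r, 2 * i + r + 1 ≤ N → ∀ (K : Type) [Field K], Nonempty (K ≃+* ℂ) →
      ∀ G : MvPolynomial (Fin N) K, G.IsHomogeneous d → SgLe G r →
      AT K (suspA 3 G) (N + 1 - i) := by
  intro N
  induction N with
  | zero => intro r hN; omega
  | succ N ih =>
    intro r hN K _ ε G hG h
    by_cases hcase : N + 1 = 2 * i + 1
    · have hr : r = 0 := by omega
      subst hr
      have h1 := alpha_base i hi ε (fun h => hlow h K ε) (hcrit K ε) (N + 1) hcase G
        (qh_of_homog (by omega) G hG) (low2_of_homog hd G hG) (fun x hx => smooth_of_sg G hG h x hx)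
      have h2 : N + 1 + 1 - i = i + 2 := by omega
      rw [h2]
      exact h1
    · obtain ⟨N, rfl⟩ : ∃ N'', N = N'' + 2 := ⟨N - 2, by omega⟩
      have c0 := charZero_of_equiv ε
      have ac := algClosed_of_equiv ε
      obtain ⟨hp, hdm⟩ := prime_of_sg G hG (by omega) r h (by omega)
      obtain ⟨a, ha⟩ := good_coord G hG hd hp hdm r h
      apply AT_phi2 a
      have hG' := phi_homog a G hG
      have h' := sg_phi a G r h
      rw [← AT_insr2]
      have hVQ : QH (insr 3 (insr 3 (phi a G))) :=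
        qh_insr _ (qh_insr _ (qh_of_homog (by omega) _ hG'))
      have hVC : CritLe (insr 3 (insr 3 (phi a G))) r :=
        critle_insr _ r (critle_insr _ r (critle_of_sg _ hG' r h'))
      obtain ⟨hVp, hVd⟩ := prime_of_crit _ hVQ r hVC (by omega)
      have he : N + 2 + 1 + 1 - i = (N + 3 - i) + 1 := by omega
      rw [he]
      refine cone_AT (m := N + 3) (insr 3 (insr 3 (phi a G))) (N + 3 - i) ?_ ?_ ?_
      · intro P hP hdP hl
        have h1 : rhoI (insr 3 (insr 3 (phi a G))) = insr 3 (insr 3 (rhoI (phi a G))) := by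
          rw [rhoI_insr, rhoI_insr]
        have h2 : N + 3 - i + 1 = N + 4 - i := by omega
        rw [h2] at hdP ⊢
        refine low_tors (n := N + 4) lq_rhoI (insr 3 (insr 3 (phi a G))) i (r + 1) hi
          (fun h => hlow h K ε) (by omega) ?_ ?_ hVp hVd P hP hl hdP
        · rw [h1]
          exact qh_insr _ (qh_insr _ (qh_of_homog (by omega) _ (rhoI_homog _ hG')))
        · rw [h1]
          exact critle_insr _ _ (critle_insr _ _ (critle_of_sg _ (rhoI_homog _ hG') _
            (sg_rhoI _ hG' hd r h')))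
      · intro t P hP hdP hl
        have h1 : rhoT t (insr 3 (insr 3 (phi a G))) = suspA 3 (rhoT t (phi a G)) := by
          rw [rhoT_insr, rhoT_insr, sus_sus]
        have h2 : N + 3 - i + 1 = N + 4 - i := by omega
        rw [h2] at hdP ⊢
        refine low_tors (n := N + 4) (lq_rhoT t) (insr 3 (insr 3 (phi a G))) i (r + 1) hi
          (fun h => hlow h K ε) (by omega) ?_ ?_ hVp hVd P hP hl hdP
        · rw [h1]
          exact qh_suspA _ (qh_of_homog (by omega) _ (rhoT_homog t _ hG'))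
        · rw [h1]
          exact critle_suspA _ _ (critle_of_sg _ (rhoT_homog t _ hG') _ (sg_rhoT t _ hG' hd r h'))
      · have e1 := sg_psi (phi a G) hG' hd r h' ha
        have e2 := sg_ext (E := AlgebraicClosure (RatFunc K)) (psi (phi a G)) (r - 1) e1
        have e3 : HCH.ext (RatFunc K) (AlgebraicClosure (RatFunc K)) (N + 3 + 1)
            (psi (insr 3 (insr 3 (phi a G)))) =
            suspA 3 (HCH.ext (RatFunc K) (AlgebraicClosure (RatFunc K)) (N + 2) (psi (phi a G))) := by
          rw [psi_insr, psi_insr, sus_sus, ext_suspA]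
        rw [e3]
        exact ih (r - 1) (by omega) _ (closure_equiv ε) _ (e6_ext_homog _ _ (psi_homog _ hG')) e2

end Pool.Agent.HCT
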