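import Pool.Agent.HCT.A0
import Pool.Agent.HCT.A1
import Pool.Agent.HCT.P3

namespace Pool.Agent.HCT

open Pool.Agent.HCH Pool.Agent.HCF Pool.Agent.HCR MvPolynomial

/-
PROOF. The same as alpha2 (A2.lean) with one more cube: read A2.lean and HCR/E2d.lean first. Induction on N. N = 2 i: r = 0, alpha_base for sus 3 G : Fin (N + 1) (qh_sus, low2_sus, iso_sus, Iso G by HCH.smooth_of_sg).
Otherwise r + 3 ≤ N, N = N₀ + 3. prime_of_sg G, good_coord G: a; AT_phi3 a; G' = phi a G. AT_insr3: V = insr 3 (insr 3 (insr 3 G')) : Fin (N₀ + 6) (= N + 3 variables). cone_AT with e = N + 1 - i: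
- hg: psi V = sus 3 (sus 3 (sus 3 (psi G'))) = suspA 3 (sus 3 (psi G')) (psi_insr, sus_sus; ext_suspA, ext_sus): induction hypothesis for N - 1, r - 1 over AlgebraicClosure (RatFunc K) (closure_equiv),
  (N - 1) + 2 - i = e; the side conditions: 2 i + (r - 1) ≤ N - 1 and ((r - 1) + 3 ≤ N - 1 or N - 1 = 2 i) (omega: N ≠ 2 i; if r = 0 and N = 3 then i = 1, N - 1 = 2 i). SgLe by sg_psi, sg_ext.
- ht: low_tors for lq_rhoT t, n = N + 2, r ↦ r + 1 (2 i + (r + 1) + 1 ≤ N + 2), rho V = suspA 3 (sus 3 (rhoT t G')) (rhoT_insr, sus_sus); QH, CritLe by qh_suspA, qh_sus, critle_suspA, critle_sus, critle_of_sg, sg_rhoT.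
  V prime, dm = N + 2: prime_of_crit V, r + 3 ≤ N + 3. dm P = e + 1 = N + 2 - i = n - i.
- hI: the same with lq_rhoI: rhoI V = insr 3 (insr 3 (insr 3 (rhoI G'))) (rhoI_insr), SgLe (rhoI G') (r + 1) by sg_rhoI.
-/
theorem alpha3 (i : ℕ) (hi : 1 ≤ i)
    (hlow : 2 ≤ i → ∀ (K : Type) [Field K], Nonempty (K ≃+* ℂ) → HCW K (i - 1))
    (hcrit : ∀ (K : Type) [Field K], Nonempty (K ≃+* ℂ) → GC K) (d : ℕ) (hd : 2 ≤ d) :
    ∀ N r, 2 * i + r ≤ N → (r + 3 ≤ N ∨ N = 2 * i) → ∀ (K : Type) [Field K],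
      Nonempty (K ≃+* ℂ) → ∀ G : MvPolynomial (Fin N) K, G.IsHomogeneous d → SgLe G r →
      AT K (suspA 3 (sus 3 G)) (N + 2 - i) := by
  intro N
  induction N with
  | zero => intro r hN; omega
  | succ N ih =>
    intro r hN hN' K _ ε G hG h
    have c0 := charZero_of_equiv ε
    have ac := algClosed_of_equiv ε
    by_cases hcase : N + 1 = 2 * i
    · have hr : r = 0 := by omega
      subst hr
      have h1 := alpha_base i hi ε (fun h => hlow h K ε) (hcrit K ε) (N + 1 + 1) (by omega) (sus 3 G)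
        (qh_sus _ (qh_of_homog (by omega) G hG)) (low2_sus _ (low2_of_homog hd G hG))
        (iso_sus _ (fun x hx => smooth_of_sg G hG h x hx))
      have h2 : N + 1 + 2 - i = i + 2 := by omega
      rw [h2]
      exact h1
    · have hr3 : r + 3 ≤ N + 1 := by omega
      obtain ⟨N, rfl⟩ : ∃ N'', N = N'' + 2 := ⟨N - 2, by omega⟩
      obtain ⟨hp, hdm⟩ := prime_of_sg G hG (by omega) r h (by omega)
      obtain ⟨a, ha⟩ := good_coord G hG hd hp hdm r h
      apply AT_phi3 a
      have hG' := phi_homog a G hG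
      have h' := sg_phi a G r h
      rw [← AT_insr3]
      have hVQ : QH (insr 3 (insr 3 (insr 3 (phi a G)))) :=
        qh_insr _ (qh_insr _ (qh_insr _ (qh_of_homog (by omega) _ hG')))
      have hVC : CritLe (insr 3 (insr 3 (insr 3 (phi a G)))) r :=
        critle_insr _ r (critle_insr _ r (critle_insr _ r (critle_of_sg _ hG' r h')))
      obtain ⟨hVp, hVd⟩ := prime_of_crit _ hVQ r hVC (by omega)
      have he : N + 2 + 1 + 2 - i = (N + 4 - i) + 1 := by omega
      rw [he]
      refine cone_AT (m := N + 4) (insr 3 (insr 3 (insr 3 (phi a G)))) (N + 4 - i) ?_ ?_ ?_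
      · intro P hP hdP hl
        have h1 : rhoI (insr 3 (insr 3 (insr 3 (phi a G)))) =
            insr 3 (insr 3 (insr 3 (rhoI (phi a G)))) := by
          rw [rhoI_insr, rhoI_insr, rhoI_insr]
        have h2 : N + 4 - i + 1 = N + 5 - i := by omega
        rw [h2] at hdP ⊢
        refine low_tors (n := N + 5) lq_rhoI (insr 3 (insr 3 (insr 3 (phi a G)))) i (r + 1) hi
          (fun h => hlow h K ε) (by omega) ?_ ?_ hVp hVd P hP hl hdP
        · rw [h1]
          exact qh_insr _ (qh_insr _ (qh_insr _ (qh_of_homog (by omega) _ (rhoI_homog _ hG'))))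
        · rw [h1]
          exact critle_insr _ _ (critle_insr _ _ (critle_insr _ _ (critle_of_sg _
            (rhoI_homog _ hG') _ (sg_rhoI _ hG' hd r h'))))
      · intro t P hP hdP hl
        have h1 : rhoT t (insr 3 (insr 3 (insr 3 (phi a G)))) =
            suspA 3 (sus 3 (rhoT t (phi a G))) := by
          rw [rhoT_insr, rhoT_insr, rhoT_insr, sus_sus]
        have h2 : N + 4 - i + 1 = N + 5 - i := by omega
        rw [h2] at hdP ⊢
        refine low_tors (n := N + 5) (lq_rhoT t) (insr 3 (insr 3 (insr 3 (phi a G)))) i (r + 1) hi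
          (fun h => hlow h K ε) (by omega) ?_ ?_ hVp hVd P hP hl hdP
        · rw [h1]
          exact qh_suspA _ (qh_sus _ (qh_of_homog (by omega) _ (rhoT_homog t _ hG')))
        · rw [h1]
          exact critle_suspA _ _ (critle_sus _ _ (critle_of_sg _ (rhoT_homog t _ hG') _
            (sg_rhoT t _ hG' hd r h')))
      · have e1 := sg_psi (phi a G) hG' hd r h' ha
        have e2 := sg_ext (E := AlgebraicClosure (RatFunc K)) (psi (phi a G)) (r - 1) e1
        have e3 : HCH.ext (RatFunc K) (AlgebraicClosure (RatFunc K)) (N + 4 + 1)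
            (psi (insr 3 (insr 3 (insr 3 (phi a G))))) = suspA 3 (sus 3
              (HCH.ext (RatFunc K) (AlgebraicClosure (RatFunc K)) (N + 2) (psi (phi a G)))) := by
          rw [psi_insr, psi_insr, psi_insr, sus_sus, ext_suspA, ext_sus]
        rw [e3]
        exact ih (r - 1) (by omega) (by omega) _ (closure_equiv ε) _
          (e6_ext_homog _ _ (psi_homog _ hG')) e2

end Pool.Agent.HCT
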