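import Pool.Agent.HCT.L3
import Pool.Agent.HCT.L4

namespace Pool.Agent.HCT

open Pool.Agent.HCH Pool.Agent.HCF Pool.Agent.HCR MvPolynomial

/-
PROOF. As HCR/E2f.lean (beta_generic), without deh. L = AlgebraicClosure (RatFunc K), Fe = ext (RatFunc K) L (psi F) : Fin (2 i + 2), homogeneous, SgLe Fe 0 (sg_psi, sg_ext).
hcrit L for G = sus 3 Fe (n = 2 i + 3, e = i + 3; qh_sus, low2_sus, iso_sus, Iso Fe by HCH.smooth_of_sg): Gen L (suspA 3 (sus 3 Fe)) (i + 3) (MemP 0 1). halpha for Fe (N = 2 i + 2, r = 0): AT L (suspA 3 Fe) (i + 3), suspA 3 Fe =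
sus 3 (sus 3 Fe) (sus_sus). gen_special 3 (sus 3 Fe) (i + 3). ext_sus, ext_suspA: it is the extension of suspA 3 (sus 3 (psi F)); gen_descend; the rest as in E2f.
-/
theorem beta_generic' (i : ℕ) (hi : 1 ≤ i) (d : ℕ) (hd : 2 ≤ d)
    (halpha : ∀ N r, 2 * i + r + 1 ≤ N → ∀ (K : Type) [Field K], Nonempty (K ≃+* ℂ) →
      ∀ G : MvPolynomial (Fin N) K, G.IsHomogeneous d → SgLe G r → AT K (suspA 3 G) (N + 1 - i))
    (hcrit : ∀ (K : Type) [Field K], Nonempty (K ≃+* ℂ) → GC K) {K : Type} [Field K]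
    (ε : Nonempty (K ≃+* ℂ)) (F : MvPolynomial (Fin (2 * i + 3)) K) (hF : F.IsHomogeneous d)
    (hs : SgLe F 0) (hI : SgLe (rhoI F) 0) :
    Gen (RatFunc K) (suspA 3 (sus 3 (psi F))) (i + 3)
      (fun q => ∃ η : K, η ^ 3 = -1 ∧
        X 0 - C (algebraMap K (RatFunc K) η) * X 1 ∈ q.asIdeal) := by
  obtain ⟨e⟩ := ε
  have c0 : CharZero K := charZero_of_injective_ringHom (f := (e.symm : ℂ →+* K)) e.symm.injective
  have hac : IsAlgClosed K := IsAlgClosed.of_ringEquiv ℂ K e.symm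
  have cR : CharZero (RatFunc K) := charZero_of_injective_algebraMap (algebraMap K _).injective
  set L := AlgebraicClosure (RatFunc K) with hL
  have εL : Nonempty (L ≃+* ℂ) := closure_equiv ⟨e⟩
  have cL : CharZero L := charZero_of_equiv εL
  set Fe : MvPolynomial (Fin (2 * i + 2)) L := HCH.ext (RatFunc K) L (2 * i + 2) (psi F) with hFe
  have hFeh : Fe.IsHomogeneous d := by
    rw [hFe]
    exact e6_ext_homog _ _ (psi_homog F hF)
  have hFes : SgLe Fe 0 := by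
    rw [hFe]
    exact sg_ext (psi F) 0 (sg_psi (m := 2 * i) F hF (by omega) 0 hs hI)
  have h1 : Gen L (suspA 3 (sus 3 Fe)) (i + 3) (MemP 0 1) :=
    hcrit L εL (2 * i + 2 + 1) (i + 3) (by omega) (by omega) (sus 3 Fe)
      (qh_sus _ (qh_of_homog (by omega) _ hFeh)) (low2_sus _ (low2_of_homog hd _ hFeh))
      (iso_sus _ (fun x hx => smooth_of_sg Fe hFeh hFes x hx))
  have h2 : AT L (sus 3 (sus 3 Fe)) (i + 3) := by
    have h3 := halpha (2 * i + 2) 0 (by omega) L εL Fe hFeh hFes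
    rw [← sus_sus] at h3
    have h4 : 2 * i + 2 + 1 - i = i + 3 := by omega
    rw [h4] at h3
    exact h3
  have h5 := gen_special 3 (by omega) (sus 3 Fe) (i + 3) h1 h2
  rw [hFe, ← ext_sus, ← ext_suspA] at h5
  have h6 := gen_descend _ _ _ h5
  refine h6.mono ?_
  rintro q - - ⟨Q, rfl, x, hx, hxQ⟩
  obtain ⟨η, hη, hηx⟩ := E2f_mem_range (K := K) 3 (by omega) x hx
  refine ⟨η, hη, ?_⟩
  change HCH.ext (RatFunc K) L (2 * i + 2 + 1 + 2) (X 0 - C (algebraMap K (RatFunc K) η) * X 1) ∈ Q.asIdeal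
  have h7 : HCH.ext (RatFunc K) L (2 * i + 2 + 1 + 2) (X 0 - C (algebraMap K (RatFunc K) η) * X 1) =
      X 0 - C x * X 1 := by
    unfold HCH.ext
    rw [map_sub, map_mul, map_X, map_X, map_C, ← IsScalarTower.algebraMap_apply, hηx]
  rw [h7]
  exact hxQ

end Pool.Agent.HCT
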