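import Pool.Agent.HCT.A1
import Pool.Agent.HCT.B1
import Pool.Agent.HCT.P3

namespace Pool.Agent.HCT

open Pool.Agent.HCH Pool.Agent.HCF Pool.Agent.HCR MvPolynomial

/-
PROOF. As HCR/E2g.lean (beta), on cones. W = insr 3 (insr 3 (insr 3 F)) : Fin (2 i + 4 + 2). psi W = sus 3 (sus 3 (sus 3 (psi F))) = suspA 3 (sus 3 (psi F)) (psi_insr, sus_sus). cone_gen for W, e = i + 3:
- hg: beta_generic'.
- ht: P ∋ X 0 - C t * X last, dm P = i + 4: rhoT t W = suspA 3 (sus 3 (rhoT t F)) (rhoT_insr, sus_sus), AT K (..) (i + 4) by halpha3 (N = 2 i + 2, r = 1, sg_rhoT), AT.push for rhoT t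
  (lq_surj, ker = span {X 0 - C t * X last}, lq_rhoT t) gives Tor.
- hI: P ∋ X last: rhoI W = insr 3 (insr 3 (insr 3 (rhoI F))) (rhoI_insr); AT K (suspA 3 (sus 3 (rhoI F))) (i + 4) by halpha3 (N = 2 i + 2, r = 0, hI), AT_insr3, AT.push for rhoI (lq_rhoI).
So Gen K W (i + 4) (∃ q, comap psiR q = P ∧ ..), hence Gen K W (i + 4) (∃ η, η ^ 3 = -1 ∧ X 1 - C η * X 2 ∈ P) (psiR (X 1 - C η * X 2) = X 0 - C η * X 1), and the renaming Fin.cycleRange 3 as at the end of HCR/E2g.lean.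
-/
theorem beta' (i : ℕ) (hi : 1 ≤ i) (d : ℕ) (hd : 2 ≤ d)
    (halpha : ∀ N r, 2 * i + r + 1 ≤ N → ∀ (K : Type) [Field K], Nonempty (K ≃+* ℂ) →
      ∀ G : MvPolynomial (Fin N) K, G.IsHomogeneous d → SgLe G r → AT K (suspA 3 G) (N + 1 - i))
    (halpha3 : ∀ N r, 2 * i + r ≤ N → (r + 3 ≤ N ∨ N = 2 * i) → ∀ (K : Type) [Field K],
      Nonempty (K ≃+* ℂ) → ∀ G : MvPolynomial (Fin N) K, G.IsHomogeneous d → SgLe G r →
      AT K (suspA 3 (sus 3 G)) (N + 2 - i))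
    (hcrit : ∀ (K : Type) [Field K], Nonempty (K ≃+* ℂ) → GC K) {K : Type} [Field K]
    (ε : Nonempty (K ≃+* ℂ)) (F : MvPolynomial (Fin (2 * i + 3)) K) (hF : F.IsHomogeneous d)
    (hs : SgLe F 0) (hI : SgLe (rhoI F) 0) :
    Gen K (suspA 3 (sus 3 F)) (i + 4) (SpP 3 0 1) := by
  have c0 := charZero_of_equiv ε
  have ac := algClosed_of_equiv ε
  set W : MvPolynomial (Fin (2 * i + 4 + 2)) K := insr 3 (insr 3 (insr 3 F)) with hW
  have hpsi : psi W = suspA 3 (sus 3 (psi F)) := by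
    rw [hW, psi_insr, psi_insr, psi_insr, sus_sus]
  have hgen : Gen K W (i + 3 + 1) (fun P => ∃ q, PrimeSpectrum.comap (psiR K (2 * i + 4)) q = P ∧
      ∃ η : K, η ^ 3 = -1 ∧ X 0 - C (algebraMap K (RatFunc K) η) * X 1 ∈ q.asIdeal) := by
    refine cone_gen (m := 2 * i + 4) W (i + 3) _ ?_ ?_ ?_
    · intro P hP hdP hl
      have h1 : rhoI W = insr 3 (insr 3 (insr 3 (rhoI F))) := by
        rw [hW, rhoI_insr, rhoI_insr, rhoI_insr]
      have h2 : AT K (rhoI W) (i + 3 + 1) := by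
        rw [h1, AT_insr3]
        have h3 := halpha3 (2 * i + 2) 0 (by omega) (by omega) K ε (rhoI F) (rhoI_homog _ hF) hI
        have h4 : 2 * i + 2 + 2 - i = i + 3 + 1 := by omega
        rwa [h4] at h3
      refine AT.push rhoI (lq_surj lq_rhoI) h2 P hP ?_ hdP
      rw [lq_rhoI.ker, Ideal.span_singleton_le_iff_mem]
      exact hl
    · intro t P hP hdP hl
      have h1 : rhoT t W = suspA 3 (sus 3 (rhoT t F)) := by
        rw [hW, rhoT_insr, rhoT_insr, rhoT_insr, sus_sus]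
      have h2 : AT K (rhoT t W) (i + 3 + 1) := by
        rw [h1]
        have h3 := halpha3 (2 * i + 2) 1 (by omega) (by omega) K ε (rhoT t F) (rhoT_homog t _ hF)
          (sg_rhoT t _ hF hd 0 hs)
        have h4 : 2 * i + 2 + 2 - i = i + 3 + 1 := by omega
        rwa [h4] at h3
      refine AT.push (rhoT t) (lq_surj (lq_rhoT t)) h2 P hP ?_ hdP
      rw [(lq_rhoT t).ker, Ideal.span_singleton_le_iff_mem]
      exact hl
    · rw [hpsi]
      exact beta_generic' i hi d hd halpha hcrit ε F hF hs hI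
  have hgen2 : Gen K W (i + 4) (fun P => ∃ η : K, η ^ 3 = -1 ∧ X 1 - C η * X 2 ∈ P.asIdeal) := by
    refine hgen.mono ?_
    rintro P - - ⟨q, rfl, η, hη, hq⟩
    refine ⟨η, hη, ?_⟩
    rw [PrimeSpectrum.comap_asIdeal, Ideal.mem_comap]
    have h1 : psiR K (2 * i + 4) (X 1 - C η * X 2) = X 0 - C (algebraMap K (RatFunc K) η) * X 1 := by
      show psi (X 1 - C η * X 2) = _
      unfold psi
      rw [map_sub, map_mul, aeval_X, aeval_X, aeval_C]
      rfl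
    rw [h1]
    exact hq
  set σ : Fin (2 * i + 2 + 4) ≃ Fin (2 * i + 2 + 4) := Fin.cycleRange (3 : Fin (2 * i + 2 + 4)) with hσ
  have hφ : renameEquiv K σ (suspA 3 (sus 3 F)) = W := E2g_rename 3 F
  have hgen3 := Gen.equiv (f := suspA 3 (sus 3 F)) (e := i + 4) (renameEquiv K σ)
    (S' := fun P => ∃ η : K, η ^ 3 = -1 ∧ X 1 - C η * X 2 ∈ P.asIdeal) (by rw [hφ]; exact hgen2)
  refine hgen3.mono ?_
  rintro P - - ⟨q, rfl, η, hη, hq⟩
  refine ⟨η, hη, ?_⟩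
  rw [PrimeSpectrum.comap_asIdeal, Ideal.mem_comap]
  have e0 : σ 0 = 1 := by
    apply Fin.ext
    rw [hσ, E2g_clt _ (by simp)]
    rfl
  have e1 : σ 1 = 2 := by
    apply Fin.ext
    rw [hσ, E2g_clt _ (by simp)]
    rfl
  have h1 : (((renameEquiv K σ : MvPolynomial (Fin (2 * i + 2 + 4)) K ≃ₐ[K] _) :
      MvPolynomial (Fin (2 * i + 2 + 4)) K →ₐ[K] MvPolynomial (Fin (2 * i + 2 + 4)) K) :
      MvPolynomial (Fin (2 * i + 2 + 4)) K →+* MvPolynomial (Fin (2 * i + 2 + 4)) K) (X 0 - C η * X 1) =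
      X 1 - C η * X 2 := by
    show rename σ (X 0 - C η * X 1) = _
    rw [map_sub, map_mul, rename_X, rename_X, rename_C, e0, e1]
  rw [h1]
  exact hq

end Pool.Agent.HCT
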