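import Pool.Agent.HCR.Z1

/-!
Definitions for the normal form and the rigidity criterion in all degrees: Hartshorne's conjecture on
Chow groups of hypersurfaces of all degrees is equivalent to a vanishing for quasi-homogeneous sums of
products of three variables and a quadratic form, and to the rigidity of cycles along the elliptic
curve `s ^ 3 + t ^ 3 + 1 = 0`.
-/

namespace Pool.Agent.HCT

open Pool.Agent.HCH Pool.Agent.HCF Pool.Agent.HCR MvPolynomial

section General

variable {K : Type} [Field K] {m : ℕ}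

/-- `f₀ + x B + y (x - p)`, with two new variables `x`, `y` in the first two places. -/
noncomputable def unsub (f₀ B p : MvPolynomial (Fin m) K) : MvPolynomial (Fin (m + 2)) K :=
  rename (Fin.succ ∘ Fin.succ) f₀ + X 0 * rename (Fin.succ ∘ Fin.succ) B +
    X 1 * (X 0 - rename (Fin.succ ∘ Fin.succ) p)

/-- The critical locus of `f` has dimension at most `r`. -/
def CritLe (f : MvPolynomial (Fin m) K) (r : ℕ) : Prop :=
  ∀ P : PrimeSpectrum (MvPolynomial (Fin m) K), (∀ k, pderiv k f ∈ P.asIdeal) → dm K P.asIdeal ≤ r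

/-- The only critical point of `f` is the origin. -/
def Iso (f : MvPolynomial (Fin m) K) : Prop :=
  ∀ x : Fin m → K, (∀ k, eval x (pderiv k f) = 0) → x = 0

/-- `f` is quasi-homogeneous of positive degree for some positive integral weights. -/
def QH (f : MvPolynomial (Fin m) K) : Prop :=
  ∃ (w : Fin m → ℕ) (d : ℕ), (∀ k, 0 < w k) ∧ 0 < d ∧ IsWeightedHomogeneous w f d

/-- All monomials of `f` have degree at least `2`. -/
def Low2 (f : MvPolynomial (Fin m) K) : Prop := ∀ s ∈ f.support, 2 ≤ s.degree

/-- `f` is a sum of products of three variables, in which no variable occurs twice, and of a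
quadratic form. -/
def NF (f : MvPolynomial (Fin m) K) : Prop :=
  ∃ (M : ℕ) (v : Fin M × Fin 3 → Fin m) (q : MvPolynomial (Fin m) K), Function.Injective v ∧
    q.IsHomogeneous 2 ∧ f = (∑ k, X (v (k, 0)) * X (v (k, 1)) * X (v (k, 2))) + q

/-- The weighted Hartshorne statement in codimension `c`. -/
def HCW (K : Type) [Field K] (c : ℕ) : Prop :=
  ∀ N r, 2 * c + r + 3 ≤ N → ∀ G : MvPolynomial (Fin N) K, QH G → CritLe G r → AT K G (N - 1 - c)

/-- The support statement in the critical dimension over `K`. -/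
def GC (K : Type) [Field K] : Prop :=
  ∀ n e, 2 * e = n + 3 → 3 ≤ e → ∀ G : MvPolynomial (Fin n) K, QH G → Low2 G → Iso G →
    Gen K (suspA 3 G) e (MemP 0 1)

/-- The cycle of `P` is torsion in the Chow group of cycles of dimension `e` of `V(f)`. -/
def Tor (f : MvPolynomial (Fin m) K) (e : ℕ) (P : PrimeSpectrum (MvPolynomial (Fin m) K)) : Prop :=
  ∃ N : ℕ, 0 < N ∧ (N : ℤ) • Finsupp.single P (1 : ℤ) ∈ Rt K (Ideal.span {f}) e

/-- The product of the variables in the list. -/
noncomputable def mon (l : List (Fin m)) : MvPolynomial (Fin m) K := (l.map X).prod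

/-- `f` is the sum of a normal form and of the monomials in the list `U`, with weights. -/
structure St (w : Fin m → ℕ) (d : ℕ) (U : List (K × List (Fin m))) (f : MvPolynomial (Fin m) K) :
    Prop where
  ex : ∃ (M : ℕ) (v : Fin M × Fin 3 → Fin m) (q : MvPolynomial (Fin m) K), Function.Injective v ∧
    q.IsHomogeneous 2 ∧ IsWeightedHomogeneous w q d ∧
    (∀ k, w (v (k, 0)) + w (v (k, 1)) + w (v (k, 2)) = d) ∧
    f = (∑ k, X (v (k, 0)) * X (v (k, 1)) * X (v (k, 2))) + q +
      (U.map fun u => C u.1 * mon u.2).sum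
  pos : ∀ k, 0 < w k
  two : 2 ≤ d
  wU : ∀ u ∈ U, (u.2.map w).sum = d
  lU : ∀ u ∈ U, 3 ≤ u.2.length

/-- The measure of the list of the remaining monomials. -/
def mu (U : List (K × List (Fin m))) : ℕ := (U.map fun u => u.2.length - 2).sum

end General

/-- The base change of the affine hypersurface `V(f)` to the function field of the elliptic curve
`s ^ 3 + t ^ 3 + 1 = 0` is surjective on the rational Chow groups of cycles of dimension `e`. -/
def Rig {n : ℕ} (f : MvPolynomial (Fin n) ℂ) (e : ℕ) : Prop :=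
  Gen (FF 3) (HCH.ext ℂ (FF 3) n f) e
    (fun Q => ∃ p : PrimeSpectrum (MvPolynomial (Fin n) ℂ), f ∈ p.asIdeal ∧ Q = bc (FF 3) p)

/-- A family of properties which descends along `unsub`, in at least `n₀` variables. -/
def Stb (n₀ : ℕ) (P : ∀ n : ℕ, MvPolynomial (Fin n) ℂ → Prop) : Prop :=
  ∀ (n : ℕ) (f₀ B p : MvPolynomial (Fin n) ℂ), n₀ ≤ n → P (n + 2) (unsub f₀ B p) →
    P n (f₀ + p * B)

/-- The substitution of the form `∑ b, A j b * x_b ^ (w j)` for the variable `x_j`. -/
noncomputable def wsub {m : ℕ} (w : Fin m → ℕ) (A : Matrix (Fin m) (Fin m) ℂ) :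
    MvPolynomial (Fin m) ℂ →ₐ[ℂ] MvPolynomial (Fin m) ℂ :=
  aeval fun j => ∑ b, C (A j b) * X b ^ w j

end Pool.Agent.HCT
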