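import Pool.Agent.HCT.C1

namespace Pool.Agent.HCT

open Pool.Agent.HCH Pool.Agent.HCF Pool.Agent.HCR MvPolynomial

theorem E1_closed : Closed (fun (K : Type) [Field K] (m : ℕ) (_ : MvPolynomial (Fin m) K) => True) := by
  intro K L _ _ _ m m' ε Ψ _ _ F _
  trivial

/-
PROOF. As the end of HCR/E2h.lean (crit_of_gen). HCH.main with Cl = True (fun _ _ _ _ => True) for the codimension i - 1 (from hlow): Hart for rhoI. prime_of_sg F, good_coord F (m = 2 i + 2): a with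
SgLe (rhoI (phi a F)) 0, hart_phi a, F' = phi a F (phi_homog, sg_phi). hAT F': AT ℂ F' (i + 2), cone_chart: AT ℂ (deh F') (i + 1); hart_of_affine (M = 2 i + 1), Hart (rhoI F') (i - 1) by the first step (M = 2 i, r = 0).
-/
theorem hart_step (d : ℕ) (hd : 2 ≤ d) (i : ℕ) (hi : 1 ≤ i)
    (hlow : ∀ j, 1 ≤ j → j < i → ∀ F : MvPolynomial (Fin (2 * j + 3)) ℂ, F.IsHomogeneous d →
      SgLe F 0 → Hart F j)
    (hAT : ∀ F : MvPolynomial (Fin (2 * i + 3)) ℂ, F.IsHomogeneous d → SgLe F 0 →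
      AT ℂ F (i + 2)) :
    ∀ F : MvPolynomial (Fin (2 * i + 3)) ℂ, F.IsHomogeneous d → SgLe F 0 → Hart F i := by
  intro F hF hs
  have ε : Nonempty (ℂ ≃+* ℂ) := ⟨RingEquiv.refl ℂ⟩
  obtain ⟨hp, hdm⟩ := prime_of_sg F hF (by omega) 0 hs (by omega)
  obtain ⟨a, ha⟩ := good_coord (m := 2 * i + 2) F hF (by omega) hp hdm 0 hs
  apply hart_phi a
  have hF' := phi_homog a F hF
  have h' := sg_phi a F 0 hs
  obtain ⟨hp', hdm'⟩ := prime_of_sg (phi a F) hF' (by omega) 0 h' (by omega)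
  have hI : SgLe (rhoI (phi a F)) 0 := ha
  have hat : AT ℂ (deh (phi a F)) (i + 1) :=
    cone_chart (m := 2 * i + 2) (phi a F) hF' (i + 1) (hAT (phi a F) hF' h')
  refine hart_of_affine (M := 2 * i + 1) (phi a F) hF' hp' hdm' i hi (by omega) ?_ ?_
  · exact main E1_closed d (i - 1) (by omega)
      (fun j hj hji F _ hF hs => hlow j hj (by omega) F hF hs) (i - 1) le_rfl (2 * i) 0 (by omega)
      ℂ ε _ trivial (rhoI_homog _ hF') hI
  · have h2 : 2 * i + 1 - i = i + 1 := by omega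
    rw [h2]
    exact hat

/-- Hartshorne's conjecture in all degrees, in terms of Hart, for smooth forms in the critical dimensions. -/
def CritHC (i : ℕ) : Prop :=
  ∀ d, 2 ≤ d → ∀ F : MvPolynomial (Fin (2 * i + 3)) ℂ, F.IsHomogeneous d → SgLe F 0 → Hart F i

/-
PROOF. HCH.main with Cl = True; ct_of_hart, sg_of_smooth (see final4 in HCR/Z1.lean, hall).
-/
theorem hc_of_crit (h : ∀ i, 1 ≤ i → CritHC i) (d : ℕ) (hd : 2 ≤ d) (j n : ℕ) (hn : 2 * j < n)
    (F : MvPolynomial (Fin (n + 2)) ℂ) (hF : F.IsHomogeneous d) (hs : Smooth F) :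
    ChowTriv F j :=
  ct_of_hart F hF j (main E1_closed d j hd
    (fun j' hj' _ F' _ hF' hs' => h j' hj' d hd F' hF' hs') j le_rfl n 0 (by omega) ℂ
    ⟨RingEquiv.refl ℂ⟩ F trivial hF (sg_of_smooth F hs))

/-- hart_of_ct, smooth_of_sg -/
theorem crit_of_hc (h : ∀ d, 2 ≤ d → ∀ j n, 2 * j < n → ∀ F : MvPolynomial (Fin (n + 2)) ℂ,
    F.IsHomogeneous d → Smooth F → ChowTriv F j) (i : ℕ) : CritHC i := by
  intro d hd F hF hs
  exact hart_of_ct F i (h d hd i (2 * i + 1) (by omega) F hF (smooth_of_sg F hF hs))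

end Pool.Agent.HCT
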