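import Pool.Agent.HCT.Defs

namespace Pool.Agent.HCT

open Pool.Agent.HCH Pool.Agent.HCF Pool.Agent.HCR MvPolynomial

theorem W2_fin {R S : Type} [CommRing R] [CommRing S] (φ : R →+* S) (T : Finset S)
    (h : ∀ L : AddSubmonoid S, (∀ t ∈ T, t ∈ L) → (∀ r s, s ∈ L → φ r * s ∈ L) → ∀ s, s ∈ L) : φ.Finite := by
  let _ : Algebra R S := φ.toAlgebra
  refine ⟨T, ?_⟩
  rw [eq_top_iff]
  intro s _
  exact h (Submodule.span R (T : Set S)).toAddSubmonoid (fun t ht => Submodule.subset_span ht)
    (fun r s hs => Submodule.smul_mem _ r hs) s

theorem W2_hc {m a : ℕ} (p h : MvPolynomial (Fin m) ℂ) (hp : p.IsHomogeneous a) (n : ℕ) :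
    homogeneousComponent n (p * h) = if a ≤ n then p * homogeneousComponent (n - a) h else 0 := by
  have h1 : p * h = ∑ i ∈ Finset.range (h.totalDegree + 1), p * homogeneousComponent i h := by
    rw [← Finset.mul_sum, sum_homogeneousComponent]
  have h2 : ∀ i, homogeneousComponent n (p * homogeneousComponent i h) =
      if n = a + i then p * homogeneousComponent i h else 0 := fun i =>
    homogeneousComponent_of_mem (hp.mul (homogeneousComponent_isHomogeneous i h))
  rw [h1, map_sum, Finset.sum_congr rfl fun i _ => h2 i]
  split_ifs with ha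
  · rw [Finset.sum_eq_single (n - a)]
    · rw [if_pos (by omega)]
    · intro i _ hi
      rw [if_neg (by omega)]
    · intro hi
      rw [Finset.mem_range, not_lt] at hi
      rw [homogeneousComponent_eq_zero _ _ (by omega), mul_zero, ite_self]
  · apply Finset.sum_eq_zero
    intro i _
    rw [if_neg (by omega)]

theorem W2_homog {m : ℕ} (w : Fin m → ℕ) (A : Matrix (Fin m) (Fin m) ℂ) (j : Fin m) :
    (wsub w A (X j)).IsHomogeneous (w j) := by
  unfold wsub
  rw [aeval_X]
  apply IsHomogeneous.sum
  intro b _
  have h := (isHomogeneous_C (Fin m) (A j b)).mul ((isHomogeneous_X ℂ b).pow (w j))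
  rwa [zero_add, one_mul] at h

/-- A common power of the variables is a combination of the `φ_j` with homogeneous coefficients. -/
theorem W2_pow {m : ℕ} (w : Fin m → ℕ) (A : Matrix (Fin m) (Fin m) ℂ)
    (h : ∀ x : Fin m → ℂ, (∀ j, eval x (wsub w A (X j)) = 0) → x = 0) :
    ∃ c : ℕ, ∀ k : Fin m, ∃ g : Fin m → MvPolynomial (Fin m) ℂ,
      (X k : MvPolynomial (Fin m) ℂ) ^ c = ∑ j, wsub w A (X j) * g j ∧
      ∀ j, g j = 0 ∨ (w j ≤ c ∧ (g j).IsHomogeneous (c - w j)) := by
  obtain ⟨I, hI⟩ : ∃ I : Ideal (MvPolynomial (Fin m) ℂ), I = Ideal.span (Set.range fun j => wsub w A (X j)) := ⟨_, rfl⟩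
  have hX : ∀ k, ∃ c : ℕ, (X k : MvPolynomial (Fin m) ℂ) ^ c ∈ I := by
    intro k
    have h1 : (X k : MvPolynomial (Fin m) ℂ) ∈ I.radical := by
      rw [← vanishingIdeal_zeroLocus_eq_radical (K := ℂ) I, mem_vanishingIdeal_iff]
      intro x hx
      have h2 : x = 0 := h x fun j => by
        have h3 := hx _ (by rw [hI]; exact Ideal.subset_span ⟨j, rfl⟩ : wsub w A (X j) ∈ I)
        rwa [aeval_eq_eval] at h3
      rw [h2]
      simp
    exact h1
  choose c hc using hX
  refine ⟨∑ k, c k, fun k => ?_⟩
  have hk : (X k : MvPolynomial (Fin m) ℂ) ^ (∑ k, c k) ∈ I := by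
    have h1 : c k ≤ ∑ k, c k := Finset.single_le_sum (fun i _ => Nat.zero_le (c i)) (Finset.mem_univ k)
    obtain ⟨d, hd⟩ := Nat.exists_eq_add_of_le h1
    rw [hd, pow_add]
    exact I.mul_mem_right _ (hc k)
  obtain ⟨N, hN⟩ : ∃ N, N = ∑ k, c k := ⟨_, rfl⟩
  rw [← hN] at hk ⊢
  rw [hI] at hk
  obtain ⟨g, hg⟩ := (Ideal.mem_span_range_iff_exists_fun).1 hk
  refine ⟨fun j => if w j ≤ N then homogeneousComponent (N - w j) (g j) else 0, ?_, ?_⟩
  · have h1 : homogeneousComponent N ((X k : MvPolynomial (Fin m) ℂ) ^ N) = (X k) ^ N := by
      apply homogeneousComponent_eq_self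
      have h2 := (isHomogeneous_X ℂ k).pow N
      rwa [one_mul] at h2
    rw [← h1, ← hg, map_sum]
    refine Finset.sum_congr rfl fun j _ => ?_
    rw [mul_comm, W2_hc _ _ (W2_homog w A j)]
    by_cases h2 : w j ≤ N
    · simp only [h2, if_true]
    · simp only [h2, if_false, mul_zero]
  · intro j
    by_cases h1 : w j ≤ N
    · right
      refine ⟨h1, ?_⟩
      simp only [h1, if_true]
      exact homogeneousComponent_isHomogeneous _ _
    · left
      simp only [h1, if_false]

/-
PROOF. Write φ = wsub w A, φ_j = φ (X j), a form of degree w j > 0. I = Ideal.span (range φ_j). By the Nullstellensatz (vanishingIdeal_zeroLocus_eq_radical, as in HCH.sg_of_smooth) every X k is in the radical of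
I (its zero locus is contained in {0}): X k ^ c ∈ I for a common c ≥ 1. Let B = m * c + 1: a monomial of degree ≥ B has an exponent ≥ c, so it is in I. Module.Finite: MvPolynomial (Fin m) ℂ as a module over itself through φ is spanned by
the monomials of degree < B (finitely many: e.g. the finset of exponents with all values < B, Finset.finsupp or `Finset.pi`-type; a bigger finite set is fine). Claim: every form h of degree n is in this span L, by strong
induction on n. n < B: h is a sum of monomials of degree n with coefficients in ℂ ⊂ the ring. n ≥ B: h ∈ I, h = ∑ j, φ_j * h_j (Ideal.mem_span_range_iff_exists_fun), and taking the homogeneous components of degree n: h = ∑ j, φ_j * (component of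
degree n - w j of h_j, or 0 if w j > n) (homogeneousComponent of a product with a form: homogeneousComponent_of_mem / coeff, see Mathlib `MvPolynomial.homogeneousComponent_mul..` or prove it by decomposing h_j into its components), each
component has degree < n, is in L by induction, and φ_j * y = X j • y ∈ L. Every polynomial is the sum of its homogeneous components.
(Alternative: prove that every X k is integral over the range of φ.)
-/
theorem wsub_finite {m : ℕ} (w : Fin m → ℕ) (hw : ∀ k, 0 < w k) (A : Matrix (Fin m) (Fin m) ℂ)
    (h : ∀ x : Fin m → ℂ, (∀ j, eval x (wsub w A (X j)) = 0) → x = 0) :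
    (wsub w A : MvPolynomial (Fin m) ℂ →ₐ[ℂ] MvPolynomial (Fin m) ℂ).toRingHom.Finite := by
  obtain ⟨c, hc⟩ := W2_pow w A h
  choose g hg hgh using hc
  have hfin : {s : Fin m →₀ ℕ | s.degree ≤ m * c}.Finite := Finsupp.finite_of_degree_le (m * c)
  classical
  refine W2_fin _ (hfin.toFinset.image fun s => monomial s (1 : ℂ)) fun L hT hL s => ?_
  have hmon : ∀ (n : ℕ) (s : Fin m →₀ ℕ), s.degree = n → ∀ a : ℂ, monomial s a ∈ L := by
    intro n
    induction n using Nat.strong_induction_on with
    | _ n ih =>
      intro s hs a
      have ha : monomial s a = (wsub w A).toRingHom (C a) * monomial s 1 := by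
        have h1 : (wsub w A).toRingHom (C a) = C a := (wsub w A).commutes a
        rw [h1, C_mul_monomial, mul_one]
      rw [ha]
      apply hL
      by_cases hn : n ≤ m * c
      · apply hT
        rw [Finset.mem_image]
        exact ⟨s, by rw [Set.Finite.mem_toFinset]; exact hs.trans_le hn, rfl⟩
      · obtain ⟨k, hk⟩ : ∃ k, c ≤ s k := by
          by_contra hcon
          push Not at hcon
          apply hn
          rw [← hs, Finsupp.degree_eq_sum]
          calc ∑ i, s i ≤ ∑ _i : Fin m, c := Finset.sum_le_sum fun i _ => (hcon i).le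
            _ = m * c := by rw [Finset.sum_const, Finset.card_univ, Fintype.card_fin, smul_eq_mul]
        obtain ⟨s', hs'⟩ : ∃ s' : Fin m →₀ ℕ, s = Finsupp.single k c + s' := by
          refine ⟨s - Finsupp.single k c, ?_⟩
          rw [add_tsub_cancel_of_le]
          intro i
          rw [Finsupp.single_apply]
          split_ifs with hi
          · rw [← hi]
            exact hk
          · exact Nat.zero_le _
        have h1 : (monomial s (1 : ℂ)) = ∑ j, wsub w A (X j) * (g k j * monomial s' 1) := by
          have h2 : (monomial s (1 : ℂ)) = (X k) ^ c * monomial s' 1 := by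
            rw [X_pow_eq_monomial, monomial_mul, hs', one_mul]
          rw [h2, hg k, Finset.sum_mul]
          exact Finset.sum_congr rfl fun j _ => by ring
        rw [h1]
        apply sum_mem
        intro j _
        apply hL
        rcases hgh k j with h2 | ⟨h2, h3⟩
        · rw [h2, zero_mul]
          exact L.zero_mem
        · have hd : s'.degree + c = n := by
            rw [← hs, hs', map_add, Finsupp.degree_single]
            ring
          have h4 : (g k j * monomial s' 1).IsHomogeneous (n - w j) := by
            have h5 := h3.mul (isHomogeneous_monomial (1 : ℂ) (rfl : s'.degree = s'.degree))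
            have h6 : c - w j + s'.degree = n - w j := by omega
            rwa [h6] at h5
          rw [MvPolynomial.as_sum (g k j * monomial s' 1)]
          apply sum_mem
          intro t ht
          have h5 : t.degree = n - w j := by
            have h6 := h4 (mem_support_iff.1 ht)
            rw [← h6, Finsupp.degree_eq_weight_one]
            rfl
          have h6 := hw j
          exact ih (n - w j) (by omega) t h5 _
  rw [s.as_sum]
  exact sum_mem fun t _ => hmon _ t rfl _

end Pool.Agent.HCT
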