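import Pool.Agent.HCT.Defs

namespace Pool.Agent.HCT

open Pool.Agent.HCH Pool.Agent.HCF Pool.Agent.HCR MvPolynomial

/-
A finite endomorphism φ of a polynomial ring: dimensions and lying over.
PROOF. dm_un (HCF/U1, for the algebra structure φ.toRingHom.toAlgebra, un R P = comap φ P definitionally; the IsScalarTower instance as in HCR/U2e.lean (gen_finite)).
-/
theorem dm_fin {K : Type} [Field K] {m n : ℕ}
    (φ : MvPolynomial (Fin m) K →ₐ[K] MvPolynomial (Fin n) K) (hφ : φ.toRingHom.Finite)
    (P : PrimeSpectrum (MvPolynomial (Fin n) K)) :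
    dm K (PrimeSpectrum.comap φ.toRingHom P).asIdeal = dm K P.asIdeal := by
  let _ : Algebra (MvPolynomial (Fin m) K) (MvPolynomial (Fin n) K) := φ.toRingHom.toAlgebra
  have hsc : IsScalarTower K (MvPolynomial (Fin m) K) (MvPolynomial (Fin n) K) :=
    IsScalarTower.of_algebraMap_eq (fun x => (φ.commutes x).symm)
  have hfin : Module.Finite (MvPolynomial (Fin m) K) (MvPolynomial (Fin n) K) := hφ
  exact dm_un (K := K) (R := MvPolynomial (Fin m) K) P

/-
PROOF. φ is injective: comap φ ⊥ has dimension m by dm_fin and dm_bot, so it is ⊥ (dm_lt, dm_bot). Then lying over for the integral injective φ (Ideal.exists_ideal_over_prime_of_isIntegral or RingHom.IsIntegral versions; PrimeSpectrum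
comap surjective: `RingHom.IsIntegral.comap_surjective`).
-/
theorem lying_fin {K : Type} [Field K] {m : ℕ}
    (φ : MvPolynomial (Fin m) K →ₐ[K] MvPolynomial (Fin m) K) (hφ : φ.toRingHom.Finite)
    (p : PrimeSpectrum (MvPolynomial (Fin m) K)) :
    ∃ P, PrimeSpectrum.comap φ.toRingHom P = p := by
  have hker : RingHom.ker φ.toRingHom = ⊥ := by
    have h1 := dm_fin φ hφ ⟨⊥, Ideal.isPrime_bot⟩
    by_contra hne
    have h2 : (RingHom.ker φ.toRingHom).IsPrime := RingHom.ker_isPrime _
    have h3 := dm_lt (K := K) (⊥ : Ideal (MvPolynomial (Fin m) K)) (RingHom.ker φ.toRingHom)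
      (bot_lt_iff_ne_bot.2 hne)
    have h4 : (PrimeSpectrum.comap φ.toRingHom ⟨⊥, Ideal.isPrime_bot⟩).asIdeal = RingHom.ker φ.toRingHom := by
      rw [PrimeSpectrum.comap_asIdeal]
      rfl
    rw [h4] at h1
    rw [h1] at h3
    exact lt_irrefl _ h3
  have hinj : Function.Injective φ.toRingHom := (RingHom.injective_iff_ker_eq_bot _).2 hker
  exact RingHom.IsIntegral.comap_surjective hφ.to_isIntegral hinj p

theorem W3_dm_zero {K : Type} [Field K] {m : ℕ} (P : PrimeSpectrum (MvPolynomial (Fin m) K))
    (hX : ∀ k, (X k : MvPolynomial (Fin m) K) ∈ P.asIdeal) : dm K P.asIdeal = 0 := by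
  have hP := P.isPrime
  have hmem : ∀ f : MvPolynomial (Fin m) K, f - C (constantCoeff f) ∈ P.asIdeal := by
    intro f
    induction f using MvPolynomial.induction_on with
    | C a => simp
    | add p q hp hq =>
      have e : p + q - C (constantCoeff (p + q)) = (p - C (constantCoeff p)) + (q - C (constantCoeff q)) := by
        rw [map_add, C_add]
        ring
      rw [e]
      exact P.asIdeal.add_mem hp hq
    | mul_X p n hp =>
      have e : p * X n - C (constantCoeff (p * X n)) = p * X n := by
        rw [map_mul, constantCoeff_X, mul_zero, C_0, sub_zero]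
      rw [e]
      exact P.asIdeal.mul_mem_left _ (hX n)
  have halg : Algebra.IsAlgebraic K (MvPolynomial (Fin m) K ⧸ P.asIdeal) := by
    refine ⟨fun b => ?_⟩
    obtain ⟨f, rfl⟩ := Ideal.Quotient.mk_surjective b
    have h1 : Ideal.Quotient.mk P.asIdeal f =
        algebraMap K (MvPolynomial (Fin m) K ⧸ P.asIdeal) (constantCoeff f) :=
      Ideal.Quotient.eq.2 (hmem f)
    rw [h1]
    exact isAlgebraic_algebraMap _
  unfold dm
  rw [trdeg_eq_zero]
  simp

/-
PROOF. P a prime containing all pderiv k (φ G). If all X k ∈ P then dm P = 0 (the quotient is ℂ; see HCH/J1.lean, sg_of_smooth). Otherwise X k₀ ∉ P. For every a and k: X k * φ (pderiv a G) vanishes at all the points of the zero locus of P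
(at 0 because of X k, at x ≠ 0 by h), so it is in P (vanishingIdeal_zeroLocus_eq_radical, P prime, as in sg_of_smooth); with k = k₀: φ (pderiv a G) ∈ P. So the prime comap φ P contains all partials of G, its
dimension is ≤ r by hC and it is dm P by dm_fin.
-/
theorem crit_cover {m : ℕ} (φ : MvPolynomial (Fin m) ℂ →ₐ[ℂ] MvPolynomial (Fin m) ℂ)
    (hφ : φ.toRingHom.Finite) (G : MvPolynomial (Fin m) ℂ)
    (h : ∀ x : Fin m → ℂ, x ≠ 0 → (∀ k, eval x (pderiv k (φ G)) = 0) →
      ∀ a, eval x (φ (pderiv a G)) = 0) (r : ℕ) (hC : CritLe G r) : CritLe (φ G) r := by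
  intro P hd
  have hP := P.isPrime
  by_cases hX : ∀ k, (X k : MvPolynomial (Fin m) ℂ) ∈ P.asIdeal
  · rw [W3_dm_zero P hX]
    exact Nat.zero_le r
  · push Not at hX
    obtain ⟨k₀, hk₀⟩ := hX
    rw [← dm_fin φ hφ P]
    apply hC
    intro a
    rw [PrimeSpectrum.comap_asIdeal, Ideal.mem_comap]
    have h1 : X k₀ * φ (pderiv a G) ∈ P.asIdeal := by
      rw [← hP.isRadical.radical, ← vanishingIdeal_zeroLocus_eq_radical (K := ℂ) P.asIdeal,
        mem_vanishingIdeal_iff]
      intro x hx
      have hz : ∀ f ∈ P.asIdeal, eval x f = 0 := by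
        intro f hf
        have := hx f hf
        rwa [aeval_eq_eval] at this
      change aeval x (X k₀ * φ (pderiv a G)) = 0
      rw [aeval_eq_eval]
      change eval x (X k₀ * φ (pderiv a G)) = 0
      rw [map_mul, eval_X]
      by_cases hx0 : x = 0
      · rw [hx0, Pi.zero_apply, zero_mul]
      · rw [h x hx0 (fun k => hz _ (hd k)) a, mul_zero]
    rcases hP.mem_or_mem h1 with h2 | h2
    · exact absurd h2 hk₀
    · exact h2

end Pool.Agent.HCT
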