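import Pool.Agent.HCT.W1
import Pool.Agent.HCT.W2
import Pool.Agent.HCT.W3

namespace Pool.Agent.HCT

open Pool.Agent.HCH Pool.Agent.HCF Pool.Agent.HCR MvPolynomial

/-
PROOF. F' = rename castSucc F : Fin (N + 1), homogeneous of degree d. SgLe F' (r + 1): HCR.sg_cone with the constant 0 (D = 1) for rename succ F + C 0 * X 0 ^ 1 = rename succ F (SgLe F r from hC), then E2b_sg_rename for
the permutation (finRotate (N + 1)).symm (finRotate (castSucc k) = succ k). N = M + 1, F' : Fin (M + 2): hH gives Hart F' c (2 c + (r + 1) + 1 ≤ M). hart_affine F' .. c: AT ℂ (deh F') (M - c), deh F' = F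
(deh on castSucc variables), M - c = N - 1 - c.
-/
theorem AT_of_hart (c : ℕ) (hc : 1 ≤ c) (d : ℕ)
    (hH : ∀ M r, 2 * c + r + 1 ≤ M → ∀ F : MvPolynomial (Fin (M + 2)) ℂ, F.IsHomogeneous d →
      SgLe F r → Hart F c) (N r : ℕ) (hN : 2 * c + r + 3 ≤ N) (F : MvPolynomial (Fin N) ℂ)
    (hF : F.IsHomogeneous d) (hC : CritLe F r) : AT ℂ F (N - 1 - c) := by
  obtain ⟨M, rfl⟩ : ∃ M, N = M + 1 := ⟨N - 1, by omega⟩
  have hF' : (rename Fin.castSucc F : MvPolynomial (Fin (M + 2)) ℂ).IsHomogeneous d :=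
    hF.rename_isHomogeneous
  have hS : SgLe F r := fun P _ hP => hC P hP
  have hS1 : SgLe (rename Fin.succ F : MvPolynomial (Fin (M + 2)) ℂ) (r + 1) := by
    have h1 := sg_cone 1 le_rfl F 0 r hS
    rw [C_0, zero_mul, add_zero] at h1
    exact h1
  have hcs : (rename Fin.castSucc F : MvPolynomial (Fin (M + 2)) ℂ) =
      rename (finRotate (M + 2)).symm (rename Fin.succ F) := by
    have hfun : (Fin.castSucc : Fin (M + 1) → Fin (M + 2)) =
        (finRotate (M + 2)).symm ∘ Fin.succ := by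
      funext k
      rw [Function.comp_apply, Equiv.eq_symm_apply, finRotate_apply]
      apply Fin.ext
      rw [Fin.val_add_one_of_lt (Fin.castSucc_lt_last k)]
      rfl
    rw [rename_rename, ← hfun]
  have hS2 : SgLe (rename Fin.castSucc F : MvPolynomial (Fin (M + 2)) ℂ) (r + 1) := by
    rw [hcs]
    exact E2b_sg_rename _ _ _ hS1
  have h1 := hart_affine (rename Fin.castSucc F : MvPolynomial (Fin (M + 2)) ℂ) hF' c hc (by omega)
    (hH M (r + 1) (by omega) _ hF' hS2)
  have hdeh : deh (rename Fin.castSucc F : MvPolynomial (Fin (M + 2)) ℂ) = F := by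
    unfold deh
    rw [aeval_rename]
    have h2 : (Fin.snoc (α := fun _ => MvPolynomial (Fin (M + 1)) ℂ) X 1 ∘ Fin.castSucc :
        Fin (M + 1) → MvPolynomial (Fin (M + 1)) ℂ) = X := by
      funext k
      rw [Function.comp_apply, Fin.snoc_castSucc]
    rw [h2, aeval_X_left_apply]
  rw [hdeh] at h1
  exact h1

/-
PROOF. QH G: w, d. G is weighted homogeneous for 2 w, 2 d (2 d ≥ 2). exists_cover for 2 w, 2 d: A; φ = wsub (2 w) A is finite (wsub_finite), F = φ G is homogeneous of degree 2 d (wsub_homog), CritLe F r (crit_cover). AT_of_hart: AT ℂ F (N - 1 - c).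
HCF.push_hom φ with lying_fin: AT ℂ G (N - 1 - c).
-/
theorem hcw_C (c : ℕ) (hc : 1 ≤ c)
    (hH : ∀ d, 2 ≤ d → ∀ M r, 2 * c + r + 1 ≤ M → ∀ F : MvPolynomial (Fin (M + 2)) ℂ,
      F.IsHomogeneous d → SgLe F r → Hart F c) : HCW ℂ c := by
  rintro N r hN G ⟨w, d, hw, hd, hG⟩ hC
  have hG2 : IsWeightedHomogeneous (fun k => 2 * w k) G (2 * d) := by
    intro s hs
    have h1 := hG hs
    rw [Finsupp.weight_apply] at h1 ⊢
    rw [← h1, Finsupp.sum, Finsupp.sum, Finset.mul_sum]
    apply Finset.sum_congr rfl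
    intro i _
    rw [smul_eq_mul, smul_eq_mul]
    ring
  have hw2 : ∀ k, 0 < (fun k => 2 * w k) k := by
    intro k
    have := hw k
    change 0 < 2 * w k
    omega
  obtain ⟨A, hA1, hA2⟩ := exists_cover (fun k => 2 * w k) hw2 (by omega) G hG2
  have hfin := wsub_finite (fun k => 2 * w k) hw2 A hA1
  have hF := wsub_homog (fun k => 2 * w k) A G hG2
  have hCF := crit_cover (wsub (fun k => 2 * w k) A) hfin G hA2 r hC
  have h1 := AT_of_hart c hc (2 * d) (hH (2 * d) (by omega)) N r hN _ hF hCF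
  exact push_hom (wsub (fun k => 2 * w k) A) hfin G (N - 1 - c)
    (fun p _ => lying_fin (wsub (fun k => 2 * w k) A) hfin p) h1

end Pool.Agent.HCT
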