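import Pool.Agent.HCT.E1
import Pool.Agent.HCT.L3
import Pool.Agent.HCT.L4
import Pool.Agent.HCT.W4

namespace Pool.Agent.HCT

open Pool.Agent.HCH Pool.Agent.HCF Pool.Agent.HCR MvPolynomial

/-
PROOF. ε : K ≃+* ℂ. G over K; G^ε = map ε G: qh_map; CritLe (map ε G) r as in HCH.sg_field (H2.lean, without homogeneity). HCR.gen_semi with S = False (Gen_false_iff) brings AT ℂ (G^ε) (N - 1 - c) back to K.
-/
theorem hcw_field (c : ℕ) (h : HCW ℂ c) (K : Type) [Field K] (ε : Nonempty (K ≃+* ℂ)) :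
    HCW K c := by
  obtain ⟨ε⟩ := ε
  intro N r hN G hq hC
  have hC' : CritLe (MvPolynomial.map (ε : K →+* ℂ) G) r := by
    intro P hk
    have hp : (P.asIdeal.comap (MvPolynomial.map (ε : K →+* ℂ))).IsPrime :=
      Ideal.comap_isPrime _ _
    have h1 := hC ⟨P.asIdeal.comap (MvPolynomial.map (ε : K →+* ℂ)), hp⟩ (by
      intro k
      change MvPolynomial.map (ε : K →+* ℂ) (pderiv k G) ∈ P.asIdeal
      rw [← pderiv_map]
      exact hk k)
    have h2 := dm_semi ε (MvPolynomial.mapEquiv (Fin N) ε) (fun a =>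
      MvPolynomial.map_C (ε : K →+* ℂ) a) P.asIdeal
    have h3 : P.asIdeal.comap ((MvPolynomial.mapEquiv (Fin N) ε :
        MvPolynomial (Fin N) K ≃+* MvPolynomial (Fin N) ℂ) :
        MvPolynomial (Fin N) K →+* MvPolynomial (Fin N) ℂ) =
        P.asIdeal.comap (MvPolynomial.map (ε : K →+* ℂ)) := rfl
    rw [h3] at h2
    rw [← h2]
    exact h1
  have h1 := h N r hN (MvPolynomial.map (ε : K →+* ℂ) G) (qh_map _ G hq) hC'
  rw [← Gen_false_iff] at h1 ⊢
  exact (gen_semi ε G _ _ h1).mono fun P _ _ ⟨_, _, h2⟩ => h2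

/-
PROOF. HCH.main with Cl = True and i = c (crit from h); hcw_C; hcw_field.
-/
theorem hcw_of_crit (c : ℕ) (hc : 1 ≤ c) (h : ∀ j, 1 ≤ j → j ≤ c → CritHC j) (K : Type) [Field K]
    (ε : Nonempty (K ≃+* ℂ)) : HCW K c := by
  apply hcw_field c _ K ε
  apply hcw_C c hc
  intro d hd M r hM F hF hs
  exact main (Cl := fun _ _ _ _ => True) (fun _ _ _ _ _ _ _ _ _ _ _ _ _ => trivial) d c hd
    (fun j hj hjc F' _ hF' hs' => h j hj hjc d hd F' hF' hs') c le_rfl M r hM ℂ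
    ⟨RingEquiv.refl ℂ⟩ F trivial hF hs

end Pool.Agent.HCT
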