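import Pool.Agent.HCT.A2
import Pool.Agent.HCT.A3
import Pool.Agent.HCT.B2
import Pool.Agent.HCT.E1
import Pool.Agent.HCT.W5

namespace Pool.Agent.HCT

open Pool.Agent.HCH Pool.Agent.HCF Pool.Agent.HCR MvPolynomial

/-
PROOF. Strong induction on i (all degrees). hlow := fun _ => hcw_of_crit (i - 1) (1 ≤ i - 1) (the induction hypothesis for 1 ≤ j ≤ i - 1). d given; hart_step d .. with the induction hypothesis, and
hAT: F critical over ℂ. prime_of_sg, good_coord: a, F' = phi a F, SgLe (rhoI F') 0; AT_phi a: AT ℂ F' (i + 2) is enough. core 3 F' (i + 2) (i + 3 < 2 i + 3):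
H4 : Gen ℂ (suspA 3 (suspA 3 F')) (i + 4) (MemP 0 1) by hcrit for G = suspA 3 F' (n = 2 i + 5; qh_suspA, low2_suspA, iso_suspA, HCH.smooth_of_sg); H3: beta' with alpha2, alpha3.
-/
theorem crit_of_gc (hcrit : ∀ (K : Type) [Field K], Nonempty (K ≃+* ℂ) → GC K) :
    ∀ i, 1 ≤ i → CritHC i := by
  intro i
  induction i using Nat.strong_induction_on with
  | _ i ih =>
    intro hi d hd
    have ε : Nonempty (ℂ ≃+* ℂ) := ⟨RingEquiv.refl ℂ⟩
    have hlow : 2 ≤ i → ∀ (K : Type) [Field K], Nonempty (K ≃+* ℂ) → HCW K (i - 1) := by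
      intro hi2 K _ hK
      exact hcw_of_crit (i - 1) (by omega) (fun j hj hji => ih j (by omega) hj) K hK
    refine hart_step d hd i hi (fun j hj hji => ih j hji hj d hd) ?_
    intro F hF hs
    obtain ⟨hp, hdm⟩ := prime_of_sg F hF (by omega) 0 hs (by omega)
    obtain ⟨a, ha⟩ := good_coord (m := 2 * i + 2) F hF (by omega) hp hdm 0 hs
    apply AT_phi a
    have hF' := phi_homog a F hF
    have h' := sg_phi a F 0 hs
    have hI : SgLe (rhoI (phi a F)) 0 := ha
    have hiso : Iso (phi a F) := smooth_of_sg (phi a F) hF' h'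
    have H4 : Gen ℂ (suspA 3 (suspA 3 (phi a F))) (i + 4) (MemP 0 1) :=
      hcrit ℂ ε (2 * i + 5) (i + 4) (by omega) (by omega) (suspA 3 (phi a F))
        (qh_suspA _ (qh_of_homog (by omega) _ hF')) (low2_suspA _ (low2_of_homog hd _ hF'))
        (iso_suspA _ hiso)
    have H3 : Gen ℂ (suspA 3 (sus 3 (phi a F))) (i + 4) (SpP 3 0 1) :=
      beta' i hi d hd (alpha2 i hi hlow hcrit d hd) (alpha3 i hi hlow hcrit d hd) hcrit ε
        (phi a F) hF' h' hI
    exact core 3 le_rfl (phi a F) (i + 2) (by omega) H4 H3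

end Pool.Agent.HCT
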