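import Pool.Agent.HCT.Defs

namespace Pool.Agent.HCT

open Pool.Agent.HCH Pool.Agent.HCF Pool.Agent.HCR MvPolynomial

/-- The substitution `X k ↦ X k * t ^ (w k)`. -/
noncomputable def L1_Phi {K : Type} [Field K] {n : ℕ} (w : Fin n → ℕ) :
    MvPolynomial (Fin n) K →ₐ[K] Polynomial (MvPolynomial (Fin n) K) :=
  aeval fun k => Polynomial.C (X k) * Polynomial.X ^ w k

theorem L1_Phi_one {K : Type} [Field K] {n : ℕ} (w : Fin n → ℕ) (a : MvPolynomial (Fin n) K) :
    Polynomial.eval 1 (L1_Phi w a) = a := by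
  have h : ((Polynomial.evalRingHom (1 : MvPolynomial (Fin n) K)).comp
      (L1_Phi (K := K) w : MvPolynomial (Fin n) K →+* Polynomial (MvPolynomial (Fin n) K))) =
      RingHom.id _ := by
    apply MvPolynomial.ringHom_ext
    · intro r
      have h1 : L1_Phi w (C r : MvPolynomial (Fin n) K) = Polynomial.C (C r) := by
        rw [L1_Phi, aeval_C]
        rfl
      simp [h1]
    · intro k
      simp [L1_Phi]
  exact DFunLike.congr_fun h a

theorem L1_Phi_zero {K : Type} [Field K] {n : ℕ} (w : Fin n → ℕ) (hw : ∀ k, 0 < w k)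
    (a : MvPolynomial (Fin n) K) :
    Polynomial.eval 0 (L1_Phi w a) = C (constantCoeff a) := by
  have h : ((Polynomial.evalRingHom (0 : MvPolynomial (Fin n) K)).comp
      (L1_Phi (K := K) w : MvPolynomial (Fin n) K →+* Polynomial (MvPolynomial (Fin n) K))) =
      C.comp constantCoeff := by
    apply MvPolynomial.ringHom_ext
    · intro r
      have h1 : L1_Phi w (C r : MvPolynomial (Fin n) K) = Polynomial.C (C r) := by
        rw [L1_Phi, aeval_C]
        rfl
      simp [h1]
    · intro k
      have h0 := (hw k).ne'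
      simp [L1_Phi, h0]
  exact DFunLike.congr_fun h a

theorem L1_Phi_homog {K : Type} [Field K] {n : ℕ} (w : Fin n → ℕ) (d : ℕ)
    (G : MvPolynomial (Fin n) K) (hG : IsWeightedHomogeneous w G d) :
    L1_Phi w G = Polynomial.C G * Polynomial.X ^ d := by
  have h1 : ∀ (s : Fin n →₀ ℕ) (c : K), L1_Phi w (monomial s c) =
      Polynomial.C (monomial s c) * Polynomial.X ^ (Finsupp.weight w s) := by
    intro s c
    have h2 : Polynomial.C (monomial s c) = Polynomial.C (C c) * Polynomial.C (s.prod fun k e => (X k : MvPolynomial (Fin n) K) ^ e) := by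
      rw [← Polynomial.C_mul, ← monomial_eq]
    rw [L1_Phi, aeval_monomial, h2]
    have h3 : (algebraMap K (Polynomial (MvPolynomial (Fin n) K))) c = Polynomial.C (C c) := rfl
    rw [h3, mul_assoc]
    congr 1
    rw [Finsupp.prod_fintype _ _ (fun _ => by simp), Finsupp.prod_fintype _ _ (fun _ => by simp),
      map_prod]
    have h4 : Finsupp.weight w s = ∑ k, s k * w k := by
      rw [Finsupp.weight_apply, Finsupp.sum_fintype _ _ (fun _ => by simp)]
      simp [smul_eq_mul]
    rw [h4, ← Finset.prod_pow_eq_pow_sum, ← Finset.prod_mul_distrib]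
    refine Finset.prod_congr rfl fun k _ => ?_
    rw [mul_pow, map_pow, ← pow_mul, mul_comm (w k)]
  conv_lhs => rw [G.as_sum]
  rw [map_sum]
  have h5 : ∀ s ∈ G.support, L1_Phi w (monomial s (coeff s G)) =
      Polynomial.C (monomial s (coeff s G)) * Polynomial.X ^ d := by
    intro s hs
    rw [h1, hG (mem_support_iff.mp hs)]
  rw [Finset.sum_congr rfl h5, ← Finset.sum_mul, ← map_sum, ← G.as_sum]

/-
PROOF. Φ : MvPolynomial (Fin n) K →ₐ[K] Polynomial (MvPolynomial (Fin n) K), X k ↦ C (X k) * X ^ (w k) (aeval). For a weighted homogeneous G of degree d: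
Φ G = C G * X ^ d (on monomials). Evaluation at 1 (Polynomial.eval 1) of Φ a is a; evaluation at 0 is C (constantCoeff a) (0 < w k). Φ a * Φ b = C G * X ^ d,
G ≠ 0, and Polynomial over a domain: natDegree and natTrailingDegree are additive, and both are d for the product, so natDegree = natTrailingDegree
for Φ a: Φ a = C a' * X ^ i for some i, a' (Polynomial.monomial_.. ; eraseLead or support in [trailing, degree]); eval 1: a' = a. If i = 0: a = eval 0 (Φ a) = C (constantCoeff a),
a nonzero constant, so a is a unit. If i > 0: eval 0 gives constantCoeff a = 0.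
-/
/-- A factor of a quasi-homogeneous polynomial is a unit or vanishes at the origin. -/
theorem wfac {K : Type} [Field K] {n : ℕ} (G : MvPolynomial (Fin n) K) (hG : QH G) (h0 : G ≠ 0)
    (a : MvPolynomial (Fin n) K) (ha : a ∣ G) : IsUnit a ∨ constantCoeff a = 0 := by
  obtain ⟨w, d, hw, hd, hwG⟩ := hG
  obtain ⟨b, hb⟩ := ha
  have hprod : L1_Phi w a * L1_Phi w b = Polynomial.monomial d G := by
    rw [← map_mul, ← hb, L1_Phi_homog w d G hwG, Polynomial.C_mul_X_pow_eq_monomial]
  have hm0 : Polynomial.monomial d G ≠ 0 := by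
    rw [Ne, Polynomial.monomial_eq_zero_iff]
    exact h0
  have ha0 : L1_Phi w a ≠ 0 := by
    intro h
    rw [h, zero_mul] at hprod
    exact hm0 hprod.symm
  have hb0 : L1_Phi w b ≠ 0 := by
    intro h
    rw [h, mul_zero] at hprod
    exact hm0 hprod.symm
  have h1 : (L1_Phi w a).natDegree + (L1_Phi w b).natDegree = d := by
    rw [← Polynomial.natDegree_mul ha0 hb0, hprod, Polynomial.natDegree_monomial_eq d h0]
  have h2 : (L1_Phi w a).natTrailingDegree + (L1_Phi w b).natTrailingDegree = d := by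
    rw [← Polynomial.natTrailingDegree_mul ha0 hb0, hprod, Polynomial.natTrailingDegree_monomial h0]
  have h3 := Polynomial.natTrailingDegree_le_natDegree (L1_Phi w a)
  have h4 := Polynomial.natTrailingDegree_le_natDegree (L1_Phi w b)
  have h5 : (L1_Phi w a).natTrailingDegree = (L1_Phi w a).natDegree := by omega
  have e0 := L1_Phi_zero w hw a
  have e1 := L1_Phi_one w a
  by_cases hi : (L1_Phi w a).natDegree = 0
  · left
    have h6 := Polynomial.eq_C_of_natDegree_eq_zero hi
    rw [h6, Polynomial.eval_C] at e0 e1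
    have h7 : a = C (constantCoeff a) := by rw [← e0, e1]
    have h8 : constantCoeff a ≠ 0 := by
      intro h
      rw [h, map_zero] at h7
      apply ha0
      rw [h7, map_zero]
    rw [h7]
    exact (IsUnit.mk0 _ h8).map C
  · right
    have h6 : (L1_Phi w a).coeff 0 = 0 := by
      apply Polynomial.coeff_eq_zero_of_lt_natTrailingDegree
      omega
    rw [← Polynomial.coeff_zero_eq_eval_zero, h6] at e0
    have h7 : (C (constantCoeff a) : MvPolynomial (Fin n) K) = C 0 := by rw [← e0, map_zero]
    exact C_injective _ _ h7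

/-
PROOF. As in HCH/E7.lean (prime_of_sg), with primes inside the maximal ideal m₀ = ker constantCoeff (a prime of the ring) instead of homogeneous primes.
G ≠ 0: otherwise ⊥ contains all partials, dm ⊥ = n > r. G is not a unit: QH with d > 0 gives constantCoeff G = 0 (coeff 0 has weight 0 ≠ d).
Let G = G₁ * H with G₁ irreducible (WfDvdMonoid.exists_irreducible_factor). If H is a unit, span {G} = span {G₁} is prime. Otherwise let G₂ be an irreducible factor of H;
constantCoeff G₁ = 0 = constantCoeff G₂ (wfac), so G₁, G₂ ∈ m₀. dm (span {G₁}) ≥ n - 1 (e7_dm_ge). Ideal.exists_minimalPrimes_le: a minimal prime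
Q of span {G₁} ⊔ span {G₂} inside m₀; dm_le_min: dm Q + 1 ≥ dm (span {G₁}), so dm Q ≥ n - 2. Q contains G₁ and H, so all the partials of G₁ * H (Leibniz):
n - 2 ≤ dm Q ≤ r by h, against r + 3 ≤ n. dm: as at the end of prime_of_sg.
-/
theorem prime_of_crit {K : Type} [Field K] {n : ℕ} (G : MvPolynomial (Fin n) K) (hG : QH G)
    (r : ℕ) (h : CritLe G r) (hr : r + 3 ≤ n) :
    (Ideal.span {G}).IsPrime ∧ dm K (Ideal.span {G}) = n - 1 := by
  classical
  have hbot : (⊥ : Ideal (MvPolynomial (Fin n) K)).IsPrime := Ideal.isPrime_bot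
  have hG0 : G ≠ 0 := by
    rintro rfl
    have h1 := h ⟨⊥, hbot⟩ (by
      intro k
      rw [map_zero]
      exact Submodule.zero_mem _)
    rw [dm_bot] at h1
    omega
  have hGc : constantCoeff G = 0 := by
    obtain ⟨w, d, hw, hd, hwG⟩ := hG
    by_contra hne
    have h1 := hwG (d := 0) hne
    rw [map_zero] at h1
    omega
  have hGu : ¬ IsUnit G := by
    intro hu
    have h1 := hu.map (constantCoeff (R := K) (σ := Fin n))
    rw [hGc] at h1
    exact not_isUnit_zero h1
  have hprime : (Ideal.span {G}).IsPrime := by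
    obtain ⟨G₁, hG₁, hG₁G⟩ := WfDvdMonoid.exists_irreducible_factor hGu hG0
    have hG₁p : Prime G₁ := hG₁.prime
    have hG₁G' := hG₁G
    obtain ⟨H, hH⟩ := hG₁G
    by_cases hHu : IsUnit H
    · have h1 : Ideal.span {G} = Ideal.span {G₁} := by
        rw [hH]
        exact Ideal.span_singleton_mul_right_unit hHu G₁
      rw [h1]
      exact (Ideal.span_singleton_prime hG₁p.ne_zero).mpr hG₁p
    · exfalso
      have hH0 : H ≠ 0 := by
        rintro rfl
        exact hG0 (by rw [hH, mul_zero])
      obtain ⟨G₂, hG₂, hG₂H⟩ := WfDvdMonoid.exists_irreducible_factor hHu hH0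
      have hG₂G : G₂ ∣ G := hG₂H.trans ⟨G₁, by rw [hH, mul_comm]⟩
      have hc1 : constantCoeff G₁ = 0 := (wfac G hG hG0 G₁ hG₁G').resolve_left hG₁.not_isUnit
      have hc2 : constantCoeff G₂ = 0 := (wfac G hG hG0 G₂ hG₂G).resolve_left hG₂.not_isUnit
      have hG₁pr : (Ideal.span {G₁}).IsPrime := (Ideal.span_singleton_prime hG₁p.ne_zero).mpr hG₁p
      have hm : (RingHom.ker (constantCoeff : MvPolynomial (Fin n) K →+* K)).IsPrime :=
        RingHom.ker_isPrime _
      have hle : Ideal.span {G₁} ⊔ Ideal.span {G₂} ≤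
          RingHom.ker (constantCoeff : MvPolynomial (Fin n) K →+* K) := by
        rw [sup_le_iff, Ideal.span_singleton_le_iff_mem, Ideal.span_singleton_le_iff_mem]
        exact ⟨hc1, hc2⟩
      obtain ⟨Q, hQ, -⟩ := Ideal.exists_minimalPrimes_le hle
      have hQp : Q.IsPrime := hQ.1.1
      have hsub := hQ.1.2
      have hG₁Q : G₁ ∈ Q := hsub (Ideal.mem_sup_left (Ideal.mem_span_singleton_self G₁))
      have hG₂Q : G₂ ∈ Q := hsub (Ideal.mem_sup_right (Ideal.mem_span_singleton_self G₂))
      have hHQ : H ∈ Q := Q.mem_of_dvd hG₂H hG₂Q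
      have hdm := dm_le_min (K := K) (Ideal.span {G₁}) Q G₂ hQ
      have hdmG := e7_dm_ge G₁ hG₁pr
      have h1 := h ⟨Q, hQp⟩ (by
        intro k
        rw [hH, Derivation.leibniz]
        refine Submodule.add_mem _ ?_ ?_
        · rw [smul_eq_mul]
          exact Ideal.mul_mem_right _ _ hG₁Q
        · rw [smul_eq_mul]
          exact Ideal.mul_mem_right _ _ hHQ)
      have h2 : dm K (PrimeSpectrum.asIdeal ⟨Q, hQp⟩) = dm K Q := rfl
      omega
  refine ⟨hprime, ?_⟩
  have h1 := e7_dm_ge G hprime
  have h2 : dm K (Ideal.span {G}) < dm K (⊥ : Ideal (MvPolynomial (Fin n) K)) := by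
    refine dm_lt (K := K) ⊥ (Ideal.span {G}) (bot_lt_iff_ne_bot.mpr ?_)
    rw [Ne, Ideal.span_singleton_eq_bot]
    exact hG0
  rw [dm_bot] at h2
  omega

end Pool.Agent.HCT
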