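import Pool.Agent.HCT.L1

namespace Pool.Agent.HCT

open Pool.Agent.HCH Pool.Agent.HCF Pool.Agent.HCR MvPolynomial

/-
PROOF. rho is surjective (lq_surj), its kernel is span {l} ≤ P.
i ≥ 2: hlow gives AT K (rho V) (n - 1 - (i - 1)), n - 1 - (i - 1) = n - i (2 (i - 1) + r + 3 ≤ n). HCR.AT.push for rho.
i = 1: prime_of_crit (rho V): p₀ = span {rho V} prime, dm p₀ = n - 1. By lq_range P = comap rho P' for some P', rho V ∈ P', dm P' = dm P = n - 1
(dm_comap), so P' = p₀ (eq_of_dm_le). W = span {V}. l ∉ W: otherwise l = V * u, 0 = rho l = rho V * rho u (rho l = 0), rho V ≠ 0 (p₀ ≠ ⊥, since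
dm ⊥ = n ≠ n - 1), so rho u = 0, u = l * u', l = V * l * u', l ≠ 0 (otherwise span {l} = ⊥ and rho is injective: the dimensions n + 1 and n; or: l = 0 implies
rho is an isomorphism, dm_bot, dm_comap) and V is a unit, against hV. W ⊔ span {l} = comap rho (map rho W) = comap rho p₀ = P (Ideal.comap_map_of_surjective, the
kernel is span {l}; map of span {V} is span {rho V}). fdiv K W l (n - 1) = single P 1 (fdiv_apply with dm W = n = (n - 1) + 1; od P Q ≠ 0 implies P ≤ Q and
Q = P for dm Q = n - 1, mlt_self; fdiv_supp), and fdiv_mem_Rt with I = W. N = 1.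
-/
/-- The cycles inside the member `l = 0` are torsion. -/
theorem low_tors {K : Type} [Field K] {n : ℕ}
    {rho : MvPolynomial (Fin (n + 1)) K →ₐ[K] MvPolynomial (Fin n) K}
    {tau : MvPolynomial (Fin n) K →ₐ[K] MvPolynomial (Fin (n + 1)) K}
    {l : MvPolynomial (Fin (n + 1)) K} (hq : LQ rho tau l) (V : MvPolynomial (Fin (n + 1)) K)
    (i r : ℕ) (hi : 1 ≤ i) (hlow : 2 ≤ i → HCW K (i - 1)) (hn : 2 * i + r + 1 ≤ n)
    (hQ : QH (rho V)) (hC : CritLe (rho V) r) (hV : (Ideal.span {V}).IsPrime)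
    (hdV : dm K (Ideal.span {V}) = n) (P : PrimeSpectrum (MvPolynomial (Fin (n + 1)) K))
    (hP : V ∈ P.asIdeal) (hl : l ∈ P.asIdeal) (hd : dm K P.asIdeal = n - i) :
    Tor V (n - i) P := by
  classical
  have hs := lq_surj hq
  have hs' : Function.Surjective
      (rho : MvPolynomial (Fin (n + 1)) K →+* MvPolynomial (Fin n) K) := hs
  have hk : RingHom.ker (rho : MvPolynomial (Fin (n + 1)) K →+* MvPolynomial (Fin n) K) ≤
      P.asIdeal := by
    rw [hq.ker, Ideal.span_singleton_le_iff_mem]
    exact hl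
  by_cases hi2 : 2 ≤ i
  · have hAT : AT K (rho V) (n - i) := by
      have h1 := hlow hi2 n r (by omega) (rho V) hQ hC
      have h2 : n - 1 - (i - 1) = n - i := by omega
      rwa [h2] at h1
    exact AT.push rho hs hAT P hP hk hd
  · obtain rfl : i = 1 := by omega
    obtain ⟨hp0, hd0⟩ := prime_of_crit (rho V) hQ r hC (by omega)
    obtain ⟨P', hP'⟩ := lq_range hq P hl
    have hPc : P.asIdeal = P'.asIdeal.comap
        (rho : MvPolynomial (Fin (n + 1)) K →+* MvPolynomial (Fin n) K) := by
      rw [← hP']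
      rfl
    have hVP' : rho V ∈ P'.asIdeal := by
      rw [hPc] at hP
      exact hP
    have hdP' : dm K P'.asIdeal = n - 1 := by
      rw [← hd, hPc, dm_comap rho hs]
    have hP'p : P'.asIdeal.IsPrime := P'.isPrime
    have heq : Ideal.span {rho V} = P'.asIdeal := by
      refine eq_of_dm_le (K := K) _ _ ((Ideal.span_singleton_le_iff_mem _).mpr hVP') ?_
      rw [hd0, hdP']
    have hsup : Ideal.span {V} ⊔ Ideal.span {l} = P.asIdeal := by
      have h1 := Ideal.comap_map_of_surjective' (rho : MvPolynomial (Fin (n + 1)) K →+*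
        MvPolynomial (Fin n) K) hs' (Ideal.span {V})
      rw [hq.ker, Ideal.map_span, Set.image_singleton] at h1
      rw [← h1, hPc, ← heq]
      rfl
    have hlV : l ∉ Ideal.span {V} := by
      intro h
      have h1 : Ideal.span {V} ⊔ Ideal.span {l} = Ideal.span {V} :=
        sup_eq_left.mpr ((Ideal.span_singleton_le_iff_mem _).mpr h)
      rw [hsup] at h1
      rw [h1, hdV] at hd
      omega
    have hPp : P.asIdeal.IsPrime := P.isPrime
    have hdV' : dm K (Ideal.span {V}) = (n - 1) + 1 := by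
      rw [hdV]
      omega
    have hf : fdiv K (Ideal.span {V}) l (n - 1) = Finsupp.single P (1 : ℤ) := by
      ext Q
      by_cases hQP : Q = P
      · subst hQP
        rw [fdiv_apply (Ideal.span {V}) l hlV (n - 1) hdV' Q hd, hsup, Finsupp.single_eq_same, od,
          mlt_self]
        rfl
      · rw [Finsupp.single_apply, if_neg (fun h => hQP h.symm)]
        by_contra h
        obtain ⟨h1, h2⟩ := fdiv_supp _ _ _ _ h
        rw [hsup] at h2
        have hQp : Q.asIdeal.IsPrime := Q.isPrime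
        have h3 : P.asIdeal = Q.asIdeal := by
          refine eq_of_dm_le (K := K) _ _ h2 ?_
          rw [hd, h1]
        exact hQP (PrimeSpectrum.ext h3.symm)
    refine ⟨1, one_pos, ?_⟩
    rw [Nat.cast_one, one_smul, ← hf]
    exact fdiv_mem_Rt (Ideal.span {V}) (n - 1) ⟨Ideal.span {V}, hV⟩ l le_rfl hdV' hlV

end Pool.Agent.HCT
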