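import Pool.Agent.HCT.Defs
import Pool.Agent.HCR.A2c
import Pool.Agent.HCR.T1h

namespace Pool.Agent.HCT

open Pool.Agent.HCH Pool.Agent.HCF Pool.Agent.HCR MvPolynomial

/-
PROOF. As HCR/T1h.lean (gen_of_tw), for an arbitrary f and an arbitrary S. P with f ∈ P, dm P = e + 1. If MemP 0 1 P: N = 1. Otherwise P = comap theta q
(theta_surj), X 0 ∉ q, theta f ∈ q, dm q = e (dm_theta); h: N • single q 1 = y + w, y ∈ Rt (RatFunc K) (span {theta f}) e, w ∈ Cy .. S (AddSubgroup.mem_sup).
Rt_iff and theta_up: Z ∈ ARat K f (e + 1) with Z (comap theta q') = y q' for X 0 ∉ q'; as a Finsupp Z' (ARat_supp, Finsupp.ofSupportFinite), Z' ∈ Rt K (span {f}) (e + 1).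
Let T be the conclusion's predicate, c = N • single P 1 - Z'. c ∈ Cy K f (e + 1) T: HCR.A2c_mem_Cy: for every prime P' with c P' ≠ 0: if MemP 0 1 P' then T P'; f ∈ P' and dm P' = e + 1 because
P' = P or Z P' ≠ 0 (ARat_supp). If not MemP: P' = comap theta q', X 0 ∉ q', and c P' = N [P' = P] - y q' = (N • single q 1 - y) q' = w q' (theta_inj), so w q' ≠ 0,
S q' by HCR.A2c_Cy_supp, T P'.
-/
/-- Generation from the generic member of the pencil `x_0 = t x_1` on an arbitrary affine hypersurface. -/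
theorem gen_of_theta {K : Type} [Field K] [IsAlgClosed K] {m : ℕ}
    (f : MvPolynomial (Fin (m + 2)) K) (e : ℕ)
    (S : PrimeSpectrum (MvPolynomial (Fin (m + 1)) (RatFunc K)) → Prop)
    (h : Gen (RatFunc K) (theta K m f) e S) :
    Gen K f (e + 1) (fun P => MemP 0 1 P ∨
      ∃ q, X 0 ∉ q.asIdeal ∧ PrimeSpectrum.comap (theta K m) q = P ∧ S q) := by
  classical
  intro p hp hd
  by_cases hM : MemP 0 1 p
  · refine ⟨1, one_pos, ?_⟩
    rw [Nat.cast_one, one_smul]
    exact AddSubgroup.mem_sup_right (AddSubgroup.subset_closure ⟨p, hp, hd, Or.inl hM, rfl⟩)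
  · obtain ⟨q, hq0, hqp⟩ := theta_surj p hM
    have hq : theta K m f ∈ q.asIdeal := by
      rw [← hqp] at hp
      exact hp
    have hdq : dm (RatFunc K) q.asIdeal = e := by
      have h1 := dm_theta q hq0
      rw [hqp] at h1
      omega
    obtain ⟨N, hN, hz⟩ := h q hq hdq
    obtain ⟨y, hy, w, hw, hyw⟩ := AddSubgroup.mem_sup.mp hz
    rw [Rt_iff] at hy
    obtain ⟨Z, hZ, hZv⟩ := theta_up f e _ hy
    obtain ⟨hZf, hZs⟩ := ARat_supp f (e + 1) Z hZ
    have hZ' : Finsupp.ofSupportFinite Z hZf ∈ Rt K (Ideal.span {f}) (e + 1) := by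
      rw [Rt_iff]
      exact hZ
    have hZ'v : ∀ p', Finsupp.ofSupportFinite Z hZf p' = Z p' := fun p' => rfl
    obtain ⟨c, hc⟩ : ∃ c : PrimeSpectrum (MvPolynomial (Fin (m + 2)) K) →₀ ℤ,
        c = (N : ℤ) • Finsupp.single p (1 : ℤ) - Finsupp.ofSupportFinite Z hZf := ⟨_, rfl⟩
    refine ⟨N, hN, ?_⟩
    have e1 : (N : ℤ) • Finsupp.single p (1 : ℤ) = Finsupp.ofSupportFinite Z hZf + c := by
      rw [hc]
      abel
    rw [e1]
    refine AddSubgroup.add_mem_sup hZ' (A2c_mem_Cy f (e + 1) _ c fun p' hp' => ?_)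
    have h0 : f ∈ p'.asIdeal ∧ dm K p'.asIdeal = e + 1 := by
      by_cases h1 : p' = p
      · rw [h1]
        exact ⟨hp, hd⟩
      · have h2 : Z p' ≠ 0 := by
          intro h0
          apply hp'
          rw [hc, Finsupp.sub_apply, hZ'v, h0, Finsupp.smul_apply, Finsupp.single_apply,
            if_neg (Ne.symm h1)]
          simp
        exact hZs p' h2
    refine ⟨h0.1, h0.2, ?_⟩
    by_cases hM' : MemP 0 1 p'
    · exact Or.inl hM'
    · obtain ⟨q', hq0', hqp'⟩ := theta_surj p' hM'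
      refine Or.inr ⟨q', hq0', hqp', ?_⟩
      have h1 := hZv q' hq0'
      rw [hqp'] at h1
      have h2 : (Finsupp.single p (1 : ℤ)) p' = (Finsupp.single q (1 : ℤ)) q' := by
        rw [Finsupp.single_apply, Finsupp.single_apply]
        by_cases h3 : q = q'
        · rw [if_pos h3, if_pos]
          rw [← hqp, ← hqp', h3]
        · rw [if_neg h3, if_neg]
          intro h4
          apply h3
          rw [← hqp, ← hqp'] at h4
          exact theta_inj q q' hq0 hq0' h4
      have h3 : c p' = w q' := by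
        rw [hc, Finsupp.sub_apply, hZ'v, h1, Finsupp.smul_apply, h2]
        have h4 := DFunLike.congr_fun hyw q'
        rw [Finsupp.add_apply, Finsupp.smul_apply] at h4
        rw [← h4]
        ring
      rw [h3] at hp'
      exact (A2c_Cy_supp _ _ _ w hw q' hp').2.2

end Pool.Agent.HCT
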