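import Pool.Agent.HCT.P1

namespace Pool.Agent.HCT

open Pool.Agent.HCH Pool.Agent.HCF Pool.Agent.HCR MvPolynomial

/-- The permutation `0 ↦ 0`, `k + 1 ↦ τ k + 1`, where `τ` is the rotation. -/
noncomputable def P2_sg (m : ℕ) : Equiv.Perm (Fin (m + 2)) :=
  Equiv.Perm.decomposeFin.symm (0, finRotate (m + 1))

theorem P2_sg_zero (m : ℕ) : P2_sg m 0 = 0 := by
  unfold P2_sg
  rw [Equiv.Perm.decomposeFin_symm_apply_zero]

theorem P2_sg_succ (m : ℕ) (k : Fin (m + 1)) : P2_sg m k.succ = (finRotate (m + 1) k).succ := by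
  unfold P2_sg
  rw [Equiv.Perm.decomposeFin_symm_apply_succ, Equiv.swap_self, Equiv.refl_apply]

theorem P2_sg_last (m : ℕ) : P2_sg m (Fin.last (m + 1)) = 1 := by
  have h1 : Fin.last (m + 1) = (Fin.last m).succ := rfl
  rw [h1, P2_sg_succ, finRotate_last]
  rfl

theorem P2_psi_zero (K : Type) [Field K] (m : ℕ) :
    psiR K m (X 0) = C (RatFunc.X : RatFunc K) * X (Fin.last m) := by
  change psi (X 0 : MvPolynomial (Fin (m + 2)) K) = _
  unfold psi
  rw [aeval_X, Fin.cons_zero]

theorem P2_psi_succ (K : Type) [Field K] (m : ℕ) (k : Fin (m + 1)) :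
    psiR K m (X k.succ) = X k := by
  change psi (X k.succ : MvPolynomial (Fin (m + 2)) K) = _
  unfold psi
  rw [aeval_X, Fin.cons_succ]

theorem P2_psi_C (K : Type) [Field K] (m : ℕ) (a : K) :
    psiR K m (C a) = C (algebraMap K (RatFunc K) a) :=
  (psi : MvPolynomial (Fin (m + 2)) K →ₐ[K] MvPolynomial (Fin (m + 1)) (RatFunc K)).commutes a

theorem P2_comp (K : Type) [Field K] (m : ℕ) :
    (theta K m).comp ((renameEquiv K (P2_sg m) : MvPolynomial (Fin (m + 2)) K →ₐ[K]
      MvPolynomial (Fin (m + 2)) K) : MvPolynomial (Fin (m + 2)) K →+* _) =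
    ((renameEquiv (RatFunc K) (finRotate (m + 1)) : MvPolynomial (Fin (m + 1)) (RatFunc K)
      →ₐ[RatFunc K] MvPolynomial (Fin (m + 1)) (RatFunc K)) :
        MvPolynomial (Fin (m + 1)) (RatFunc K) →+* _).comp (psiR K m) := by
  apply MvPolynomial.ringHom_ext
  · intro a
    change theta K m (rename (P2_sg m) (C a)) = rename (finRotate (m + 1)) (psiR K m (C a))
    rw [rename_C, T1a_theta_C, P2_psi_C, rename_C]
  · intro i
    change theta K m (rename (P2_sg m) (X i)) = rename (finRotate (m + 1)) (psiR K m (X i))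
    rw [rename_X]
    induction i using Fin.cases with
    | zero =>
      rw [P2_sg_zero, T1a_theta_zero, P2_psi_zero, map_mul, rename_C, rename_X, finRotate_last]
    | succ k =>
      rw [P2_sg_succ, T1a_theta_succ, P2_psi_succ, rename_X]

theorem P2_comp' (K : Type) [Field K] (m : ℕ) :
    ((renameEquiv (RatFunc K) (finRotate (m + 1)).symm : MvPolynomial (Fin (m + 1)) (RatFunc K)
      →ₐ[RatFunc K] MvPolynomial (Fin (m + 1)) (RatFunc K)) :
        MvPolynomial (Fin (m + 1)) (RatFunc K) →+* _).comp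
      ((theta K m).comp ((renameEquiv K (P2_sg m) : MvPolynomial (Fin (m + 2)) K →ₐ[K]
        MvPolynomial (Fin (m + 2)) K) : MvPolynomial (Fin (m + 2)) K →+* _)) = psiR K m := by
  rw [P2_comp]
  refine RingHom.ext fun g => ?_
  change rename (finRotate (m + 1)).symm (rename (finRotate (m + 1)) (psiR K m g)) = psiR K m g
  rw [rename_rename]
  have h1 : ((finRotate (m + 1)).symm ∘ (finRotate (m + 1)) : Fin (m + 1) → Fin (m + 1)) = id := by
    funext k
    simp
  rw [h1, rename_id_apply]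

/-
PROOF. σ = the permutation k ↦ Equiv.swap 0 1 (finRotate (m + 2) k) of Fin (m + 2): 0 ↦ 0, last ↦ 1, k ↦ k + 1 for 0 < k < last. τ = finRotate (m + 1) on
Fin (m + 1): k ↦ k + 1 (k < last), last ↦ 0. Then theta K m (rename σ g) = rename τ (psiR K m g) for all g (two ring homomorphisms; on C a and on
X 0: theta (X 0) = C t * X 0, psi (X 0) = C t * X last; on X (last): theta (X 1) = X 0, psi (X last) = X last ↦ X 0; on X (k.succ), k.succ < last: theta (X (k + 2)) = X (k + 1), psi ↦ X k ↦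
X (k + 1); T1a_theta_zero, T1a_theta_succ, finRotate_last, finRotate_of_lt). For V: rename τ (psi V) = theta K m (rename σ V).
Gen.equiv for renameEquiv (RatFunc K) τ.symm: from Gen (RatFunc K) (psi V) e S to Gen (RatFunc K) (theta K m (rename σ V)) e S', S' q = ∃ q', comap (rename τ.symm) q' = q ∧ S q'.
gen_of_theta: Gen K (rename σ V) (e + 1) T. Gen.equiv for renameEquiv K σ: Gen K V (e + 1) (∃ Q, comap (rename σ) Q = P ∧ T Q); then Gen.mono: MemP 0 1 Q with s, t: rename σ (C s * X 0 - C t * X last) =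
C s * X 0 - C t * X 1 ∈ Q, so MemP 0 last P. Q = comap theta q, q = comap (rename τ.symm) q', S q': P = comap (rename σ) (comap theta q) = comap psiR (comap (rename τ) q), and
comap (rename τ) q = q'.
-/
/-- Generation from the generic member of the pencil `x_0 = t x_last`. -/
theorem gen_of_psi {K : Type} [Field K] [IsAlgClosed K] {m : ℕ}
    (V : MvPolynomial (Fin (m + 2)) K) (e : ℕ)
    (S : PrimeSpectrum (MvPolynomial (Fin (m + 1)) (RatFunc K)) → Prop)
    (h : Gen (RatFunc K) (psi V) e S) :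
    Gen K V (e + 1) (fun P => MemP 0 (Fin.last (m + 1)) P ∨
      ∃ q, PrimeSpectrum.comap (psiR K m) q = P ∧ S q) := by
  have h0 : (renameEquiv (RatFunc K) (finRotate (m + 1)).symm)
      (theta K m (rename (P2_sg m) V)) = psi V :=
    DFunLike.congr_fun (P2_comp' K m) V
  have h1 := Gen.equiv (f := theta K m (rename (P2_sg m) V)) (e := e)
    (renameEquiv (RatFunc K) (finRotate (m + 1)).symm) (S' := S) (by rw [h0]; exact h)
  have h2 := gen_of_theta (rename (P2_sg m) V) e _ h1
  have h3 := Gen.equiv (f := V) (e := e + 1) (renameEquiv K (P2_sg m)) h2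
  refine h3.mono ?_
  rintro P - - ⟨Q, rfl, hQ⟩
  rcases hQ with ⟨s, t, hst, hQ⟩ | ⟨q, -, hq, q', hq', hS⟩
  · refine Or.inl ⟨s, t, hst, ?_⟩
    rw [PrimeSpectrum.comap_asIdeal, Ideal.mem_comap]
    have h4 : ((renameEquiv K (P2_sg m) : MvPolynomial (Fin (m + 2)) K →ₐ[K]
        MvPolynomial (Fin (m + 2)) K) : MvPolynomial (Fin (m + 2)) K →+*
        MvPolynomial (Fin (m + 2)) K)
        (C s * X 0 - C t * X (Fin.last (m + 1))) = C s * X 0 - C t * X 1 := by
      change rename (P2_sg m) (C s * X 0 - C t * X (Fin.last (m + 1))) = _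
      rw [map_sub, map_mul, map_mul, rename_C, rename_C, rename_X, rename_X, P2_sg_zero,
        P2_sg_last]
    rw [h4]
    exact hQ
  · refine Or.inr ⟨q', ?_, hS⟩
    rw [← hq, ← hq', ← PrimeSpectrum.comap_comp_apply, ← PrimeSpectrum.comap_comp_apply,
      P2_comp']

end Pool.Agent.HCT
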