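import Pool.Agent.HCT.S3

namespace Pool.Agent.HCT

open Pool.Agent.HCH Pool.Agent.HCF Pool.Agent.HCR MvPolynomial

/-- the embedding of the old variables -/
private def R1_j {n : ℕ} (k : Fin n) : Fin (n + 6) := k.succ.succ.succ.succ.succ.succ

private theorem R1_j_inj {n : ℕ} : Function.Injective (R1_j : Fin n → Fin (n + 6)) := by
  intro a b h
  unfold R1_j at h
  exact Fin.succ_injective _ (Fin.succ_injective _ (Fin.succ_injective _ (Fin.succ_injective _
    (Fin.succ_injective _ (Fin.succ_injective _ h)))))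

private theorem R1_j_val {n : ℕ} (k : Fin n) : (R1_j k).val = k.val + 6 := rfl

private theorem R1_wrename {n N : ℕ} (j : Fin n → Fin N) (w : Fin n → ℕ) (w' : Fin N → ℕ)
    (hw : ∀ k, w' (j k) = w k) (q : MvPolynomial (Fin n) ℂ) (d : ℕ)
    (h : IsWeightedHomogeneous w q d) : IsWeightedHomogeneous w' (rename j q) d := by
  intro s hs
  obtain ⟨u, rfl, hu⟩ := coeff_rename_ne_zero j q s hs
  rw [← h hu]
  rw [Finsupp.weight_apply, Finsupp.weight_apply, Finsupp.sum_mapDomain_index]
  · exact Finset.sum_congr rfl fun i _ => by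
      change u i • w' (j i) = u i • w i
      rw [hw]
  · intro i
    exact zero_smul _ _
  · intro i x y
    exact add_smul _ _ _

private theorem R1_mon_map {n N : ℕ} (j : Fin n → Fin N) (l : List (Fin n)) :
    (rename j (mon l : MvPolynomial (Fin n) ℂ)) = mon (l.map j) := by
  unfold mon
  rw [map_list_prod, List.map_map, List.map_map]
  congr 1
  apply List.map_congr_left
  intro k _
  exact rename_X _ _

private theorem R1_mon_cons {n : ℕ} (a : Fin n) (l : List (Fin n)) :
    (mon (a :: l) : MvPolynomial (Fin n) ℂ) = X a * mon l := by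
  unfold mon
  rw [List.map_cons, List.prod_cons]

private noncomputable def R1_g1 {n : ℕ} (R : MvPolynomial (Fin n) ℂ) (c : ℂ) (a : Fin n) :
    MvPolynomial (Fin (n + 2)) ℂ :=
  rename (Fin.succ ∘ Fin.succ) R + X 1 * (X 0 - rename (Fin.succ ∘ Fin.succ) (C c * X a))

private noncomputable def R1_g2 {n : ℕ} (R : MvPolynomial (Fin n) ℂ) (c : ℂ) (a b : Fin n) :
    MvPolynomial (Fin (n + 4)) ℂ :=
  rename (Fin.succ ∘ Fin.succ) (R1_g1 R c a) +
    X 1 * (X 0 - rename (Fin.succ ∘ Fin.succ) (rename (Fin.succ ∘ Fin.succ) (X b)))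

private noncomputable def R1_f {n : ℕ} (R r : MvPolynomial (Fin n) ℂ) (c : ℂ) (a b : Fin n) :
    MvPolynomial (Fin (n + 6)) ℂ :=
  unsub (R1_g2 R c a b) (X 0 * X 2) (rename (Fin.succ ∘ Fin.succ) (rename (Fin.succ ∘ Fin.succ) r))

private theorem R1_e1 {n : ℕ} (R r : MvPolynomial (Fin n) ℂ) (c : ℂ) (a b : Fin n) :
    unsub R (X b * r) (C c * X a) = R1_g1 R c a + rename (Fin.succ ∘ Fin.succ) (X b) *
      (X 0 * rename (Fin.succ ∘ Fin.succ) r) := by
  unfold unsub R1_g1
  rw [map_mul (rename (Fin.succ ∘ Fin.succ)) (X b) r]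
  ring

private theorem R1_e2 {n : ℕ} (R r : MvPolynomial (Fin n) ℂ) (c : ℂ) (a b : Fin n) :
    unsub (R1_g1 R c a) (X 0 * rename (Fin.succ ∘ Fin.succ) r) (rename (Fin.succ ∘ Fin.succ) (X b)) =
      R1_g2 R c a b + rename (Fin.succ ∘ Fin.succ) (rename (Fin.succ ∘ Fin.succ) r) *
        (X 0 * X 2) := by
  unfold unsub R1_g2
  have h : rename (Fin.succ ∘ Fin.succ) (X 0 * rename (Fin.succ ∘ Fin.succ) r :
      MvPolynomial (Fin (n + 2)) ℂ) = X 2 * rename (Fin.succ ∘ Fin.succ)
        (rename (Fin.succ ∘ Fin.succ) r) := by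
    rw [map_mul, rename_X]
    rfl
  rw [h]
  ring

private theorem R1_P {n : ℕ} (R r : MvPolynomial (Fin n) ℂ) (c : ℂ) (a b : Fin n) (n₀ : ℕ)
    (P : ∀ n : ℕ, MvPolynomial (Fin n) ℂ → Prop) (hP : Stb n₀ P) (hn : n₀ ≤ n)
    (h : P (n + 6) (R1_f R r c a b)) : P n (R + C c * X a * (X b * r)) := by
  apply hP n _ _ _ hn
  rw [R1_e1]
  apply hP (n + 2) _ _ _ (by omega)
  rw [R1_e2]
  apply hP (n + 4) _ _ _ (by omega)
  exact h

private theorem R1_iso {n : ℕ} (R r : MvPolynomial (Fin n) ℂ) (c : ℂ) (a b : Fin n)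
    (hr : eval 0 r = 0) (h : Iso (R + C c * X a * (X b * r))) : Iso (R1_f R r c a b) := by
  have h0 : ∀ (m : ℕ) (g : MvPolynomial (Fin m) ℂ), eval 0 (rename (Fin.succ ∘ Fin.succ) g :
      MvPolynomial (Fin (m + 2)) ℂ) = eval 0 g := by
    intro m g
    rw [eval_rename]
    rfl
  have h1 : Iso (unsub R (X b * r) (C c * X a)) := by
    apply iso_unsub _ _ _ _ _ h
    · rw [map_mul, eval_X, Pi.zero_apply, mul_zero]
    · rw [map_mul, eval_X, Pi.zero_apply, zero_mul]
  rw [R1_e1] at h1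
  have h2 : Iso (unsub (R1_g1 R c a) (X 0 * rename (Fin.succ ∘ Fin.succ) r)
      (rename (Fin.succ ∘ Fin.succ) (X b))) := by
    apply iso_unsub _ _ _ _ _ h1
    · rw [h0, eval_X, Pi.zero_apply]
    · rw [map_mul, eval_X, Pi.zero_apply, zero_mul]
  rw [R1_e2] at h2
  apply iso_unsub _ _ _ _ _ h2
  · rw [h0, h0, hr]
  · rw [map_mul, eval_X, Pi.zero_apply, zero_mul]

private theorem R1_f_eq {n : ℕ} (R r : MvPolynomial (Fin n) ℂ) (c : ℂ) (a b : Fin n) :
    R1_f R r c a b = rename R1_j R + X 5 * (X 4 - C c * X (R1_j a)) +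
      X 3 * (X 2 - X (R1_j b)) + X 0 * (X 2 * X 4) + X 1 * (X 0 - rename R1_j r) := by
  have h3 : ∀ g : MvPolynomial (Fin n) ℂ, rename (Fin.succ ∘ Fin.succ)
      (rename (Fin.succ ∘ Fin.succ) (rename (Fin.succ ∘ Fin.succ) g)) = rename R1_j g := by
    intro g
    rw [rename_rename, rename_rename]
    rfl
  unfold R1_f unsub R1_g2 R1_g1
  simp only [map_add, map_mul, map_sub, h3]
  simp only [rename_C, rename_X, Function.comp_apply]
  have e2 : (Fin.succ (Fin.succ 0) : Fin (n + 6)) = 2 := rfl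
  have e3 : (Fin.succ (Fin.succ 1) : Fin (n + 6)) = 3 := rfl
  have e4 : (Fin.succ (Fin.succ 2) : Fin (n + 6)) = 4 := rfl
  have e4' : (Fin.succ (Fin.succ (Fin.succ (Fin.succ 0))) : Fin (n + 6)) = 4 := rfl
  have e5 : (Fin.succ (Fin.succ (Fin.succ (Fin.succ 1))) : Fin (n + 6)) = 5 := rfl
  rw [e2, e3, e4, e4', e5]

private theorem R1_tab {n : ℕ} (i : Fin 3) :
    ((![4, 2, 0] : Fin 3 → Fin (n + 6)) i).val = 4 - 2 * i.val := by
  refine Fin.cases ?_ (fun i => Fin.cases ?_ (fun i => Fin.cases ?_ (fun i => i.elim0) i) i) i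
  · change 4 % (n + 6) = 4
    exact Nat.mod_eq_of_lt (by omega)
  · change 2 % (n + 6) = 2
    exact Nat.mod_eq_of_lt (by omega)
  · change 0 % (n + 6) = 0
    exact Nat.mod_eq_of_lt (by omega)

/-
One macro step: the monomial c x_a x_b r, r = mon (e :: l), is replaced by a product of three new variables, quadratic terms and the
monomial - ν r (of smaller measure; quadratic if l = []). Six new variables
ρ = X 0, ν = X 1, s = X 2, μ = X 3, t = X 4, λ = X 5; the old variable k becomes j k = k.succ.succ.succ.succ.succ.succ.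

PROOF. Write ι = rename (succ ∘ succ), r = mon (e :: l), R = (∑ k, ..) + q + (the sum over U), so f = R + (C c * X a) * (X b * r) (mon_cons).
 f₁ = unsub R (X b * r) (C c * X a) : Fin (n + 2).
 g₁ = ι R + X 1 * (X 0 - ι (C c * X a)); f₁ = g₁ + ι (X b) * (X 0 * ι r) (ring).
 f₂ = unsub g₁ (X 0 * ι r) (ι (X b)) : Fin (n + 4).
 g₂ = ι g₁ + X 1 * (X 0 - ι (ι (X b))); f₂ = g₂ + ι (ι r) * (X 0 * X 2) (ι (X 0) = X 2, ring).
 f' = unsub g₂ (X 0 * X 2) (ι (ι r)) : Fin (n + 6).
The last claim of the theorem: Stb three times (at n, n + 2, n + 4). Iso f': iso_unsub three times, the values at 0: eval 0 (X b * r) = 0, eval 0 (C c * X a) = 0,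
eval 0 (X 0 * ι r) = 0, eval 0 (ι (X b)) = 0, eval 0 (X 0 * X 2) = 0, eval 0 (ι (ι r)) = 0 (ι (ι r) is a product of variables, the first is X of the image of e).
In terms of the variables of Fin (n + 6) (rename_rename, j = the composition of the three renames):
 f' = rename j R + X 5 * (X 4 - C c * X (j a)) + X 3 * (X 2 - X (j b)) + X 0 * (X 2 * X 4) + X 1 * (X 0 - rename j r).
The structure St w' d U' f': w' = cons (r-weight) (cons (d - r-weight) (cons (w b) (cons (d - w b) (cons (w a) (cons (d - w a) w))))) with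
r-weight = ((e :: l).map w).sum; by wU for the head of the list: w a + w b + r-weight = d, all three are positive, so all new weights are positive.
M' = M + 1, v' (0, ·) = 4, 2, 0 and v' (k.succ, i) = j (v (k, i)); v' is injective (j is injective with values k ≥ 6). The sum over Fin (M + 1)
is X 4 * X 2 * X 0 + ∑ k, .. (Fin.sum_univ_succ). q' = rename j q + X 1 * X 0 + X 5 * (X 4 - C c * X (j a)) + X 3 * (X 2 - X (j b)), and
- X 1 * X (j e) is added if l = []; it is homogeneous of degree 2 and weighted homogeneous of degree d.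
U' = the image of U under j (u ↦ (u.1, u.2.map j)); if l ≠ [] the pair (-1, 1 :: (e :: l).map j) is put in front of it. mon (l.map j) = rename j (mon l).
Weights of U': (u.2.map j).map w' = u.2.map w; for the new pair: (d - r-weight) + r-weight = d. Lengths: 3 ≤ 2 + l.length if l ≠ [].
mu: the head of the old list contributes l.length + 1, the new one l.length (l ≠ []) or nothing.
-/
theorem macro_step {n : ℕ} (w : Fin n → ℕ) (d : ℕ) (c : ℂ) (a b e : Fin n) (l : List (Fin n))
    (U : List (ℂ × List (Fin n))) (f : MvPolynomial (Fin n) ℂ)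
    (h : St w d ((c, a :: b :: e :: l) :: U) f) (hs : Iso f) :
    ∃ (w' : Fin (n + 6) → ℕ) (U' : List (ℂ × List (Fin (n + 6))))
      (f' : MvPolynomial (Fin (n + 6)) ℂ), St w' d U' f' ∧ Iso f' ∧
      mu U' < mu ((c, a :: b :: e :: l) :: U) ∧
      ∀ (n₀ : ℕ) (P : ∀ n : ℕ, MvPolynomial (Fin n) ℂ → Prop), Stb n₀ P → n₀ ≤ n →
        P (n + 6) f' → P n f := by
  obtain ⟨⟨M, v, q, hv, hq2, hqw, hvw, hf⟩, hpos, htwo, hwU, hlU⟩ := h
  obtain ⟨r, hr⟩ : ∃ r : MvPolynomial (Fin n) ℂ, r = mon (e :: l) := ⟨_, rfl⟩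
  obtain ⟨R, hR⟩ : ∃ R : MvPolynomial (Fin n) ℂ,
      R = (∑ k, X (v (k, 0)) * X (v (k, 1)) * X (v (k, 2))) + q +
        (U.map fun u => C u.1 * mon u.2).sum := ⟨_, rfl⟩
  have hfR : f = R + C c * X a * (X b * r) := by
    rw [hf, List.map_cons, List.sum_cons, hR, hr]
    change _ + _ + (C c * mon (a :: b :: e :: l) + _) = _
    rw [R1_mon_cons a, R1_mon_cons b]
    ring
  obtain ⟨ρ, hρ⟩ : ∃ ρ : ℕ, ρ = ((e :: l).map w).sum := ⟨_, rfl⟩
  have hsum : w a + (w b + ρ) = d := by
    have h1 := hwU _ (List.mem_cons_self)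
    rw [hρ]
    exact h1
  have hρ0 : 0 < ρ := by
    rw [hρ, List.map_cons, List.sum_cons]
    have := hpos e
    omega
  have hpa := hpos a
  have hpb := hpos b
  obtain ⟨w', hw'⟩ : ∃ w' : Fin (n + 6) → ℕ, w' = Fin.cons (α := fun _ => ℕ) ρ
      (Fin.cons (α := fun _ => ℕ) (d - ρ) (Fin.cons (α := fun _ => ℕ) (w b)
      (Fin.cons (α := fun _ => ℕ) (d - w b) (Fin.cons (α := fun _ => ℕ) (w a)
      (Fin.cons (α := fun _ => ℕ) (d - w a) w))))) := ⟨_, rfl⟩
  have hw'j : ∀ k, w' (R1_j k) = w k := by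
    intro k
    rw [hw']
    rfl
  have hw0 : w' 0 = ρ := by rw [hw']; rfl
  have hw1 : w' 1 = d - ρ := by rw [hw']; rfl
  have hw2 : w' 2 = w b := by rw [hw']; rfl
  have hw3 : w' 3 = d - w b := by rw [hw']; rfl
  have hw4 : w' 4 = w a := by rw [hw']; rfl
  have hw5 : w' 5 = d - w a := by rw [hw']; rfl
  have hw'pos : ∀ k, 0 < w' k := by
    intro k
    rw [hw']
    refine Fin.cases ?_ (fun k => ?_) k
    · exact hρ0
    refine Fin.cases ?_ (fun k => ?_) k
    · change 0 < d - ρ
      omega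
    refine Fin.cases ?_ (fun k => ?_) k
    · exact hpb
    refine Fin.cases ?_ (fun k => ?_) k
    · change 0 < d - w b
      omega
    refine Fin.cases ?_ (fun k => ?_) k
    · exact hpa
    refine Fin.cases ?_ (fun k => ?_) k
    · change 0 < d - w a
      omega
    exact hpos k
  -- the blocks
  obtain ⟨v', hv'⟩ : ∃ v' : Fin (M + 1) × Fin 3 → Fin (n + 6),
      v' = fun x => Fin.cases (motive := fun _ => Fin (n + 6))
        ((![4, 2, 0] : Fin 3 → Fin (n + 6)) x.2) (fun k => R1_j (v (k, x.2))) x.1 := ⟨_, rfl⟩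
  have hv'0 : ∀ i, v' (0, i) = (![4, 2, 0] : Fin 3 → Fin (n + 6)) i := by
    intro i
    rw [hv']
    rfl
  have hv's : ∀ k i, v' (Fin.succ k, i) = R1_j (v (k, i)) := by
    intro k i
    rw [hv']
    rfl
  have hlt : ∀ i : Fin 3, ((![4, 2, 0] : Fin 3 → Fin (n + 6)) i).val = 4 - 2 * i.val :=
    fun i => R1_tab i
  have hinj0 : Function.Injective (![4, 2, 0] : Fin 3 → Fin (n + 6)) := by
    intro i j hij
    have h5 := congrArg Fin.val hij
    rw [hlt, hlt] at h5
    apply Fin.ext
    have := i.2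
    have := j.2
    omega
  have hv'inj : Function.Injective v' := by
    rintro ⟨k, i⟩ ⟨k', i'⟩ hkk
    revert hkk
    refine Fin.cases ?_ (fun k => ?_) k
    · refine Fin.cases ?_ (fun k' => ?_) k'
      · intro hkk
        rw [hv'0, hv'0] at hkk
        rw [hinj0 hkk]
      · intro hkk
        exfalso
        rw [hv'0, hv's] at hkk
        have h1 := hlt i
        rw [hkk, R1_j_val] at h1
        omega
    · refine Fin.cases ?_ (fun k' => ?_) k'
      · intro hkk
        exfalso
        rw [hv'0, hv's] at hkk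
        have h1 := hlt i'
        rw [← hkk, R1_j_val] at h1
        omega
      · intro hkk
        rw [hv's, hv's] at hkk
        have h1 := hv (R1_j_inj hkk)
        rw [Prod.mk.injEq] at h1
        rw [h1.1, h1.2]
  have hv'w : ∀ k, w' (v' (k, 0)) + w' (v' (k, 1)) + w' (v' (k, 2)) = d := by
    intro k
    refine Fin.cases ?_ (fun k => ?_) k
    · rw [hv'0, hv'0, hv'0]
      change w' 4 + w' 2 + w' 0 = d
      rw [hw4, hw2, hw0]
      omega
    · rw [hv's, hv's, hv's, hw'j, hw'j, hw'j]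
      exact hvw k
  have hv'sum : (∑ k, X (v' (k, 0)) * X (v' (k, 1)) * X (v' (k, 2)) :
      MvPolynomial (Fin (n + 6)) ℂ) = X 4 * X 2 * X 0 +
        rename R1_j (∑ k, X (v (k, 0)) * X (v (k, 1)) * X (v (k, 2))) := by
    rw [Fin.sum_univ_succ, map_sum]
    congr 1
    · rw [hv'0, hv'0, hv'0]
      rfl
    · apply Finset.sum_congr rfl
      intro k _
      rw [hv's, hv's, hv's, map_mul, map_mul, rename_X, rename_X, rename_X]
  -- the quadratic part
  obtain ⟨q₀, hq₀⟩ : ∃ q₀ : MvPolynomial (Fin (n + 6)) ℂ, q₀ = rename R1_j q + X 1 * X 0 +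
      X 5 * (X 4 - C c * X (R1_j a)) + X 3 * (X 2 - X (R1_j b)) := ⟨_, rfl⟩
  have hX : ∀ k : Fin (n + 6), (X k : MvPolynomial (Fin (n + 6)) ℂ).IsHomogeneous 1 :=
    fun k => isHomogeneous_X ℂ k
  have hq₀2 : q₀.IsHomogeneous 2 := by
    rw [hq₀]
    have h1 : (X 4 - C c * X (R1_j a) : MvPolynomial (Fin (n + 6)) ℂ).IsHomogeneous 1 :=
      (hX 4).sub ((hX _).C_mul c)
    have h2 : (X 5 * (X 4 - C c * X (R1_j a)) : MvPolynomial (Fin (n + 6)) ℂ).IsHomogeneous 2 :=
      (hX 5).mul h1
    have h3 : (X 1 * X 0 : MvPolynomial (Fin (n + 6)) ℂ).IsHomogeneous 2 := (hX 1).mul (hX 0)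
    have h4 : (X 3 * (X 2 - X (R1_j b)) : MvPolynomial (Fin (n + 6)) ℂ).IsHomogeneous 2 :=
      (hX 3).mul ((hX 2).sub (hX _))
    exact ((hq2.rename_isHomogeneous.add h3).add h2).add h4
  have hXw : ∀ k : Fin (n + 6), IsWeightedHomogeneous w' (X k : MvPolynomial (Fin (n + 6)) ℂ)
      (w' k) := fun k => isWeightedHomogeneous_X _ _ _
  have hpair : ∀ (k : Fin (n + 6)) (g : MvPolynomial (Fin (n + 6)) ℂ) (x : ℕ),
      IsWeightedHomogeneous w' g x → w' k + x = d → IsWeightedHomogeneous w' (X k * g) d := by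
    intro k g x hg hx
    rw [← hx]
    exact (hXw k).mul hg
  have hq₀w : IsWeightedHomogeneous w' q₀ d := by
    rw [hq₀]
    refine ((((R1_wrename R1_j w w' hw'j q d hqw).add (hpair 1 (X 0) _ (hXw 0) ?_))).add
      (hpair 5 _ (w a) ?_ ?_)).add (hpair 3 _ (w b) ?_ ?_)
    · rw [hw1, hw0]
      omega
    · refine IsWeightedHomogeneous.sub ?_ ?_
      · have := hXw 4
        rwa [hw4] at this
      · have := (hXw (R1_j a)).C_mul c
        rwa [hw'j] at this
    · rw [hw5]
      omega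
    · refine IsWeightedHomogeneous.sub ?_ ?_
      · have := hXw 2
        rwa [hw2] at this
      · have := hXw (R1_j b)
        rwa [hw'j] at this
    · rw [hw3]
      omega
  -- the remaining monomials
  obtain ⟨V, hV⟩ : ∃ V : List (ℂ × List (Fin (n + 6))), V = U.map fun u => (u.1, u.2.map R1_j) :=
    ⟨_, rfl⟩
  have hVsum : (V.map fun u => C u.1 * mon u.2 : List (MvPolynomial (Fin (n + 6)) ℂ)).sum =
      rename R1_j (U.map fun u => C u.1 * mon u.2).sum := by
    rw [hV, map_list_sum, List.map_map, List.map_map]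
    congr 1
    apply List.map_congr_left
    intro u _
    change C u.1 * mon (u.2.map R1_j) = rename R1_j (C u.1 * mon u.2)
    rw [map_mul, rename_C, R1_mon_map]
  have hwmap : ∀ l : List (Fin n), ((l.map R1_j).map w').sum = (l.map w).sum := by
    intro l
    rw [List.map_map]
    congr 1
    apply List.map_congr_left
    intro k _
    exact hw'j k
  have hVw : ∀ u ∈ V, (u.2.map w').sum = d := by
    rw [hV]
    intro u hu
    obtain ⟨x, hx, rfl⟩ := List.mem_map.mp hu
    change ((x.2.map R1_j).map w').sum = d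
    rw [hwmap]
    exact hwU x (List.mem_cons_of_mem _ hx)
  have hVl : ∀ u ∈ V, 3 ≤ u.2.length := by
    rw [hV]
    intro u hu
    obtain ⟨x, hx, rfl⟩ := List.mem_map.mp hu
    change 3 ≤ (x.2.map R1_j).length
    rw [List.length_map]
    exact hlU x (List.mem_cons_of_mem _ hx)
  have hVmu : mu V = mu U := by
    unfold mu
    rw [hV, List.map_map]
    congr 1
    apply List.map_congr_left
    intro u _
    change (u.2.map R1_j).length - 2 = _
    rw [List.length_map]
  have hmu : mu ((c, a :: b :: e :: l) :: U) = (l.length + 1) + mu U := by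
    unfold mu
    rw [List.map_cons, List.sum_cons]
    congr 1
  -- the new polynomial
  have hf' : R1_f R r c a b = (∑ k, X (v' (k, 0)) * X (v' (k, 1)) * X (v' (k, 2))) + q₀ -
      X 1 * mon ((e :: l).map R1_j) + (V.map fun u => C u.1 * mon u.2).sum := by
    rw [R1_f_eq, hv'sum, hVsum, hq₀, hR, hr, R1_mon_map, map_add, map_add]
    ring
  have hev : eval 0 r = 0 := by
    rw [hr, R1_mon_cons, map_mul, eval_X, Pi.zero_apply, zero_mul]
  have hiso : Iso (R1_f R r c a b) := R1_iso R r c a b hev (by rw [← hfR]; exact hs)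
  have hPP : ∀ (n₀ : ℕ) (P : ∀ n : ℕ, MvPolynomial (Fin n) ℂ → Prop), Stb n₀ P → n₀ ≤ n →
        P (n + 6) (R1_f R r c a b) → P n f := by
    intro n₀ P hP hn h1
    rw [hfR]
    exact R1_P R r c a b n₀ P hP hn h1
  cases l with
  | nil =>
    refine ⟨w', V, R1_f R r c a b, ⟨⟨M + 1, v', q₀ - X 1 * X (R1_j e), hv'inj, ?_, ?_, hv'w, ?_⟩,
      hw'pos, htwo, hVw, hVl⟩, hiso, ?_, hPP⟩
    · exact hq₀2.sub ((hX 1).mul (hX _))
    · refine hq₀w.sub (hpair 1 _ (w' (R1_j e)) (hXw _) ?_)
      rw [hw1, hw'j]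
      rw [List.map_cons, List.map_nil, List.sum_cons, List.sum_nil] at hρ
      omega
    · rw [hf']
      have h1 : (mon (List.map R1_j [e]) : MvPolynomial (Fin (n + 6)) ℂ) = X (R1_j e) := by
        unfold mon
        rw [List.map_cons, List.map_nil, List.map_cons, List.map_nil, List.prod_cons,
          List.prod_nil, mul_one]
      rw [h1]
      ring
    · rw [hVmu, hmu]
      omega
  | cons x l =>
    refine ⟨w', (-1, 1 :: (e :: x :: l).map R1_j) :: V, R1_f R r c a b,
      ⟨⟨M + 1, v', q₀, hv'inj, hq₀2, hq₀w, hv'w, ?_⟩, hw'pos, htwo, ?_, ?_⟩, hiso, ?_, hPP⟩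
    · have h1 : (((-1, 1 :: (e :: x :: l).map R1_j) :: V : List (ℂ × List (Fin (n + 6)))).map
          fun u => (C u.1 * mon u.2 : MvPolynomial (Fin (n + 6)) ℂ)).sum =
          C (-1) * mon (1 :: (e :: x :: l).map R1_j) + (V.map fun u => C u.1 * mon u.2).sum := by
        rw [List.map_cons, List.sum_cons]
      rw [h1, hf', R1_mon_cons 1, C_neg, C_1]
      ring
    · intro u hu
      rcases List.mem_cons.mp hu with rfl | hu
      · change ((1 :: (e :: x :: l).map R1_j).map w').sum = d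
        rw [List.map_cons, List.sum_cons, hwmap, ← hρ, hw1]
        omega
      · exact hVw u hu
    · intro u hu
      rcases List.mem_cons.mp hu with rfl | hu
      · change 3 ≤ (1 :: (e :: x :: l).map R1_j).length
        rw [List.length_cons, List.length_map, List.length_cons, List.length_cons]
        omega
      · exact hVl u hu
    · have h1 : mu ((-1, 1 :: (e :: x :: l).map R1_j) :: V : List (ℂ × List (Fin (n + 6)))) =
          (l.length + 1) + mu V := by
        unfold mu
        rw [List.map_cons, List.sum_cons]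
        congr 1
        change (1 :: (e :: x :: l).map R1_j).length - 2 = _
        rw [List.length_cons, List.length_map, List.length_cons, List.length_cons]
        omega
      rw [h1, hVmu, hmu, List.length_cons]
      omega

end Pool.Agent.HCT
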