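import Pool.Agent.HCT.Defs

namespace Pool.Agent.HCT

open Pool.Agent.HCH Pool.Agent.HCF Pool.Agent.HCR MvPolynomial

private theorem R2_mon {n : ℕ} (s : Fin n →₀ ℕ) :
    (mon (Finsupp.toMultiset s).toList : MvPolynomial (Fin n) ℂ) = monomial s 1 := by
  unfold mon
  have h1 : ((Finsupp.toMultiset s).toList.map (X : Fin n → MvPolynomial (Fin n) ℂ)).prod =
      ((Finsupp.toMultiset s).map (X : Fin n → MvPolynomial (Fin n) ℂ)).prod := by
    conv_rhs => rw [← Multiset.coe_toList (Finsupp.toMultiset s)]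
    rw [Multiset.map_coe, Multiset.prod_coe]
  rw [h1, Finsupp.toMultiset_map, Finsupp.prod_toMultiset, monomial_eq, C_1, one_mul,
    Finsupp.prod_mapDomain_index]
  · intro x
    exact pow_zero x
  · intro x a b
    exact pow_add x a b

private theorem R2_wt {n : ℕ} (w : Fin n → ℕ) (s : Fin n →₀ ℕ) :
    ((Finsupp.toMultiset s).toList.map w).sum = Finsupp.weight w s := by
  have h1 : ((Finsupp.toMultiset s).toList.map w).sum = ((Finsupp.toMultiset s).map w).sum := by
    conv_rhs => rw [← Multiset.coe_toList (Finsupp.toMultiset s)]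
    rw [Multiset.map_coe, Multiset.sum_coe]
  rw [h1, Finsupp.toMultiset_map, Finsupp.sum_toMultiset, Finsupp.weight_apply,
    Finsupp.sum_mapDomain_index]
  · intro x
    exact zero_smul _ _
  · intro x a b
    exact add_smul _ _ _

theorem st_init {n : ℕ} (G : MvPolynomial (Fin n) ℂ) (hq : QH G) (h2 : Low2 G) :
    ∃ (w : Fin n → ℕ) (d : ℕ) (U : List (ℂ × List (Fin n))), St w d U G := by
  classical
  obtain ⟨w, d, hw, hd, hG⟩ := hq
  have hG2 : IsWeightedHomogeneous (fun k => 2 * w k) G (2 * d) := by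
    intro s hs
    have h1 := hG hs
    rw [Finsupp.weight_apply] at h1 ⊢
    rw [← h1, Finsupp.sum, Finsupp.sum, Finset.mul_sum]
    apply Finset.sum_congr rfl
    intro i _
    rw [smul_eq_mul, smul_eq_mul]
    ring
  obtain ⟨w', hw'⟩ : ∃ w' : Fin n → ℕ, w' = fun k => 2 * w k := ⟨_, rfl⟩
  rw [← hw'] at hG2
  have hw'pos : ∀ k, 0 < w' k := by
    intro k
    rw [hw']
    have := hw k
    change 0 < 2 * w k
    omega
  let U : List (ℂ × List (Fin n)) := ((G.support.filter fun s => 3 ≤ s.degree).toList).map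
    fun s => (coeff s G, (Finsupp.toMultiset s).toList)
  have hmem : ∀ u ∈ U, ∃ s, s ∈ G.support ∧ 3 ≤ s.degree ∧
      u = (coeff s G, (Finsupp.toMultiset s).toList) := by
    intro u hu
    obtain ⟨s, hs, rfl⟩ := List.mem_map.mp hu
    rw [Finset.mem_toList, Finset.mem_filter] at hs
    exact ⟨s, hs.1, hs.2, rfl⟩
  refine ⟨w', 2 * d, U, ⟨⟨0, fun x => x.1.elim0, homogeneousComponent 2 G, ?_,
    homogeneousComponent_isHomogeneous 2 G, ?_, ?_, ?_⟩, hw'pos, by omega, ?_, ?_⟩⟩
  · intro x
    exact x.1.elim0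
  · intro s hs
    rw [coeff_homogeneousComponent] at hs
    apply hG2
    intro h0
    apply hs
    rw [h0]
    exact ite_self _
  · intro k
    exact k.elim0
  · rw [Fin.sum_univ_zero, zero_add]
    have h3 : (U.map fun u => (C u.1 * mon u.2 : MvPolynomial (Fin n) ℂ)).sum =
        ∑ s ∈ G.support.filter (fun s => 3 ≤ s.degree), monomial s (coeff s G) := by
      rw [← Finset.sum_map_toList, List.map_map]
      congr 1
      apply List.map_congr_left
      intro s _
      change C (coeff s G) * mon (Finsupp.toMultiset s).toList = monomial s (coeff s G)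
      rw [R2_mon, C_mul_monomial, mul_one]
    rw [h3, homogeneousComponent_apply]
    conv_lhs => rw [← support_sum_monomial_coeff G]
    rw [← Finset.sum_filter_add_sum_filter_not G.support (fun s => s.degree = 2)]
    congr 1
    apply Finset.sum_congr _ fun _ _ => rfl
    ext s
    rw [Finset.mem_filter, Finset.mem_filter]
    constructor
    · rintro ⟨h4, h5⟩
      have := h2 s h4
      exact ⟨h4, by omega⟩
    · rintro ⟨h4, h5⟩
      exact ⟨h4, by omega⟩
  · intro u hu
    obtain ⟨s, hs, _, rfl⟩ := hmem u hu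
    change ((Finsupp.toMultiset s).toList.map w').sum = 2 * d
    rw [R2_wt]
    exact hG2 (mem_support_iff.mp hs)
  · intro u hu
    obtain ⟨s, _, h3, rfl⟩ := hmem u hu
    change 3 ≤ (Finsupp.toMultiset s).toList.length
    rw [Multiset.length_toList, Finsupp.card_toMultiset]
    exact h3

end Pool.Agent.HCT
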