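import Pool.Agent.HCT.S3

namespace Pool.Agent.HCT

open Pool.Agent.HCH Pool.Agent.HCF Pool.Agent.HCR MvPolynomial

/-
PROOF. NF: the data of St.ex with the empty sum over U. QH: the weights w, d (2 ≤ d): every product X (v (k, 0)) * X (v (k, 1)) * X (v (k, 2)) is
weighted homogeneous of degree d (isWeightedHomogeneous_X, .mul, .sum, .add).
-/
theorem st_nil {n : ℕ} (w : Fin n → ℕ) (d : ℕ) (f : MvPolynomial (Fin n) ℂ) (h : St w d [] f) :
    NF f ∧ QH f := by
  obtain ⟨⟨M, v, q, hv, hq2, hqw, hvw, hf⟩, hpos, htwo, _, _⟩ := h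
  rw [List.map_nil, List.sum_nil, add_zero] at hf
  refine ⟨⟨M, v, q, hv, hq2, hf⟩, w, d, hpos, by omega, ?_⟩
  rw [hf]
  refine IsWeightedHomogeneous.add ?_ hqw
  refine IsWeightedHomogeneous.sum _ _ _ fun k _ => ?_
  have h1 := ((isWeightedHomogeneous_X ℂ w (v (k, 0))).mul
    (isWeightedHomogeneous_X ℂ w (v (k, 1)))).mul (isWeightedHomogeneous_X ℂ w (v (k, 2)))
  rw [hvw k] at h1
  exact h1

private theorem R3_wrename {n N : ℕ} (j : Fin n → Fin N) (w : Fin n → ℕ) (w' : Fin N → ℕ)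
    (hw : ∀ k, w' (j k) = w k) (q : MvPolynomial (Fin n) ℂ) (d : ℕ)
    (h : IsWeightedHomogeneous w q d) : IsWeightedHomogeneous w' (rename j q) d := by
  intro s hs
  obtain ⟨u, rfl, hu⟩ := coeff_rename_ne_zero j q s hs
  rw [← h hu]
  rw [Finsupp.weight_apply, Finsupp.weight_apply, Finsupp.sum_mapDomain_index]
  · exact Finset.sum_congr rfl fun i _ => by
      change u i • w' (j i) = u i • w i
      rw [hw]
  · intro i
    exact zero_smul _ _
  · intro i x y
    exact add_smul _ _ _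

/-
PROOF. Induction on k, n general. k = 0: N' = n (subst), st_nil. k + 1: f = f + 0 * 0, by hP it is enough to prove P (n + 2) (unsub f 0 0): the
induction hypothesis for n + 2 (N' = (n + 2) + 2 * k). unsub f 0 0 = rename j f + X 1 * X 0, j = succ ∘ succ. Iso: iso_unsub. St w' d [] with
w' = cons 1 (cons (d - 1) w) (2 ≤ d), the same M, v' = j ∘ v, q' = rename j q + X 1 * X 0.
-/
theorem pad_P (n₀ : ℕ) (P : ∀ n : ℕ, MvPolynomial (Fin n) ℂ → Prop) (hP : Stb n₀ P) (k : ℕ) :
    ∀ (n N' : ℕ), N' = n + 2 * k → n₀ ≤ n → ∀ (w : Fin n → ℕ) (d : ℕ)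
      (f : MvPolynomial (Fin n) ℂ), St w d [] f → Iso f →
      (∀ g : MvPolynomial (Fin N') ℂ, NF g → QH g → Iso g → P N' g) → P n f := by
  induction k with
  | zero =>
    intro n N' hN hn w d f hf hs h
    obtain rfl : N' = n := by omega
    obtain ⟨h1, h2⟩ := st_nil w d f hf
    exact h f h1 h2 hs
  | succ k ih =>
    intro n N' hN hn w d f hf hs h
    have e0 : f = f + 0 * 0 := by rw [zero_mul, add_zero]
    rw [e0]
    apply hP n f 0 0 hn
    have hs' : Iso (unsub f 0 0) := by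
      apply iso_unsub f 0 0 (map_zero _) (map_zero _)
      rw [← e0]
      exact hs
    refine ih (n + 2) N' (by omega) (by omega)
      (Fin.cons (α := fun _ => ℕ) 1 (Fin.cons (α := fun _ => ℕ) (d - 1) w)) d (unsub f 0 0) ?_
      hs' h
    obtain ⟨⟨M, v, q, hv, hq2, hqw, hvw, hf1⟩, hpos, htwo, _, _⟩ := hf
    rw [List.map_nil, List.sum_nil, add_zero] at hf1
    obtain ⟨w', hw'⟩ : ∃ w' : Fin (n + 2) → ℕ, w' = Fin.cons (α := fun _ => ℕ) 1
      (Fin.cons (α := fun _ => ℕ) (d - 1) w) := ⟨_, rfl⟩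
    rw [← hw']
    have hwj : ∀ k, w' ((Fin.succ ∘ Fin.succ) k) = w k := by
      intro k
      rw [hw']
      rfl
    have hw0 : w' 0 = 1 := by rw [hw']; rfl
    have hw1 : w' 1 = d - 1 := by rw [hw']; rfl
    refine ⟨⟨M, fun x => (Fin.succ ∘ Fin.succ) (v x), rename (Fin.succ ∘ Fin.succ) q + X 1 * X 0,
      ?_, ?_, ?_, ?_, ?_⟩, ?_, htwo, ?_, ?_⟩
    · intro x y hxy
      exact hv (Fin.succ_injective _ (Fin.succ_injective _ hxy))
    · have h1 : (X 1 * X 0 : MvPolynomial (Fin (n + 2)) ℂ).IsHomogeneous 2 :=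
        (isHomogeneous_X ℂ _).mul (isHomogeneous_X ℂ _)
      exact hq2.rename_isHomogeneous.add h1
    · have h1 : IsWeightedHomogeneous w' (X 1 * X 0 : MvPolynomial (Fin (n + 2)) ℂ) d := by
        have h2 := (isWeightedHomogeneous_X ℂ w' 1).mul (isWeightedHomogeneous_X ℂ w' 0)
        rw [hw0, hw1] at h2
        have h3 : d - 1 + 1 = d := by omega
        rwa [h3] at h2
      exact (R3_wrename _ w w' hwj q d hqw).add h1
    · intro k
      change w' ((Fin.succ ∘ Fin.succ) (v (k, 0))) + w' ((Fin.succ ∘ Fin.succ) (v (k, 1))) +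
        w' ((Fin.succ ∘ Fin.succ) (v (k, 2))) = d
      rw [hwj, hwj, hwj]
      exact hvw k
    · rw [List.map_nil, List.sum_nil, add_zero]
      unfold unsub
      rw [map_zero, mul_zero, add_zero, sub_zero]
      conv_lhs => rw [hf1]
      rw [map_add, map_sum, add_assoc]
      congr 1
      apply Finset.sum_congr rfl
      intro k _
      rw [map_mul, map_mul, rename_X, rename_X, rename_X]
    · intro k
      rw [hw']
      refine Fin.cases ?_ (fun k => ?_) k
      · exact Nat.one_pos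
      refine Fin.cases ?_ (fun k => ?_) k
      · change 0 < d - 1
        omega
      · exact hpos k
    · intro u hu
      exact absurd hu List.not_mem_nil
    · intro u hu
      exact absurd hu List.not_mem_nil

end Pool.Agent.HCT
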