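import Pool.Agent.HCT.R1
import Pool.Agent.HCT.R2
import Pool.Agent.HCT.R3

namespace Pool.Agent.HCT

open Pool.Agent.HCH Pool.Agent.HCF Pool.Agent.HCR MvPolynomial

/-
PROOF. First: for all t, for all n ≥ n₀ odd, w, d, U with mu U ≤ t, f with St w d U f and Iso f: P n f. Induction on t (or strong induction on mu U),
n, w, d, U, f general. U = []: pad_P with the k of hNF n (N' = n + 2 * k). U = (c, l) :: U₁: lU gives l = a :: b :: e :: l'; macro_step; the
induction hypothesis at n + 6 (odd, mu smaller). (For t = 0 the list U is empty, because every element contributes at least 1 to mu.)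
Then st_init.
-/
/-- Reduction of quasi-homogeneous polynomials with an isolated critical point to the normal form. -/
theorem reduce (n₀ : ℕ) (P : ∀ n : ℕ, MvPolynomial (Fin n) ℂ → Prop) (hP : Stb n₀ P)
    (hNF : ∀ n, n₀ ≤ n → Odd n → ∃ k, ∀ g : MvPolynomial (Fin (n + 2 * k)) ℂ,
      NF g → QH g → Iso g → P (n + 2 * k) g) :
    ∀ n, n₀ ≤ n → Odd n → ∀ G : MvPolynomial (Fin n) ℂ, QH G → Low2 G → Iso G → P n G := by
  have key : ∀ (t n : ℕ), n₀ ≤ n → Odd n → ∀ (w : Fin n → ℕ) (d : ℕ) (U : List (ℂ × List (Fin n)))
      (f : MvPolynomial (Fin n) ℂ), mu U < t → St w d U f → Iso f → P n f := by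
    intro t
    induction t with
    | zero =>
      intro n _ _ w d U f hU
      omega
    | succ t ih =>
      intro n hn ho w d U f hU hf hs
      match U, hU, hf with
      | [], _, hf =>
        obtain ⟨k, hk⟩ := hNF n hn ho
        exact pad_P n₀ P hP k n (n + 2 * k) rfl hn w d f hf hs hk
      | (c, []) :: U, _, hf =>
        have h1 := hf.lU _ List.mem_cons_self
        change 3 ≤ 0 at h1
        omega
      | (c, [_]) :: U, _, hf =>
        have h1 := hf.lU _ List.mem_cons_self
        change 3 ≤ 1 at h1
        omega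
      | (c, [_, _]) :: U, _, hf =>
        have h1 := hf.lU _ List.mem_cons_self
        change 3 ≤ 2 at h1
        omega
      | (c, a :: b :: e :: l) :: U, hU, hf =>
        obtain ⟨w', U', f', h1, h2, h3, h4⟩ := macro_step w d c a b e l U f hf hs
        have ho' : Odd (n + 6) := by
          obtain ⟨x, hx⟩ := ho
          exact ⟨x + 3, by omega⟩
        exact h4 n₀ P hP hn (ih (n + 6) (by omega) ho' w' d U' f' (by omega) h1 h2)
  intro n hn ho G hq h2 hs
  obtain ⟨w, d, U, h⟩ := st_init G hq h2
  exact key (mu U + 1) n hn ho w d U G (by omega) h hs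

end Pool.Agent.HCT
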