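import Pool.Agent.HCT.Defs

namespace Pool.Agent.HCT

open Pool.Agent.HCH Pool.Agent.HCF Pool.Agent.HCR MvPolynomial

/-
PROOF. Copy HCF/S11.lean (`stepB`); gys_tors is replaced by HCR.gys_tors' (or the end of the proof by HCR.JJ_tors'), and
K is infinite because of CharZero (instance Infinite K: e.g. `inferInstance` or CharZero.infinite).
-/
theorem stepB' {K : Type} [Field K] [CharZero K] (m e : ℕ) (he : e + 1 < m)
    (f : MvPolynomial (Fin m) K)
    (h : AT K (rel f : Polynomial (Polynomial (MvPolynomial (Fin m) K))) (e + 1)) : AT K f e := by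
  classical
  rw [AT_iff] at h ⊢
  intro p hfp hdp
  obtain ⟨E, hr, hE, hy, hg, hl⟩ := exists_cyl f e p hfp hdp
  obtain ⟨N, hN, hNE⟩ := h E hr hE
  obtain ⟨T, hT⟩ := rho_Rt f e _ hNE
  have hinf : Infinite K := inferInstance
  obtain ⟨c, hc⟩ := Infinite.exists_notMem_finset (insert 0 T)
  rw [Finset.mem_insert, not_or] at hc
  have h1 := hT c hc.1 hc.2
  rw [map_zsmul, rho_cyl f c e p hdp E hr hE hy hg hl] at h1
  obtain ⟨N', hN', h2⟩ := JJ_tors' he f _ h1
  refine ⟨N' * N, Nat.mul_pos hN' hN, ?_⟩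
  rw [Nat.cast_mul, mul_smul]
  exact h2

/-- The substitution `X 0 ↦ a`, `X 1 ↦ b`. -/
noncomputable def S1_t {K : Type} [Field K] {m : ℕ} (a b : MvPolynomial (Fin (m + 2)) K) :
    MvPolynomial (Fin (m + 2)) K →ₐ[K] MvPolynomial (Fin (m + 2)) K :=
  aeval (Fin.cons (α := fun _ => MvPolynomial (Fin (m + 2)) K) a
    (Fin.cons (α := fun _ => MvPolynomial (Fin (m + 2)) K) b (fun k => X k.succ.succ)))

theorem S1_t0 {K : Type} [Field K] {m : ℕ} (a b : MvPolynomial (Fin (m + 2)) K) : S1_t a b (X 0) = a := by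
  unfold S1_t
  rw [aeval_X]
  rfl

theorem S1_t1 {K : Type} [Field K] {m : ℕ} (a b : MvPolynomial (Fin (m + 2)) K) : S1_t a b (X 1) = b := by
  unfold S1_t
  rw [aeval_X]
  rfl

theorem S1_ts {K : Type} [Field K] {m : ℕ} (a b : MvPolynomial (Fin (m + 2)) K) (k : Fin m) :
    S1_t a b (X k.succ.succ) = X k.succ.succ := by
  unfold S1_t
  rw [aeval_X]
  rfl

theorem S1_tr {K : Type} [Field K] {m : ℕ} (a b : MvPolynomial (Fin (m + 2)) K) (g : MvPolynomial (Fin m) K) :
    S1_t a b (rename (Fin.succ ∘ Fin.succ) g) = rename (Fin.succ ∘ Fin.succ) g := by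
  have h : (S1_t a b).comp (rename (Fin.succ ∘ Fin.succ)) =
      (rename (Fin.succ ∘ Fin.succ) : MvPolynomial (Fin m) K →ₐ[K] MvPolynomial (Fin (m + 2)) K) := by
    apply algHom_ext
    intro i
    rw [AlgHom.comp_apply, rename_X]
    exact S1_ts a b i
  exact congrArg (fun g' : MvPolynomial (Fin m) K →ₐ[K] MvPolynomial (Fin (m + 2)) K => g' g) h

theorem S1_comp {K : Type} [Field K] {m : ℕ} (a b a' b' : MvPolynomial (Fin (m + 2)) K)
    (h0 : S1_t a b a' = X 0) (h1 : S1_t a b b' = X 1) : (S1_t a b).comp (S1_t a' b') = AlgHom.id K _ := by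
  apply algHom_ext
  intro i
  rw [AlgHom.comp_apply, AlgHom.id_apply]
  refine Fin.cases ?_ (fun j => Fin.cases ?_ (fun k => ?_) j) i
  · rw [S1_t0, h0]
  · change S1_t a b (S1_t a' b' (X 1)) = X 1
    rw [S1_t1, h1]
  · rw [S1_ts, S1_ts]

/-- `X 0 ↦ X 0 + p`, `X 1 ↦ - X 1 - B` -/
noncomputable def S1_th {K : Type} [Field K] {m : ℕ} (B p : MvPolynomial (Fin m) K) :
    MvPolynomial (Fin (m + 2)) K ≃ₐ[K] MvPolynomial (Fin (m + 2)) K :=
  AlgEquiv.ofAlgHom (S1_t (X 0 + rename (Fin.succ ∘ Fin.succ) p) (-X 1 - rename (Fin.succ ∘ Fin.succ) B))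
    (S1_t (X 0 - rename (Fin.succ ∘ Fin.succ) p) (-X 1 - rename (Fin.succ ∘ Fin.succ) B))
    (by
      apply S1_comp
      · rw [map_sub, S1_t0, S1_tr]
        ring
      · rw [map_sub, map_neg, S1_t1, S1_tr]
        ring)
    (by
      apply S1_comp
      · rw [map_add, S1_t0, S1_tr]
        ring
      · rw [map_sub, map_neg, S1_t1, S1_tr]
        ring)

theorem S1_th_unsub {K : Type} [Field K] {m : ℕ} (f₀ B p : MvPolynomial (Fin m) K) :
    S1_th B p (unsub f₀ B p) = rename (Fin.succ ∘ Fin.succ) (f₀ + p * B) - X 0 * X 1 := by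
  change S1_t (X 0 + rename (Fin.succ ∘ Fin.succ) p) (-X 1 - rename (Fin.succ ∘ Fin.succ) B) (unsub f₀ B p) = _
  unfold unsub
  rw [map_add, map_add, map_mul, map_mul, map_sub, S1_t0, S1_t1, S1_tr, S1_tr, S1_tr, map_add, map_mul]
  ring

theorem S1_psi {K : Type} [Field K] (m : ℕ) :
    ∃ φ : MvPolynomial (Fin (m + 2)) K ≃ₐ[K] Polynomial (Polynomial (MvPolynomial (Fin m) K)),
      φ (X 0) = Polynomial.X ∧ φ (X 1) = Polynomial.C Polynomial.X ∧
      ∀ f : MvPolynomial (Fin m) K, φ (rename (Fin.succ ∘ Fin.succ) f) = Polynomial.C (Polynomial.C f) := by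
  let φ : MvPolynomial (Fin (m + 2)) K ≃ₐ[K] Polynomial (Polynomial (MvPolynomial (Fin m) K)) :=
    (MvPolynomial.finSuccEquiv K (m + 1)).trans
      (Polynomial.mapAlgEquiv (MvPolynomial.finSuccEquiv K m))
  have h0 : φ (X 0) = Polynomial.X := by
    change Polynomial.map _ (MvPolynomial.finSuccEquiv K (m + 1) (X 0)) = _
    rw [MvPolynomial.finSuccEquiv_X_zero, Polynomial.map_X]
  have h1 : φ (X 1) = Polynomial.C Polynomial.X := by
    have h2 : (1 : Fin (m + 2)) = (0 : Fin (m + 1)).succ := rfl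
    change Polynomial.map _ (MvPolynomial.finSuccEquiv K (m + 1) (X 1)) = _
    rw [h2, MvPolynomial.finSuccEquiv_X_succ, Polynomial.map_C]
    congr 1
    exact MvPolynomial.finSuccEquiv_X_zero
  have hs : ∀ k : Fin m, φ (X k.succ.succ) = Polynomial.C (Polynomial.C (X k)) := by
    intro k
    change Polynomial.map _ (MvPolynomial.finSuccEquiv K (m + 1) (X k.succ.succ)) = _
    rw [MvPolynomial.finSuccEquiv_X_succ, Polynomial.map_C]
    congr 1
    exact MvPolynomial.finSuccEquiv_X_succ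
  have hC : ∀ a : K, φ (C a) = Polynomial.C (Polynomial.C (C a)) := fun a => φ.commutes a
  clear_value φ
  refine ⟨φ, h0, h1, fun f => ?_⟩
  induction f using MvPolynomial.induction_on with
  | C a =>
    rw [MvPolynomial.rename_C]
    exact hC a
  | add p q hp hq =>
    rw [map_add, map_add, hp, hq, Polynomial.C_add, Polynomial.C_add]
  | mul_X p i hp =>
    rw [map_mul, map_mul, hp, MvPolynomial.rename_X, Polynomial.C_mul, Polynomial.C_mul, Function.comp_apply, hs i]

/-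
PROOF. stepB' for f = f₀ + p * B. It remains: AT K (rel (f₀ + p * B)) (e + 1) from AT K (unsub f₀ B p) (e + 1), by
HCF.AT_equiv for an isomorphism φ : Polynomial (Polynomial (MvPolynomial (Fin m) K)) ≃ₐ[K] MvPolynomial (Fin (m + 2)) K with
φ (rel (f₀ + p * B)) = unsub f₀ B p. Take the isomorphism ψ of HCF/W3a.lean (exists_equiv; see also HCR.C2c exists_equiv2):
ψ : MvPolynomial (Fin (m + 2)) K ≃ₐ Polynomial (Polynomial (MvPolynomial (Fin m) K)), X 0 ↦ X, X 1 ↦ C X, X k.succ.succ ↦ C (C (X k)),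
rename (succ ∘ succ) g ↦ C (C g), and first the automorphism θ of MvPolynomial (Fin (m + 2)) K (or of the Polynomial ring), with
ι = rename (succ ∘ succ), θ (X 0) = X 0 + ι p, θ (X 1) = - X 1 - ι B, θ (X k.succ.succ) = X k.succ.succ (inverse: X 0 ↦ X 0 - ι p,
X 1 ↦ - X 1 - ι B; build both as aeval and AlgEquiv.ofAlgHom). θ (unsub f₀ B p) = ι f₀ + (X 0 + ι p) * ι B + (- X 1 - ι B) * X 0
= ι (f₀ + p * B) - X 0 * X 1, and ψ of it is C (C (f₀ + p * B)) - X * C X = rel (f₀ + p * B) (rel f = C (C f) - X * C X, HCF/S0.lean).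
So (ψ (θ (unsub f₀ B p))) = rel (f₀ + p * B): AT_equiv for (θ.trans ψ).symm.
-/
/-- Descent along the substitution `x = p`: `f₀ + p B` and `f₀ + x B + y (x - p)`. -/
theorem AT_unsub {K : Type} [Field K] [CharZero K] {m : ℕ} (f₀ B p : MvPolynomial (Fin m) K)
    (e : ℕ) (he : e + 1 < m) (h : AT K (unsub f₀ B p) (e + 1)) : AT K (f₀ + p * B) e := by
  apply stepB' m e he
  obtain ⟨ψ, h0, h1, hr⟩ := S1_psi (K := K) m
  have hft : Algebra.FiniteType K (Polynomial (Polynomial (MvPolynomial (Fin m) K))) :=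
    Algebra.FiniteType.equiv inferInstance ψ
  have hrel : ((S1_th B p).trans ψ) (unsub f₀ B p) = rel (f₀ + p * B) := by
    rw [AlgEquiv.trans_apply, S1_th_unsub, map_sub, map_mul, hr, h0, h1]
    rfl
  apply AT_equiv ((S1_th B p).trans ψ).symm
  rw [← hrel, AlgEquiv.symm_apply_apply]
  exact h

end Pool.Agent.HCT
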