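import Pool.Agent.HCT.S1

namespace Pool.Agent.HCT

open Pool.Agent.HCH Pool.Agent.HCF Pool.Agent.HCR MvPolynomial

/-- the permutation `0 ↦ 2`, `1 ↦ 0`, `2 ↦ 1` -/
def S2_tau (m : ℕ) : Equiv.Perm (Fin (m + 3)) := Equiv.swap 1 2 * Equiv.swap 0 1

theorem S2_ne (m : ℕ) : (0 : Fin (m + 3)) ≠ 1 ∧ (0 : Fin (m + 3)) ≠ 2 ∧ (1 : Fin (m + 3)) ≠ 2 := by
  refine ⟨?_, ?_, ?_⟩ <;> intro h <;> have h1 := congrArg Fin.val h
  · rw [Fin.val_zero, Fin.val_one] at h1
    omega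
  · rw [Fin.val_zero, Fin.val_two] at h1
    omega
  · rw [Fin.val_one, Fin.val_two] at h1
    omega

theorem S2_tau0 (m : ℕ) : S2_tau m 0 = 2 := by
  unfold S2_tau
  rw [Equiv.Perm.mul_apply, Equiv.swap_apply_left, Equiv.swap_apply_left]

theorem S2_tau1 (m : ℕ) : S2_tau m 1 = 0 := by
  obtain ⟨h1, h2, h3⟩ := S2_ne m
  unfold S2_tau
  rw [Equiv.Perm.mul_apply, Equiv.swap_apply_right, Equiv.swap_apply_of_ne_of_ne h1 h2]

theorem S2_tau2 (m : ℕ) : S2_tau m 2 = 1 := by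
  obtain ⟨h1, h2, h3⟩ := S2_ne m
  unfold S2_tau
  rw [Equiv.Perm.mul_apply, Equiv.swap_apply_of_ne_of_ne h2.symm h3.symm, Equiv.swap_apply_right]

theorem S2_taus (m : ℕ) (k : Fin m) : S2_tau m k.succ.succ.succ = k.succ.succ.succ := by
  have h : k.succ.succ.succ.val = k.val + 3 := by
    simp only [Fin.val_succ]
  have h0 : k.succ.succ.succ ≠ 0 := Fin.succ_ne_zero _
  have h1 : k.succ.succ.succ ≠ 1 := by
    intro h1
    have h2 := congrArg Fin.val h1
    rw [h, Fin.val_one] at h2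
    omega
  have h2 : k.succ.succ.succ ≠ 2 := by
    intro h1
    have h2 := congrArg Fin.val h1
    rw [h, Fin.val_two] at h2
    omega
  unfold S2_tau
  rw [Equiv.Perm.mul_apply, Equiv.swap_apply_of_ne_of_ne h0 h1, Equiv.swap_apply_of_ne_of_ne h1 h2]

theorem S2_eq {m : ℕ} (f₀ B p : MvPolynomial (Fin m) ℂ) :
    rename (S2_tau m) (tw 3 (unsub f₀ B p)) = unsub (tw 3 f₀)
      (rename Fin.succ (HCH.ext ℂ (RatFunc ℂ) m B)) (rename Fin.succ (HCH.ext ℂ (RatFunc ℂ) m p)) := by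
  have hr : ∀ g : MvPolynomial (Fin m) ℂ, rename (S2_tau m) (rename Fin.succ
      (HCH.ext ℂ (RatFunc ℂ) (m + 2) (rename (Fin.succ ∘ Fin.succ) g))) =
      rename (Fin.succ ∘ Fin.succ) (rename Fin.succ (HCH.ext ℂ (RatFunc ℂ) m g)) := by
    intro g
    unfold HCH.ext
    rw [map_rename, rename_rename, rename_rename, rename_rename]
    have h1 : (⇑(S2_tau m) ∘ Fin.succ) ∘ (Fin.succ ∘ Fin.succ) = (Fin.succ ∘ Fin.succ) ∘ (Fin.succ : Fin m → Fin (m + 1)) := by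
      funext k
      exact S2_taus m k
    rw [← h1]
  have h0 : HCH.ext ℂ (RatFunc ℂ) (m + 2) (X 0) = X 0 := by
    unfold HCH.ext
    exact map_X _ _
  have h1 : HCH.ext ℂ (RatFunc ℂ) (m + 2) (X 1) = X 1 := by
    unfold HCH.ext
    exact map_X _ _
  have e0 : (Fin.succ 0 : Fin (m + 3)) = 1 := rfl
  have e1 : (Fin.succ 1 : Fin (m + 3)) = 2 := rfl
  have e2 : ((Fin.succ ∘ Fin.succ) 0 : Fin (m + 3)) = 2 := rfl
  unfold unsub tw
  simp only [map_add, map_mul, map_sub, map_pow, h0, h1, hr, rename_X, rename_C, e0, e1, e2, S2_tau0, S2_tau1, S2_tau2]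
  ring

/-
PROOF. k = RatFunc ℂ, CharZero. E g := rename Fin.succ (HCH.ext ℂ k m g) : MvPolynomial (Fin (m + 1)) k (a ring homomorphism in g). tw 3 g = E g + C (1 + X ^ 3) * X 0 ^ 3,
so tw 3 (f₀ + p * B) = tw 3 f₀ + E p * E B. AT_unsub over k for tw 3 f₀, E B, E p : Fin (m + 1), e, e + 1 < m + 1. It remains
AT k (unsub (tw 3 f₀) (E B) (E p)) (e + 1), in MvPolynomial (Fin (m + 3)) k, from AT k (tw 3 (unsub f₀ B p)) (e + 1). In
tw 3 (unsub f₀ B p) the variable X 0 is the new variable of tw, X 1 and X 2 are the variables X 0 and X 1 of unsub; in unsub (tw 3 f₀) .. the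
variables X 0, X 1 are the new ones and X 2 is the variable X 0 of tw. So rename τ (tw 3 (unsub f₀ B p)) = unsub (tw 3 f₀) (E B) (E p) for the
permutation τ : 0 ↦ 2, 1 ↦ 0, 2 ↦ 1, k ↦ k (k ≥ 3) of Fin (m + 3) (write it as a product of two Equiv.swap and check the values). HCF.AT_equiv with renameEquiv. For the identity: everything is a ring homomorphism in the coefficients; use rename_rename,
map_rename, map_X, and rename of f along two maps Fin m → Fin (m + 3) which agree.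
-/
theorem AT_tw_unsub {m : ℕ} (f₀ B p : MvPolynomial (Fin m) ℂ) (e : ℕ) (he : e < m)
    (h : AT (RatFunc ℂ) (tw 3 (unsub f₀ B p)) (e + 1)) : AT (RatFunc ℂ) (tw 3 (f₀ + p * B)) e := by
  have h1 : tw 3 (f₀ + p * B) = tw 3 f₀ + rename Fin.succ (HCH.ext ℂ (RatFunc ℂ) m p) *
      rename Fin.succ (HCH.ext ℂ (RatFunc ℂ) m B) := by
    unfold tw
    rw [map_add, map_mul, map_add, map_mul]
    ring
  rw [h1]
  apply AT_unsub _ _ _ e (by omega)
  apply AT_equiv (renameEquiv (RatFunc ℂ) (S2_tau m)).symm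
  have h2 : (renameEquiv (RatFunc ℂ) (S2_tau m)).symm (unsub (tw 3 f₀)
      (rename Fin.succ (HCH.ext ℂ (RatFunc ℂ) m B)) (rename Fin.succ (HCH.ext ℂ (RatFunc ℂ) m p))) =
      tw 3 (unsub f₀ B p) := by
    rw [AlgEquiv.symm_apply_eq, renameEquiv_apply, S2_eq]
  rw [h2]
  exact h

end Pool.Agent.HCT
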