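import Pool.Agent.HCT.Defs

namespace Pool.Agent.HCT

open Pool.Agent.HCH Pool.Agent.HCF Pool.Agent.HCR MvPolynomial

private theorem S3_pd {K : Type} [Field K] {m : ℕ} (g : MvPolynomial (Fin m) K) (k : Fin m) :
    pderiv k.succ.succ (rename (Fin.succ ∘ Fin.succ) g : MvPolynomial (Fin (m + 2)) K) =
      rename (Fin.succ ∘ Fin.succ) (pderiv k g) :=
  pderiv_rename (f := (Fin.succ ∘ Fin.succ : Fin m → Fin (m + 2)))
    ((Fin.succ_injective _).comp (Fin.succ_injective _)) k g

private theorem S3_pd' {K : Type} [Field K] {m : ℕ} (g : MvPolynomial (Fin m) K)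
    (l : Fin (m + 2)) (hl : l = 0 ∨ l = 1) :
    pderiv l (rename (Fin.succ ∘ Fin.succ) g : MvPolynomial (Fin (m + 2)) K) = 0 := by
  apply pderiv_rename_ne
  rintro ⟨k, hk⟩
  have h1 := congrArg Fin.val hk
  rcases hl with rfl | rfl
  · change k.val + 2 = 0 at h1
    omega
  · change k.val + 2 = 1 % (m + 2) at h1
    rw [Nat.mod_eq_of_lt (by omega)] at h1
    omega

/-
PROOF. u = unsub f₀ B p, ι = rename (succ ∘ succ). Let y : Fin (m + 2) → K be a critical point, x k = y k.succ.succ. pderiv_rename (injective),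
pderiv of rename along a variable outside of the range is 0 (HCF.pderiv_rename_ne), eval_rename.
pderiv 1 u = X 0 - ι p: y 0 = eval x p. pderiv 0 u = ι B + X 1: y 1 = - eval x B.
pderiv k.succ.succ u = ι (∂_k f₀) + X 0 * ι (∂_k B) - X 1 * ι (∂_k p): ∂_k f₀ (x) + p(x) ∂_k B (x) + B(x) ∂_k p (x) = 0, which is
∂_k (f₀ + p * B) (x) = 0. So x = 0 by h, y 0 = p(0) = 0, y 1 = - B(0) = 0.
-/
theorem iso_unsub {K : Type} [Field K] {m : ℕ} (f₀ B p : MvPolynomial (Fin m) K)
    (hp : eval 0 p = 0) (hB : eval 0 B = 0) (h : Iso (f₀ + p * B)) : Iso (unsub f₀ B p) := by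
  intro y hy
  obtain ⟨x, hx⟩ : ∃ x : Fin m → K, x = fun k => y k.succ.succ := ⟨_, rfl⟩
  have hev : ∀ g : MvPolynomial (Fin m) K, eval y (rename (Fin.succ ∘ Fin.succ) g) = eval x g := by
    intro g
    rw [eval_rename, hx]
    rfl
  have n01 : (0 : Fin (m + 2)) ≠ 1 := by
    intro h0
    have h1 := congrArg Fin.val h0
    change 0 % (m + 2) = 1 % (m + 2) at h1
    rw [Nat.mod_eq_of_lt (by omega), Nat.mod_eq_of_lt (by omega)] at h1
    omega
  have h1 : y 0 = eval x p := by
    have h2 := hy 1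
    unfold unsub at h2
    simp only [map_add, map_sub, pderiv_mul, S3_pd' _ (1 : Fin (m + 2)) (Or.inr rfl),
      pderiv_X_self, pderiv_X_of_ne n01, zero_mul, mul_zero, zero_add, add_zero, one_mul,
      sub_zero, eval_X, hev] at h2
    exact sub_eq_zero.mp h2
  have h2 : y 1 = - eval x B := by
    have h2 := hy 0
    unfold unsub at h2
    simp only [map_add, map_sub, pderiv_mul, S3_pd' _ (0 : Fin (m + 2)) (Or.inl rfl),
      pderiv_X_self, pderiv_X_of_ne n01.symm, zero_mul, mul_zero, zero_add, add_zero, one_mul,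
      mul_one, sub_zero, eval_X, hev] at h2
    exact (neg_eq_of_add_eq_zero_right h2).symm
  have hx0 : x = 0 := by
    apply h
    intro k
    have h3 := hy k.succ.succ
    unfold unsub at h3
    have n0 : (0 : Fin (m + 2)) ≠ k.succ.succ := (Fin.succ_ne_zero _).symm
    have n1 : (1 : Fin (m + 2)) ≠ k.succ.succ := by
      intro h0
      have h1 := congrArg Fin.val h0
      change 1 % (m + 2) = k.val + 2 at h1
      rw [Nat.mod_eq_of_lt (by omega)] at h1
      omega
    simp only [map_add, map_sub, pderiv_mul, S3_pd, pderiv_X_of_ne n0, pderiv_X_of_ne n1,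
      zero_mul, zero_add, zero_sub, map_mul, map_neg, eval_X, hev, h1, h2] at h3
    rw [map_add, pderiv_mul, map_add, map_add, map_mul, map_mul]
    linear_combination h3
  rw [hx0] at h1 h2
  funext l
  refine Fin.cases ?_ (fun l => ?_) l
  · rw [h1, hp]
    rfl
  refine Fin.cases ?_ (fun l => ?_) l
  · change y 1 = 0
    rw [h2, hB, neg_zero]
  · exact (congrFun hx l).symm.trans (congrFun hx0 l)

end Pool.Agent.HCT
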