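import Pool.Agent.HCT.Defs

namespace Pool.Agent.HCT

open Pool.Agent.HCH Pool.Agent.HCF Pool.Agent.HCR MvPolynomial

/-- the first variable is integral over the others on `f + x ^ D = 0` -/
private theorem T1_dm {K : Type} [Field K] {m : ℕ} (D : ℕ) (hD : 1 ≤ D)
    (f : MvPolynomial (Fin m) K) (P : PrimeSpectrum (MvPolynomial (Fin (m + 1)) K))
    (h : sus D f ∈ P.asIdeal) :
    dm K (P.asIdeal.comap (rename Fin.succ : MvPolynomial (Fin m) K →ₐ[K] _)) =
      dm K P.asIdeal := by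
  have hP := P.isPrime
  have hp : (P.asIdeal.comap (rename Fin.succ : MvPolynomial (Fin m) K →ₐ[K]
    MvPolynomial (Fin (m + 1)) K)).IsPrime := Ideal.comap_isPrime _ _
  let φ : MvPolynomial (Fin m) K →ₐ[K] MvPolynomial (Fin (m + 1)) K := rename Fin.succ
  unfold dm
  congr 1
  let F : (MvPolynomial (Fin m) K ⧸ P.asIdeal.comap φ) →ₐ[K]
      (MvPolynomial (Fin (m + 1)) K ⧸ P.asIdeal) := Ideal.quotientMapₐ P.asIdeal φ le_rfl
  have hF : Function.Injective F := Ideal.quotientMap_injective' (H := le_rfl) le_rfl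
  have hFmk : ∀ a, F (Ideal.Quotient.mk _ a) = Ideal.Quotient.mk P.asIdeal (φ a) := fun a => rfl
  have hnt : Nontrivial (MvPolynomial (Fin m) K ⧸ P.asIdeal.comap φ) :=
    Ideal.Quotient.nontrivial_iff.mpr hp.ne_top
  refine trdeg_alg_top K _ _ F hF ?_
  have hint : ∀ b : MvPolynomial (Fin (m + 1)) K,
      (F : (MvPolynomial (Fin m) K ⧸ P.asIdeal.comap φ) →+*
        (MvPolynomial (Fin (m + 1)) K ⧸ P.asIdeal)).IsIntegralElem
        (Ideal.Quotient.mk P.asIdeal b) := by
    intro b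
    induction b using MvPolynomial.induction_on with
    | C a =>
      have h1 : Ideal.Quotient.mk P.asIdeal (C a) =
          (F : (MvPolynomial (Fin m) K ⧸ P.asIdeal.comap φ) →+*
        (MvPolynomial (Fin (m + 1)) K ⧸ P.asIdeal)) (Ideal.Quotient.mk _ (C a)) := by
        change _ = F (Ideal.Quotient.mk _ (C a))
        rw [hFmk]
        congr 1
        change C a = rename Fin.succ (C a)
        rw [rename_C]
      rw [h1]
      exact RingHom.isIntegralElem_map _
    | add x y hx hy =>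
      rw [map_add]
      exact hx.add _ hy
    | mul_X x i hx =>
      rw [map_mul]
      refine hx.mul _ ?_
      refine Fin.cases ?_ (fun i => ?_) i
      · refine ⟨Polynomial.X ^ D + Polynomial.C (Ideal.Quotient.mk _ f),
          Polynomial.monic_X_pow_add_C _ (by omega), ?_⟩
        rw [Polynomial.eval₂_add, Polynomial.eval₂_X_pow, Polynomial.eval₂_C]
        change Ideal.Quotient.mk P.asIdeal (X 0) ^ D + F (Ideal.Quotient.mk _ f) = 0
        rw [hFmk, ← map_pow, ← map_add, Ideal.Quotient.eq_zero_iff_mem]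
        have h' := h
        unfold sus at h'
        rw [add_comm (rename Fin.succ f) (X 0 ^ D)] at h'
        exact h'
      · have h1 : Ideal.Quotient.mk P.asIdeal (X i.succ) =
            (F : (MvPolynomial (Fin m) K ⧸ P.asIdeal.comap φ) →+*
          (MvPolynomial (Fin (m + 1)) K ⧸ P.asIdeal)) (Ideal.Quotient.mk _ (X i)) := by
          change _ = F (Ideal.Quotient.mk _ (X i))
          rw [hFmk]
          congr 1
          change X i.succ = rename Fin.succ (X i)
          rw [rename_X]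
        rw [h1]
        exact RingHom.isIntegralElem_map _
  intro b
  obtain ⟨b, rfl⟩ := Ideal.Quotient.mk_surjective b
  obtain ⟨p, hpm, hp0⟩ := hint b
  exact ⟨p, hpm.ne_zero, hp0⟩

private theorem T1_ext_rename {k L : Type} [Field k] [Field L] [Algebra k L] {m : ℕ}
    (f : MvPolynomial (Fin m) k) : HCH.ext k L (m + 1) (rename Fin.succ f) =
      rename Fin.succ (HCH.ext k L m f) := by
  unfold HCH.ext
  rw [MvPolynomial.map_rename]

private theorem T1_dg {L : Type} [Field L] {m : ℕ} (u : Lˣ) (f : MvPolynomial (Fin m) L) :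
    dg (Fin.cons u (fun _ => 1) : Fin (m + 1) → Lˣ) (rename Fin.succ f) = rename Fin.succ f := by
  have h : ((dg (Fin.cons u (fun _ => 1) : Fin (m + 1) → Lˣ) :
      MvPolynomial (Fin (m + 1)) L →ₐ[L] MvPolynomial (Fin (m + 1)) L)).comp
      (rename Fin.succ) = (rename Fin.succ : MvPolynomial (Fin m) L →ₐ[L] _) := by
    apply algHom_ext
    intro k
    rw [AlgHom.comp_apply, rename_X]
    change dg _ (X k.succ) = X k.succ
    rw [dg_X, Fin.cons_succ, Units.val_one, C_1, one_mul]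
  exact congrArg (fun g : MvPolynomial (Fin m) L →ₐ[L] MvPolynomial (Fin (m + 1)) L => g f) h

/-
PROOF. The proof of HCR/U2h.lean (tw_of_onto), with deh F replaced by f, j by e (e < n), after the line `rw [deh_sus] at h1`: h1 is the hypothesis h (its private lemmas U2h_dm, U2h_ext_rename,
U2h_dg have to be copied).
-/
/-- Rigidity along the elliptic curve gives torsion for the twist over `ℂ(t)`. -/
theorem tw_of_rig {n : ℕ} (f : MvPolynomial (Fin n) ℂ) (e : ℕ) (he : e < n)
    (h : Rig (sus 3 f) e) : AT (RatFunc ℂ) (tw 3 f) e := by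
  have hfin := (FF_finite 3 (by omega)).1
  have h1 := h
  unfold Rig at h1
  obtain ⟨s, hs0⟩ := exists_s 3 (by omega)
  obtain ⟨ε, hε⟩ := IsAlgClosed.exists_pow_nat_eq (-1 : ℂ) (show 0 < 3 by omega)
  let s₁ : FF 3 := algebraMap ℂ (FF 3) ε * s
  have hs₁ : s₁ ^ 3 = algebraMap (RatFunc ℂ) (FF 3) (1 + RatFunc.X ^ 3) := by
    rw [mul_pow, ← map_pow, hε, map_neg, map_one, map_add, map_one, map_pow]
    linear_combination -hs0
  have hne : (1 + RatFunc.X ^ 3 : RatFunc ℂ) ≠ 0 := by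
    intro h
    have h1 : algebraMap (Polynomial ℂ) (RatFunc ℂ) (Polynomial.X ^ 3 + Polynomial.C 1) = 0 := by
      rw [map_add, map_pow, RatFunc.algebraMap_X, Polynomial.C_1, map_one, add_comm]
      exact h
    have h2 : (Polynomial.X ^ 3 + Polynomial.C 1 : Polynomial ℂ) = 0 := by
      rw [← map_zero (algebraMap (Polynomial ℂ) (RatFunc ℂ))] at h1
      exact RatFunc.algebraMap_injective ℂ h1
    exact Polynomial.X_pow_add_C_ne_zero (by omega) (1 : ℂ) h2
  have hs₁0 : s₁ ≠ 0 := by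
    intro h0
    rw [h0, zero_pow (by omega)] at hs₁
    exact hne ((map_eq_zero _).mp hs₁.symm)
  let α := dg (Fin.cons (Units.mk0 s₁ hs₁0) (fun _ => 1) : Fin (n + 1) → (FF 3)ˣ)
  have hα : ∀ y, α (rename Fin.succ y) = rename Fin.succ y := fun y => T1_dg _ y
  have hα' : ∀ y, α.symm (rename Fin.succ y) = rename Fin.succ y := fun y => by
    rw [AlgEquiv.symm_apply_eq, hα]
  have hcomp : ∀ (n : ℕ) (y : MvPolynomial (Fin n) ℂ), HCH.ext (RatFunc ℂ) (FF 3) n
      (HCH.ext ℂ (RatFunc ℂ) n y) = HCH.ext ℂ (FF 3) n y := by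
    intro n y
    have := ext_comp (k := ℂ) (E := RatFunc ℂ) (L := FF 3) n
    rw [← this]
    rfl
  have hαg : α (HCH.ext ℂ (FF 3) (n + 1) (sus 3 f)) =
      HCH.ext (RatFunc ℂ) (FF 3) (n + 1) (tw 3 f) := by
    rw [ext_sus]
    unfold sus tw
    rw [map_add, map_add, hα, T1_ext_rename, hcomp, map_pow, map_mul, map_pow]
    congr 1
    change dg _ (X 0) ^ 3 = _
    rw [dg_X, Fin.cons_zero, Units.val_mk0, mul_pow, ← C_pow, hs₁]
    unfold HCH.ext
    rw [MvPolynomial.map_C, MvPolynomial.map_X]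
  have h2 : Gen (FF 3) (α.symm (HCH.ext (RatFunc ℂ) (FF 3) (n + 1) (tw 3 f))) e
      (fun Q => ∃ p : PrimeSpectrum (MvPolynomial (Fin (n + 1)) ℂ),
      sus 3 f ∈ p.asIdeal ∧ Q = bc (FF 3) p) := by
    rw [← hαg, AlgEquiv.symm_apply_apply]
    exact h1
  have h3 := gen_finite (k := RatFunc ℂ) (L := FF 3) (tw 3 f) e _ (Gen.equiv α.symm h2)
  rw [← Gen_false_iff]
  refine h3.trans ?_
  rintro q hq hdq ⟨Q, hQq, q', hq'Q, p', hp', rfl⟩
  have hdQ : dm (FF 3) Q.asIdeal = e := by
    have h10 : (PrimeSpectrum.comap (HCH.ext (RatFunc ℂ) (FF 3) (n + 1))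
        Q).asIdeal = q.asIdeal := by
      have := congrArg PrimeSpectrum.asIdeal hQq
      exact this
    refine (dm_alg (k := RatFunc ℂ) (E := FF 3) Q.asIdeal).symm.trans ?_
    refine Eq.trans ?_ hdq
    exact congrArg (dm (RatFunc ℂ)) h10
  have hdp' : dm ℂ p'.asIdeal = e := by
    refine (dm_bc (L := FF 3) p').symm.trans (Eq.trans ?_ hdQ)
    have h10 := congrArg PrimeSpectrum.asIdeal hq'Q
    refine Eq.trans ?_ (congrArg (dm (FF 3)) h10)
    exact (dm_comap (α.symm : MvPolynomial (Fin (n + 1)) (FF 3) →ₐ[FF 3]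
      MvPolynomial (Fin (n + 1)) (FF 3)) α.symm.surjective (bc (FF 3) p').asIdeal).symm
  let p : PrimeSpectrum (MvPolynomial (Fin n) ℂ) :=
    ⟨p'.asIdeal.comap (rename Fin.succ : MvPolynomial (Fin n) ℂ →ₐ[ℂ] _),
      Ideal.comap_isPrime _ _⟩
  have hdp : dm ℂ p.asIdeal = e := by
    refine Eq.trans ?_ hdp'
    exact T1_dm 3 (by omega) f p' hp'
  obtain ⟨N, hN, hz⟩ := cst_tors 3 (by omega) f p e (by omega) hdp q hq (by
    intro r hr
    rw [← hQq]
    change HCH.ext (RatFunc ℂ) (FF 3) (n + 1)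
      (rename Fin.succ (HCH.ext ℂ (RatFunc ℂ) n r)) ∈ Q.asIdeal
    rw [T1_ext_rename, hcomp, ← hq'Q]
    change α.symm (rename Fin.succ (HCH.ext ℂ (FF 3) n r)) ∈ (bc (FF 3) p').asIdeal
    rw [hα', ← T1_ext_rename]
    exact Ideal.mem_map_of_mem _ hr) hdq
  exact ⟨N, hN, AddSubgroup.mem_sup_left hz⟩

end Pool.Agent.HCT
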