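import Pool.Agent.HCT.L3
import Pool.Agent.HCT.L4

namespace Pool.Agent.HCT

open Pool.Agent.HCH Pool.Agent.HCF Pool.Agent.HCR MvPolynomial

/-
PROOF. Unfold Rig; HCR.aff_onto 3 G (j + 1) (j + 2 < 2 j + 2), it needs AT (RatFunc ℂ) (tw 3 (sus 3 G)) (j + 2). HCR.tw_of_AT 3 (sus 3 G) (j + 2): (1) AT ℂ (suspA 3 (sus 3 G)) (j + 3): h ℂ (j + 1) with N = 2 j + 5, r = 0 (qh_suspA, qh_sus, critle_suspA,
critle_sus, critle_of_iso), N - 1 - (j + 1) = j + 3. (2) AT (RatFunc ℂ) (ext ℂ (RatFunc ℂ) _ (sus 3 G)) (j + 2): descend_AT (L = AlgebraicClosure (RatFunc ℂ), closure_equiv), h L j with N = 2 j + 3, r = 0 (qh_map, critle_ext twice,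
N - 1 - j = j + 2). See HCR/V1k.lean (tw_of_hc).
-/
theorem rig_of_hcw (h : ∀ (K : Type) [Field K], Nonempty (K ≃+* ℂ) → ∀ c, 1 ≤ c → HCW K c)
    (j : ℕ) (hj : 1 ≤ j) (G : MvPolynomial (Fin (2 * j + 2)) ℂ) (hq : QH G) (hs : Iso G) :
    Rig G (j + 1) := by
  unfold Rig
  apply HCR.aff_onto 3 (by omega) G (j + 1) (by omega)
  apply HCR.tw_of_AT 3 (by omega) (sus 3 G) (j + 2)
  · have h1 := h ℂ ⟨RingEquiv.refl ℂ⟩ (j + 1) (by omega) (2 * j + 5) 0 (by omega)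
      (suspA 3 (sus 3 G)) (qh_suspA _ (qh_sus _ hq))
      (critle_suspA _ 0 (critle_sus _ 0 (critle_of_iso G hs)))
    have e : 2 * j + 5 - 1 - (j + 1) = j + 2 + 1 := by omega
    rw [e] at h1
    exact h1
  · have cR : CharZero (RatFunc ℂ) := charZero_of_injective_algebraMap (algebraMap ℂ _).injective
    have hΩ : Nonempty (AlgebraicClosure (RatFunc ℂ) ≃+* ℂ) := closure_equiv ⟨RingEquiv.refl ℂ⟩
    apply descend_AT (L := AlgebraicClosure (RatFunc ℂ))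
    have h1 := h (AlgebraicClosure (RatFunc ℂ)) hΩ j hj (2 * j + 3) 0 (by omega)
      (ext (RatFunc ℂ) (AlgebraicClosure (RatFunc ℂ)) (2 * j + 2 + 1)
        (ext ℂ (RatFunc ℂ) (2 * j + 2 + 1) (sus 3 G)))
      (qh_map _ _ (qh_map _ _ (qh_sus _ hq)))
      (critle_ext _ 0 (critle_ext _ 0 (critle_sus _ 0 (critle_of_iso G hs))))
    have e : 2 * j + 3 - 1 - j = j + 2 := by omega
    rw [e] at h1
    exact h1

end Pool.Agent.HCT
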