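import Pool.Agent.HCT.R4
import Pool.Agent.HCT.S2
import Pool.Agent.HCT.T1
import Pool.Agent.HCT.L3
import Pool.Agent.HCT.L4

namespace Pool.Agent.HCT

open Pool.Agent.HCH Pool.Agent.HCF Pool.Agent.HCR MvPolynomial

/-
PROOF. reduce with n₀ = 3 and P n f := AT (RatFunc ℂ) (tw 3 f) ((n + 1) / 2). Stb 3 P: AT_tw_unsub with e = (n + 1) / 2 < n ((n + 2 + 1) / 2 = e + 1). hNF: n = 2 a + 1 ≥ 3; take j ≥ n from h, 2 j + 1 = n + 2 k; for all N' with N' = 2 j + 1 (subst):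
tw_of_rig g (j + 1) (j + 1 < 2 j + 1).
-/
theorem tw_all (h : ∀ j₀, ∃ j ≥ j₀, ∀ g : MvPolynomial (Fin (2 * j + 1)) ℂ, NF g → QH g → Iso g →
    Rig (sus 3 g) (j + 1)) (n : ℕ) (hn : 3 ≤ n) (ho : Odd n) (G : MvPolynomial (Fin n) ℂ)
    (hq : QH G) (h2 : Low2 G) (hs : Iso G) : AT (RatFunc ℂ) (tw 3 G) ((n + 1) / 2) := by
  refine reduce 3 (fun n f => AT (RatFunc ℂ) (tw 3 f) ((n + 1) / 2)) ?_ ?_ n hn ho G hq h2 hs
  · intro n f₀ B p hn hP
    have e1 : (n + 2 + 1) / 2 = (n + 1) / 2 + 1 := by omega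
    have hP' : AT (RatFunc ℂ) (tw 3 (unsub f₀ B p)) ((n + 2 + 1) / 2) := hP
    rw [e1] at hP'
    exact AT_tw_unsub f₀ B p ((n + 1) / 2) (by omega) hP'
  · intro n hn ho
    obtain ⟨j, hj, hg⟩ := h n
    obtain ⟨a, ha⟩ := ho
    refine ⟨j - a, ?_⟩
    have key : ∀ N' : ℕ, N' = 2 * j + 1 → ∀ g : MvPolynomial (Fin N') ℂ, NF g → QH g → Iso g →
        AT (RatFunc ℂ) (tw 3 g) ((N' + 1) / 2) := by
      rintro N' rfl g h1 h2 h3
      have e2 : (2 * j + 1 + 1) / 2 = j + 1 := by omega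
      rw [e2]
      exact tw_of_rig g (j + 1) (by omega) (hg g h1 h2 h3)
    exact key (n + 2 * (j - a)) (by omega)

/-
PROOF. ε : K ≃+* ℂ; G^ε = map ε G over ℂ (qh_map, low2_map, iso_map). n is odd and ≥ 3, e = (n + 1) / 2 + 1. gen_of_tw 3 G^ε ((n + 1) / 2): Gen ℂ (suspA 3 G^ε) e (MemP 0 1); back to K as in HCR/E2i.lean (genCrit_equiv), with gen_semi.
-/
theorem gc_of_tw (h : ∀ n, 3 ≤ n → Odd n → ∀ G : MvPolynomial (Fin n) ℂ, QH G → Low2 G → Iso G →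
    AT (RatFunc ℂ) (tw 3 G) ((n + 1) / 2)) (K : Type) [Field K] (ε : Nonempty (K ≃+* ℂ)) :
    GC K := by
  obtain ⟨ε⟩ := ε
  intro n e hne he G hq h2 hs
  have h0 : AT (RatFunc ℂ) (tw 3 (MvPolynomial.map (ε : K →+* ℂ) G)) ((n + 1) / 2) :=
    h n (by omega) ⟨e - 2, by omega⟩ _ (qh_map _ _ hq) (low2_map _ _ h2) (iso_map ε _ hs)
  have h1 := gen_of_tw 3 (MvPolynomial.map (ε : K →+* ℂ) G) ((n + 1) / 2) h0
  have e1 : (n + 1) / 2 + 1 = e := by omega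
  rw [e1] at h1
  have h2 : suspA 3 (MvPolynomial.map (ε : K →+* ℂ) G) =
      MvPolynomial.map (ε : K →+* ℂ) (suspA 3 G) := by
    unfold suspA
    rw [map_add, map_add, map_pow, map_pow, map_X, map_X, map_rename]
  rw [h2] at h1
  refine (gen_semi ε _ _ _ h1).mono ?_
  rintro q - - ⟨Q, rfl, s, t, hst, hmem⟩
  refine ⟨ε.symm s, ε.symm t, ?_, ?_⟩
  · rcases hst with hs | ht
    · left
      exact (map_ne_zero ε.symm).mpr hs
    · right
      exact (map_ne_zero ε.symm).mpr ht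
  · change MvPolynomial.map (ε : K →+* ℂ) (C (ε.symm s) * X 0 - C (ε.symm t) * X 1) ∈ Q.asIdeal
    have h4 : MvPolynomial.map (ε : K →+* ℂ)
        (C (ε.symm s) * X 0 - C (ε.symm t) * X 1 : MvPolynomial (Fin (n + 2)) K) =
        C s * X 0 - C t * X 1 := by
      rw [map_sub, map_mul, map_mul, map_C, map_C, map_X, map_X]
      have h5 : (ε : K →+* ℂ) (ε.symm s) = s := ε.apply_symm_apply s
      have h6 : (ε : K →+* ℂ) (ε.symm t) = t := ε.apply_symm_apply t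
      rw [h5, h6]
    rw [h4]
    exact hmem

end Pool.Agent.HCT
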