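import Pool.Agent.HCT.Defs

namespace Pool.Agent.HCT

open Pool.Agent.HCH Pool.Agent.HCF Pool.Agent.HCR MvPolynomial

/-- `wsub` of a quasi-homogeneous polynomial is homogeneous (on monomials: the image of X_j is a form of degree w j; d is the weighted degree) -/
theorem wsub_homog {m d : ℕ} (w : Fin m → ℕ) (A : Matrix (Fin m) (Fin m) ℂ)
    (G : MvPolynomial (Fin m) ℂ) (hG : IsWeightedHomogeneous w G d) :
    (wsub w A G).IsHomogeneous d := by
  have hX : ∀ j, (∑ b, C (A j b) * X b ^ w j : MvPolynomial (Fin m) ℂ).IsHomogeneous (w j) := by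
    intro j
    apply IsHomogeneous.sum
    intro b _
    have h := (isHomogeneous_C (Fin m) (A j b)).mul ((isHomogeneous_X ℂ b).pow (w j))
    rwa [zero_add, one_mul] at h
  rw [G.as_sum, map_sum]
  apply IsHomogeneous.sum
  intro s hs
  have h1 : Finsupp.weight w s = d := hG (mem_support_iff.1 hs)
  unfold wsub
  rw [aeval_monomial]
  have h2 : (s.prod fun i k => (∑ b, C (A i b) * X b ^ w i : MvPolynomial (Fin m) ℂ) ^ k).IsHomogeneous d := by
    have h3 := IsHomogeneous.prod s.support
      (fun i => (∑ b, C (A i b) * X b ^ w i : MvPolynomial (Fin m) ℂ) ^ s i) (fun i => w i * s i)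
      (fun i _ => (hX i).pow (s i))
    have h4 : ∑ i ∈ s.support, w i * s i = d := by
      rw [← h1, Finsupp.weight_apply, Finsupp.sum]
      exact Finset.sum_congr rfl fun i _ => by rw [smul_eq_mul, mul_comm]
    rw [h4] at h3
    exact h3
  have h3 := (isHomogeneous_C (Fin m) (coeff s G)).mul h2
  rw [zero_add] at h3
  exact h3

theorem W1_eval {m : ℕ} (w : Fin m → ℕ) (A : Matrix (Fin m) (Fin m) ℂ) (x : Fin m → ℂ)
    (H : MvPolynomial (Fin m) ℂ) :
    eval x (wsub w A H) = eval (fun j => ∑ b, A j b * x b ^ w j) H := by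
  have h : (eval x).comp (wsub w A : MvPolynomial (Fin m) ℂ →+* MvPolynomial (Fin m) ℂ) =
      eval (fun j => ∑ b, A j b * x b ^ w j) := by
    apply MvPolynomial.ringHom_ext
    · intro a
      simp [wsub]
    · intro a
      simp [wsub]
  exact congrArg (fun φ : MvPolynomial (Fin m) ℂ →+* ℂ => φ H) h

theorem W1_D {m : ℕ} (w : Fin m → ℕ) (A : Matrix (Fin m) (Fin m) ℂ) (x : Fin m → ℂ) {k : Subfield ℂ}
    (D : Derivation k ℂ ℂ) (a b : Fin m) (h1 : D (A a b) = 1) (h2 : ∀ a' b', (a', b') ≠ (a, b) → D (A a' b') = 0)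
    (j : Fin m) : D (∑ b', A j b' * x b' ^ w j) = (if j = a then x b ^ w j else 0) +
      ∑ b', A j b' * ((w j : ℂ) * x b' ^ (w j - 1)) * D (x b') := by
  classical
  rw [map_sum]
  have h4 : ∀ b', D (A j b' * x b' ^ w j) = A j b' * ((w j : ℂ) * x b' ^ (w j - 1)) * D (x b') +
      (if j = a ∧ b' = b then x b' ^ w j else 0) := by
    intro b'
    rw [Derivation.leibniz, Derivation.leibniz_pow, smul_eq_mul, smul_eq_mul, nsmul_eq_mul, smul_eq_mul]
    have h5 : x b' ^ w j * D (A j b') = if j = a ∧ b' = b then x b' ^ w j else 0 := by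
      by_cases hj : j = a ∧ b' = b
      · rw [if_pos hj, hj.1, hj.2, h1, mul_one]
      · rw [if_neg hj, h2 j b', mul_zero]
        intro h5
        exact hj ⟨congrArg Prod.fst h5, congrArg Prod.snd h5⟩
    rw [h5]
    ring
  rw [Finset.sum_congr rfl (fun b' _ => h4 b'), Finset.sum_add_distrib, add_comm]
  congr 1
  by_cases ha : j = a
  · simp [ha]
  · simp [ha]

theorem W1_pderiv {m : ℕ} (w : Fin m → ℕ) (A : Matrix (Fin m) (Fin m) ℂ)
    (F : MvPolynomial (Fin m) ℂ) (k : Fin m) :
    pderiv k (wsub w A F) = ∑ a, wsub w A (pderiv a F) * (C (A a k) * (C (w a : ℂ) * X k ^ (w a - 1))) := by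
  classical
  have h := chain (wsub w A : MvPolynomial (Fin m) ℂ →ₐ[ℂ] MvPolynomial (Fin m) ℂ).toRingHom
    (RingHom.id ℂ) (fun a => (wsub w A).commutes a) F k
  change pderiv k (wsub w A F) = ∑ a, wsub w A (pderiv a F) * pderiv k (wsub w A (X a)) at h
  rw [h]
  apply Finset.sum_congr rfl
  intro a _
  congr 1
  unfold wsub
  rw [aeval_X, map_sum, Finset.sum_eq_single k]
  · rw [pderiv_C_mul, pderiv_pow, pderiv_X_self, mul_one]
    simp
  · intro b _ hb
    rw [pderiv_C_mul, pderiv_pow, pderiv_X_of_ne hb, mul_zero, mul_zero]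
  · intro hk
    exact absurd (Finset.mem_univ k) hk

/-
PROOF. Follow HCF/N2.lean, good_lin. exists_generic m (the coefficients of G): k, A, derivations D with D (A a b) = 1, D (A a' b') = 0 otherwise, D = 0 on k.
Write y j = ∑ b, A j b * x b ^ (w j) = eval x (wsub w A (X j)).
First claim: let y = 0 and suppose x ≠ 0, x b ≠ 0. For every a let D belong to (a, b): 0 = D (y j) = (if j = a then x b ^ (w a) else 0) + ∑ b', A j b' * w j * x b' ^ (w j - 1) * D (x b').
With the square matrices M j b' = A j b' * w j * x b' ^ (w j - 1) and N b' a = D_(a,b) (x b'): diagonal (fun a => x b ^ (w a)) = - M * N. M *ᵥ x = w j * y j = 0 (x ^ (w j - 1) * x = x ^ (w j), 0 < w j) and x ≠ 0,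
so det M = 0 (Matrix.exists_mulVec_eq_zero_iff), so the determinant of the diagonal matrix is 0, but it is ∏ a, x b ^ (w a) ≠ 0.
Second claim: x ≠ 0, x b ≠ 0, F = wsub w A G, all eval x (pderiv k F) = 0. eval x F = 0 by Euler (wsub_homog, IsHomogeneous.sum_X_mul_pderiv, d ≠ 0), that is eval y G = 0 (eval x (wsub w A H) = eval y H for all H).
For a, D = D_(a,b): 0 = D (eval y G) = ∑ j, (∂_j G)(y) * D (y j) (HCH/E4 e4_chain and a preimage of G over k, as in good_lin) = (∂_a G)(y) * x b ^ (w a) + ∑ b', D (x b') * ∑ j, (∂_j G)(y) * A j b' * w j * x b' ^ (w j - 1),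
and the last inner sum is eval x (pderiv b' F) = 0 (chain rule for aeval: HCH `chain`). So (∂_a G)(y) = 0.
-/
/-- A generic weighted cover. -/
theorem exists_cover {m d : ℕ} (w : Fin m → ℕ) (hw : ∀ k, 0 < w k) (hd : 0 < d)
    (G : MvPolynomial (Fin m) ℂ) (hG : IsWeightedHomogeneous w G d) :
    ∃ A : Matrix (Fin m) (Fin m) ℂ,
      (∀ x : Fin m → ℂ, (∀ j, eval x (wsub w A (X j)) = 0) → x = 0) ∧
      ∀ x : Fin m → ℂ, x ≠ 0 → (∀ k, eval x (pderiv k (wsub w A G)) = 0) →
        ∀ a, eval x (wsub w A (pderiv a G)) = 0 := by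
  classical
  obtain ⟨k, hk, A, hdet, hD⟩ := exists_generic m (Set.range fun n => coeff n G)
    (Set.countable_range _)
  refine ⟨A, ?_, ?_⟩
  · intro x hx
    by_contra hne
    obtain ⟨b, hb⟩ : ∃ b, x b ≠ 0 := by
      by_contra hcon
      push Not at hcon
      exact hne (funext hcon)
    have hy : ∀ j, ∑ b', A j b' * x b' ^ w j = 0 := by
      intro j
      have h1 := hx j
      rwa [W1_eval, eval_X] at h1
    choose D hD1 hD2 using fun a => hD a b
    obtain ⟨M, hM⟩ : ∃ M : Matrix (Fin m) (Fin m) ℂ, M = fun j b' => A j b' * ((w j : ℂ) * x b' ^ (w j - 1)) := ⟨_, rfl⟩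
    obtain ⟨N, hN⟩ : ∃ N : Matrix (Fin m) (Fin m) ℂ, N = fun b' a => D a (x b') := ⟨_, rfl⟩
    have h1 : Matrix.diagonal (fun j => x b ^ w j) = -(M * N) := by
      ext j a
      rw [Matrix.neg_apply, Matrix.mul_apply, Matrix.diagonal_apply]
      have h2 := W1_D w A x (D a) a b (hD1 a) (hD2 a) j
      rw [hy j, map_zero] at h2
      simp only [hM, hN]
      linear_combination -h2
    have h2 : M.det = 0 := by
      rw [← Matrix.exists_mulVec_eq_zero_iff]
      refine ⟨x, hne, ?_⟩
      ext j
      rw [Matrix.mulVec, dotProduct, Pi.zero_apply, hM]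
      have h3 : ∑ b', A j b' * ((w j : ℂ) * x b' ^ (w j - 1)) * x b' = (w j : ℂ) * ∑ b', A j b' * x b' ^ w j := by
        rw [Finset.mul_sum]
        refine Finset.sum_congr rfl fun b' _ => ?_
        have h4 : x b' ^ w j = x b' ^ (w j - 1) * x b' := by
          rw [← pow_succ]
          congr 1
          have := hw j
          omega
        rw [h4]
        ring
      rw [h3, hy j, mul_zero]
    have h3 : (Matrix.diagonal (fun j => x b ^ w j)).det = 0 := by
      rw [h1, ← Matrix.neg_mul, Matrix.det_mul, Matrix.det_neg, h2, mul_zero, zero_mul]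
    rw [Matrix.det_diagonal, Finset.prod_eq_zero_iff] at h3
    obtain ⟨j, _, hj⟩ := h3
    exact hb (pow_eq_zero_iff (by have := hw j; omega) |>.mp hj)
  · intro x hne hx a
    obtain ⟨b, hb⟩ : ∃ b, x b ≠ 0 := by
      by_contra hcon
      push Not at hcon
      exact hne (funext hcon)
    obtain ⟨F0, hF0⟩ : ∃ F0 : MvPolynomial (Fin m) k, MvPolynomial.map (algebraMap k ℂ) F0 = G := by
      have h1 : G ∈ Set.range (MvPolynomial.map (σ := Fin m) (algebraMap k ℂ)) := by
        rw [mem_range_map_iff_coeffs_subset]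
        intro c hc
        have h2 : c ∈ (k : Set ℂ) := by
          obtain ⟨n, _, rfl⟩ := mem_coeffs_iff.mp hc
          exact hk ⟨n, rfl⟩
        exact ⟨⟨c, h2⟩, rfl⟩
      exact h1
    obtain ⟨y, hy⟩ : ∃ y : Fin m → ℂ, y = fun j => ∑ b, A j b * x b ^ w j := ⟨_, rfl⟩
    have hev : ∀ H, eval x (wsub w A H) = eval y H := by
      intro H
      rw [W1_eval, hy]
    have hFp : eval y G = 0 := by
      have h1 := (wsub_homog w A G hG).sum_X_mul_pderiv
      have h2 := congrArg (eval x) h1
      rw [map_sum, map_nsmul, hev] at h2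
      have h3 : ∑ j, eval x (X j * pderiv j (wsub w A G)) = 0 := by
        apply Finset.sum_eq_zero
        intro j _
        rw [map_mul, hx j, mul_zero]
      rw [h3, nsmul_eq_mul] at h2
      have h4 : (d : ℂ) ≠ 0 := by
        rw [Nat.cast_ne_zero]
        omega
      rcases mul_eq_zero.mp h2.symm with h5 | h5
      · exact absurd h5 h4
      · exact h5
    obtain ⟨D, hD1, hD2⟩ := hD a b
    have hev' : ∀ H : MvPolynomial (Fin m) k, aeval y H = eval y (MvPolynomial.map (algebraMap k ℂ) H) := by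
      intro H
      rw [eval_map, aeval_def]
    have h1 := e4_chain D y F0
    rw [hev', hF0, hFp, map_zero] at h1
    have h2 : ∀ a', aeval y (pderiv a' F0) = eval y (pderiv a' G) := by
      intro a'
      rw [hev', ← hF0, pderiv_map]
    have h3 : ∀ a', D (y a') = (if a' = a then x b ^ w a' else 0) +
        ∑ j, A a' j * ((w a' : ℂ) * x j ^ (w a' - 1)) * D (x j) := by
      intro a'
      rw [hy]
      exact W1_D w A x D a b hD1 hD2 a'
    have hg : ∀ j, ∑ a', eval y (pderiv a' G) * (A a' j * ((w a' : ℂ) * x j ^ (w a' - 1))) = 0 := by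
      intro j
      have h4 := hx j
      rw [W1_pderiv, map_sum] at h4
      rw [← h4]
      refine Finset.sum_congr rfl fun a' _ => ?_
      rw [map_mul, hev, map_mul, eval_C, map_mul, eval_C, map_pow, eval_X]
    have h5 : ∑ a', aeval y (pderiv a' F0) * D (y a') = eval y (pderiv a G) * x b ^ w a := by
      have h6 : ∀ a', aeval y (pderiv a' F0) * D (y a') =
          (if a' = a then eval y (pderiv a' G) * x b ^ w a' else 0) +
          ∑ j, (eval y (pderiv a' G) * (A a' j * ((w a' : ℂ) * x j ^ (w a' - 1)))) * D (x j) := by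
        intro a'
        rw [h2, h3, mul_add, Finset.mul_sum]
        congr 1
        · split_ifs
          · rfl
          · rw [mul_zero]
        · apply Finset.sum_congr rfl
          intro j _
          ring
      rw [Finset.sum_congr rfl (fun a' _ => h6 a'), Finset.sum_add_distrib, Finset.sum_comm]
      have h7 : ∑ j, ∑ a', (eval y (pderiv a' G) * (A a' j * ((w a' : ℂ) * x j ^ (w a' - 1)))) * D (x j) = 0 := by
        apply Finset.sum_eq_zero
        intro j _
        rw [← Finset.sum_mul, hg j, zero_mul]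
      rw [h7, add_zero]
      simp
    rw [h5] at h1
    rw [hev]
    rcases mul_eq_zero.mp h1.symm with h8 | h8
    · exact h8
    · exact absurd (pow_eq_zero_iff (by have := hw a; omega) |>.mp h8) hb

end Pool.Agent.HCT
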