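import Pool.Agent.HCT.E2
import Pool.Agent.HCT.T2
import Pool.Agent.HCT.T3

namespace Pool.Agent.HCT

open Pool.Agent.HCH Pool.Agent.HCF Pool.Agent.HCR MvPolynomial

/-
PROOF. reduce with n₀ = 5 and P n f := AT ℂ f ((n + 1) / 2). Stb 5 P: AT_unsub with e = (n + 1) / 2, e + 1 < n for n ≥ 5. hNF: n odd; take c ≥ n from h, 2 c + 3 = n + 2 k, (2 c + 3 + 1) / 2 = c + 2. For F of degree d in 2 i + 3 variables,
SgLe F 0: QH, Low2, Iso F (qh_of_homog, low2_of_homog, HCH.smooth_of_sg): AT ℂ F (i + 2) ((2 i + 3 + 1) / 2 = i + 2, 5 ≤ 2 i + 3). Then strong induction on i with hart_step.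
-/
theorem crit_of_nf (h : ∀ c₀, ∃ c ≥ c₀, ∀ g : MvPolynomial (Fin (2 * c + 3)) ℂ, NF g → QH g →
    Iso g → AT ℂ g (c + 2)) : ∀ i, 1 ≤ i → CritHC i := by
  have hP : Stb 5 (fun n f => AT ℂ f ((n + 1) / 2)) := by
    intro n f₀ B p hn h1
    have e1 : (n + 2 + 1) / 2 = (n + 1) / 2 + 1 := by omega
    rw [e1] at h1
    exact AT_unsub f₀ B p _ (by omega) h1
  have hred := reduce 5 (fun n f => AT ℂ f ((n + 1) / 2)) hP (by
    intro n hn ho
    obtain ⟨c, hc, hg⟩ := h n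
    obtain ⟨a, ha⟩ := ho
    refine ⟨c + 1 - a, ?_⟩
    have key : ∀ N', N' = 2 * c + 3 → ∀ g : MvPolynomial (Fin N') ℂ, NF g → QH g → Iso g →
        AT ℂ g ((N' + 1) / 2) := by
      rintro _ rfl g h1 h2 h3
      have e1 : (2 * c + 3 + 1) / 2 = c + 2 := by omega
      rw [e1]
      exact hg g h1 h2 h3
    exact key _ (by omega))
  have hAT : ∀ i, 1 ≤ i → ∀ d, 2 ≤ d → ∀ F : MvPolynomial (Fin (2 * i + 3)) ℂ,
      F.IsHomogeneous d → SgLe F 0 → AT ℂ F (i + 2) := by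
    intro i hi d hd F hF hs
    have h1 := hred (2 * i + 3) (by omega) ⟨i + 1, by omega⟩ F (qh_of_homog (by omega) F hF)
      (low2_of_homog hd F hF) (smooth_of_sg F hF hs)
    have e1 : (2 * i + 3 + 1) / 2 = i + 2 := by omega
    rw [e1] at h1
    exact h1
  intro i
  induction i using Nat.strong_induction_on with
  | _ i ih =>
    intro hi d hd
    exact hart_step d hd i hi (fun j hj hji => ih j hji hj d hd) (hAT i hi d hd)

/-- Hartshorne's conjecture in all degrees, the normal form and the rigidity along one elliptic curve. -/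
theorem final5 : List.TFAE [
    ∀ d, 2 ≤ d → ∀ j n, 2 * j < n → ∀ F : MvPolynomial (Fin (n + 2)) ℂ, F.IsHomogeneous d →
      Smooth F → ChowTriv F j,
    ∀ c, 1 ≤ c → HCW ℂ c,
    ∀ c₀, ∃ c ≥ c₀, ∀ g : MvPolynomial (Fin (2 * c + 3)) ℂ, NF g → QH g → Iso g →
      AT ℂ g (c + 2),
    ∀ j ≥ 1, ∀ G : MvPolynomial (Fin (2 * j + 2)) ℂ, QH G → Iso G → Rig G (j + 1),
    ∀ j₀, ∃ j ≥ j₀, ∀ g : MvPolynomial (Fin (2 * j + 1)) ℂ, NF g → QH g → Iso g →
      Rig (sus 3 g) (j + 1)] := by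
  tfae_have 1 → 2 := by
    intro h c hc
    exact hcw_of_crit c hc (fun j _ _ => crit_of_hc h j) ℂ ⟨RingEquiv.refl ℂ⟩
  tfae_have 2 → 3 := by
    intro h c₀
    refine ⟨c₀ + 1, by omega, ?_⟩
    intro g _ hq hs
    have h1 := h (c₀ + 1) (by omega) (2 * (c₀ + 1) + 3) 0 (by omega) g hq (critle_of_iso g hs)
    have e1 : 2 * (c₀ + 1) + 3 - 1 - (c₀ + 1) = c₀ + 1 + 2 := by omega
    rw [e1] at h1
    exact h1
  tfae_have 3 → 1 := by
    intro h d hd j n hn F hF hs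
    exact hc_of_crit (crit_of_nf h) d hd j n hn F hF hs
  tfae_have 2 → 4 := by
    intro h j hj G hq hs
    exact rig_of_hcw (fun K _ ε c hc => hcw_field c (h c hc) K ε) j hj G hq hs
  tfae_have 4 → 5 := by
    intro h j₀
    refine ⟨j₀ + 1, by omega, ?_⟩
    intro g _ hq hs
    exact h (j₀ + 1) (by omega) (sus 3 g) (qh_sus g hq) (iso_sus g hs)
  tfae_have 5 → 1 := by
    intro h d hd j n hn F hF hs
    exact hc_of_crit (crit_of_gc fun K _ ε => gc_of_tw (tw_all h) K ε) d hd j n hn F hF hs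
  tfae_finish

end Pool.Agent.HCT
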